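import Pool.Agent.Lib.RG58.Main

/-! Commutators are not relators of a presentation with three relators (helper58). -/

set_option autoImplicit false

namespace RG58

open FreeGroup (of)

theorem rho_mem {G : Type*} [Group G] {a b c d : G} (S : Subgroup G) (ha : a ∈ S) (hb : b ∈ S)
    (hc : c ∈ S) (hd : d ∈ S) (g : F) : rho a b c d g ∈ S := by
  induction g using FreeGroup.induction_on with
  | C1 => rw [map_one]; exact S.one_mem
  | of i =>
    fin_cases i
    · change rho a b c d (of 0) ∈ S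
      rw [rho0]; exact ha
    · change rho a b c d (of 1) ∈ S
      rw [rho1]; exact hb
    · change rho a b c d (of 2) ∈ S
      rw [rho2]; exact hc
    · change rho a b c d (of 3) ∈ S
      rw [rho3]; exact hd
  | inv_of i h => rw [map_inv]; exact S.inv_mem h
  | mul x y hx hy => rw [map_mul]; exact S.mul_mem hx hy

theorem rho_ext {G : Type*} [Group G] {f g : F →* G} (h0 : f (of 0) = g (of 0))
    (h1 : f (of 1) = g (of 1)) (h2 : f (of 2) = g (of 2)) (h3 : f (of 3) = g (of 3)) : f = g := by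
  ext i
  fin_cases i
  · exact h0
  · exact h1
  · exact h2
  · exact h3

namespace TH

variable {K : Type*} [CommRing K]

theorem comm_q (a b : TH K) (ha : a.u = 1) (hb : b.u = 1) :
    (a * b * a⁻¹ * b⁻¹).q = a.p * b.s - b.p * a.s ∧ (a * b * a⁻¹ * b⁻¹).p = 0 := by
  constructor
  · simp only [mul_u, mul_p, mul_q, inv_u, inv_p, inv_s, inv_q, ha, hb, mul_one, inv_one,
      Units.val_one, one_mul]
    ring
  · simp only [mul_u, mul_p, inv_u, inv_p, ha, hb, mul_one, inv_one,
      Units.val_one, one_mul]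
    ring

/-- unipotent matrices -/
def uni (K : Type*) [CommRing K] : Subgroup (TH K) where
  carrier := {a | a.u = 1}
  one_mem' := rfl
  mul_mem' := by
    intro a b h1 h2
    change a.u * b.u = 1
    rw [h1, h2, one_mul]
  inv_mem' := by
    intro a h1
    change a.u⁻¹ = 1
    rw [h1, inv_one]

/-- unipotent matrices with `p = s` -/
def diagS (K : Type*) [CommRing K] : Subgroup (TH K) where
  carrier := {a | a.u = 1 ∧ a.p = a.s}
  one_mem' := ⟨rfl, rfl⟩
  mul_mem' := by
    rintro a b ⟨h1, h2⟩ ⟨h3, h4⟩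
    refine ⟨by rw [mul_u, h1, h3, one_mul], ?_⟩
    rw [mul_p, mul_s, h1, h2, h4, Units.val_one]
    ring
  inv_mem' := by
    rintro a ⟨h1, h2⟩
    refine ⟨by rw [inv_u, h1, inv_one], ?_⟩
    rw [inv_p, inv_s, h1, h2, inv_one, Units.val_one]
    ring

/-- `u = 1`, `p = 0` -/
def up (K : Type*) [CommRing K] : Subgroup (TH K) where
  carrier := {a | a.u = 1 ∧ a.p = 0}
  one_mem' := ⟨rfl, rfl⟩
  mul_mem' := by
    rintro a b ⟨h1, h2⟩ ⟨h3, h4⟩
    refine ⟨by rw [mul_u, h1, h3, one_mul], ?_⟩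
    rw [mul_p, h2, h4]
    ring
  inv_mem' := by
    rintro a ⟨h1, h2⟩
    refine ⟨by rw [inv_u, h1, inv_one], ?_⟩
    rw [inv_p, h2]
    ring

instance : (up K).Normal := by
  constructor
  rintro a ⟨h1, h2⟩ g
  have h4 : (g.u : K) * ((g.u⁻¹ : Kˣ) : K) = 1 := Units.mul_inv g.u
  refine ⟨?_, ?_⟩
  · simp only [mul_u, inv_u, h1, mul_one, mul_inv_cancel]
  · simp only [mul_u, mul_p, inv_p, h1, h2, mul_one]
    linear_combination (- g.p) * h4

/-- first projection -/
def pr : TH K →* TH K where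
  toFun a := ⟨a.u, a.p, 0, 0⟩
  map_one' := rfl
  map_mul' a b := by
    ext <;> simp [mul_u, mul_p, mul_s, mul_q]

/-- second projection -/
def ps : TH K →* TH K where
  toFun a := ⟨1, a.s, 0, 0⟩
  map_one' := rfl
  map_mul' a b := by
    ext
    · simp [mul_u]
    · simp only [mul_p, mul_s, Units.val_one]; ring
    · simp [mul_s]
    · simp [mul_q]

/-- change of rings -/
def mp {L : Type*} [CommRing L] (f : K →+* L) : TH K →* TH L where
  toFun a := ⟨Units.map f.toMonoidHom a.u, f a.p, f a.s, f a.q⟩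
  map_one' := by
    ext <;> simp [one_u, one_p, one_s, one_q]
  map_mul' a b := by
    ext <;> simp [mul_u, mul_p, mul_s, mul_q]

end TH

/-! ### the Laurent polynomials -/

/-- Laurent polynomials over `F_2` -/
abbrev L2 := LaurentPolynomial (ZMod 2)

open LaurentPolynomial in
/-- the variable -/
noncomputable def Tu : L2ˣ := ⟨T 1, T (-1), by rw [← T_add]; simp, by rw [← T_add]; simp⟩

open LaurentPolynomial in
theorem Tu_zpow (n : ℤ) : ((Tu ^ n : L2ˣ) : L2) = T n := by
  induction n using Int.induction_on with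
  | zero => simp
  | succ n ih => rw [zpow_add, Units.val_mul, ih, zpow_one, T_add]; rfl
  | pred n ih => rw [sub_eq_add_neg, zpow_add, Units.val_mul, ih, T_add, zpow_neg_one]; rfl

open LaurentPolynomial in
theorem Tu_inj {n : ℤ} (h : Tu ^ n = 1) : n = 0 := by
  have h1 := congrArg (Units.val) h
  rw [Tu_zpow, Units.val_one] at h1
  have h2 := congrArg LaurentPolynomial.degree h1
  rw [show (1 : L2) = T 0 from (T_zero).symm, degree_T, degree_T] at h2
  exact_mod_cast h2

/-- the augmentation -/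
noncomputable def aug : L2 →+* ZMod 2 := LaurentPolynomial.eval₂ (RingHom.id _) 1

theorem aug_Tu : Units.map aug.toMonoidHom Tu = 1 := by
  ext
  have h1 : aug (LaurentPolynomial.T 1) = ((1 ^ (1 : ℤ) : (ZMod 2)ˣ) : ZMod 2) :=
    LaurentPolynomial.eval₂_T _ _ _
  change aug (LaurentPolynomial.T 1) = 1
  rw [h1, one_zpow, Units.val_one]

/-- the exponent sum of `y` -/
def Ey : F →* Multiplicative ℤ := rho 1 (Multiplicative.ofAdd 1) 1 1

/-- derivation in the `z`-direction -/
noncomputable def rz : F →* TH L2 := rho 1 ⟨Tu, 0, 0, 0⟩ ⟨1, 1, 0, 0⟩ 1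
/-- derivation in the `t`-direction -/
noncomputable def rt : F →* TH L2 := rho 1 ⟨Tu, 0, 0, 0⟩ 1 ⟨1, 1, 0, 0⟩

theorem two_L2 : (2 : L2) = 0 := by
  have h : ((2 : ZMod 2) : ZMod 2) = 0 := by decide
  have h1 : (2 : L2) = LaurentPolynomial.C (2 : ZMod 2) := by
    rw [map_ofNat]
  rw [h1, h, map_zero]

theorem rz_chi (g : F) : (rz g).u = Tu ^ (Multiplicative.toAdd (Ey g)) := by
  have : TH.chi.comp rz = (zpowersHom L2ˣ Tu).comp Ey := by
    apply rho_ext
    · simp [rz, Ey, rho0, TH.chi, TH.one_u]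
    · simp [rz, Ey, rho1, TH.chi]
    · simp [rz, Ey, rho2, TH.chi]
    · simp [rz, Ey, rho3, TH.chi, TH.one_u]
  exact DFunLike.congr_fun this g

theorem rt_chi (g : F) : (rt g).u = Tu ^ (Multiplicative.toAdd (Ey g)) := by
  have : TH.chi.comp rt = (zpowersHom L2ˣ Tu).comp Ey := by
    apply rho_ext
    · simp [rt, Ey, rho0, TH.chi, TH.one_u]
    · simp [rt, Ey, rho1, TH.chi]
    · simp [rt, Ey, rho2, TH.chi, TH.one_u]
    · simp [rt, Ey, rho3, TH.chi]
  exact DFunLike.congr_fun this g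

theorem rz_R {r : F} (hr : r ∈ R) : (rz r).u = 1 ∧ (rz r).p = 0 := by
  have hle : R ≤ (TH.up L2).comap rz := by
    apply Subgroup.normalClosure_le_normal
    apply rel_cases
    · change rz (of 0 ^ 3) ∈ TH.up L2
      rw [map_pow, rz, rho0, one_pow]
      exact (TH.up L2).one_mem
    · change rz (of 2 ^ 2) ∈ TH.up L2
      rw [map_pow, rz, rho2, pow_two]
      refine ⟨one_mul _, ?_⟩
      rw [TH.mul_p, Units.val_one, one_mul, one_add_one_eq_two, two_L2]
    · change rz (of 0 * of 1 * (of 0)⁻¹ * (of 1)⁻¹) ∈ TH.up L2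
      rw [map_mul, map_mul, map_mul, map_inv, map_inv, rz, rho0, rho1, one_mul, inv_one, mul_one,
        mul_inv_cancel]
      exact (TH.up L2).one_mem
    · change rz (of 2 * of 3 * (of 2)⁻¹ * (of 3)⁻¹) ∈ TH.up L2
      rw [map_mul, map_mul, map_mul, map_inv, map_inv, rz, rho2, rho3, mul_one, mul_inv_cancel,
        inv_one, mul_one]
      exact (TH.up L2).one_mem
  exact hle hr

theorem rt_R {r : F} (hr : r ∈ R) : (rt r).u = 1 ∧ (rt r).p = 0 := by
  have hle : R ≤ (TH.up L2).comap rt := by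
    apply Subgroup.normalClosure_le_normal
    apply rel_cases
    · change rt (of 0 ^ 3) ∈ TH.up L2
      rw [map_pow, rt, rho0, one_pow]
      exact (TH.up L2).one_mem
    · change rt (of 2 ^ 2) ∈ TH.up L2
      rw [map_pow, rt, rho2, one_pow]
      exact (TH.up L2).one_mem
    · change rt (of 0 * of 1 * (of 0)⁻¹ * (of 1)⁻¹) ∈ TH.up L2
      rw [map_mul, map_mul, map_mul, map_inv, map_inv, rt, rho0, rho1, one_mul, inv_one, mul_one,
        mul_inv_cancel]
      exact (TH.up L2).one_mem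
    · change rt (of 2 * of 3 * (of 2)⁻¹ * (of 3)⁻¹) ∈ TH.up L2
      rw [map_mul, map_mul, map_mul, map_inv, map_inv, rt, rho2, rho3, one_mul, inv_one, mul_one,
        mul_inv_cancel]
      exact (TH.up L2).one_mem
  exact hle hr

/-- commuting elements of the quotient: the relation between the derivations -/
theorem comm_rel {ρ : F →* TH L2} (hρ : ∀ r ∈ R, (ρ r).u = 1 ∧ (ρ r).p = 0) {g h : F}
    (hgh : g * h * g⁻¹ * h⁻¹ ∈ R) :
    (ρ g).u * (ρ h).p + (ρ g).p = (ρ h).u * (ρ g).p + (ρ h).p := by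
  obtain ⟨h1, h2⟩ := hρ _ hgh
  have h3 : g * h = (g * h * g⁻¹ * h⁻¹) * (h * g) := by group
  have h4 : (ρ (g * h)).p = (ρ (h * g)).p := by
    rw [h3, map_mul, TH.mul_p, h1, h2, Units.val_one, one_mul, add_zero]
  rwa [map_mul, map_mul, TH.mul_p, TH.mul_p] at h4

/-- the representation that detects `[z, t]` -/
abbrev rzt : F →* TH (ZMod 2) := rho (⟨1, 0, 0, 0⟩ : TH (ZMod 2)) 1 ⟨1, 1, 0, 0⟩ ⟨1, 0, 1, 0⟩

/-- the representation that detects `[x, y]` -/
abbrev rxy : F →* TH (ZMod 3) := rho (⟨1, 1, 0, 0⟩ : TH (ZMod 3)) ⟨1, 0, 1, 0⟩ ⟨1, 0, 0, 0⟩ 1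

theorem aug_rz (g : F) : aug (rz g).p = (rzt g).p := by
  have : (TH.mp aug).comp rz = TH.pr.comp rzt := by
    apply rho_ext
    · simp only [MonoidHom.comp_apply, rz, rzt, rho0, map_one]
      rfl
    · simp only [MonoidHom.comp_apply, rz, rzt, rho1, map_one]
      simp only [TH.mp, MonoidHom.coe_mk, OneHom.coe_mk, aug_Tu, map_zero]
      rfl
    · simp only [MonoidHom.comp_apply, rz, rzt, rho2]
      simp [TH.mp, TH.pr]
    · simp only [MonoidHom.comp_apply, rz, rzt, rho3, map_one]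
      rfl
  have h2 := DFunLike.congr_fun this g
  exact congrArg TH.p h2

theorem aug_rt (g : F) : aug (rt g).p = (rzt g).s := by
  have : (TH.mp aug).comp rt = TH.ps.comp rzt := by
    apply rho_ext
    · simp only [MonoidHom.comp_apply, rt, rzt, rho0, map_one]
      rfl
    · simp only [MonoidHom.comp_apply, rt, rzt, rho1, map_one]
      simp only [TH.mp, MonoidHom.coe_mk, OneHom.coe_mk, aug_Tu, map_zero]
      rfl
    · simp only [MonoidHom.comp_apply, rt, rzt, rho2, map_one]
      rfl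
    · simp only [MonoidHom.comp_apply, rt, rzt, rho3]
      simp [TH.mp, TH.ps]
  have h2 := DFunLike.congr_fun this g
  exact congrArg TH.p h2

theorem rxy_s {g : F} (hg : Ey g = 1) : (rxy g).s = 0 := by
  have : TH.ps.comp rxy = (zpowersHom (TH (ZMod 3)) ⟨1, 1, 0, 0⟩).comp Ey := by
    apply rho_ext
    · simp only [MonoidHom.comp_apply, rxy, Ey, rho0, map_one]
      rfl
    · simp only [MonoidHom.comp_apply, rxy, Ey, rho1]
      simp [TH.ps]
    · simp only [MonoidHom.comp_apply, rxy, Ey, rho2, map_one]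
      rfl
    · simp only [MonoidHom.comp_apply, rxy, Ey, rho3, map_one]
  have h2 := DFunLike.congr_fun this g
  rw [MonoidHom.comp_apply, MonoidHom.comp_apply, hg, map_one] at h2
  exact congrArg TH.p h2

/-- **commuting pairs**: never independent for both factors -/
theorem comm_pair {g h : F} (hgh : g * h * g⁻¹ * h⁻¹ ∈ R)
    (h2 : (rzt g).p * (rzt h).s - (rzt h).p * (rzt g).s ≠ 0) :
    (rxy g).p * (rxy h).s - (rxy h).p * (rxy g).s = 0 := by
  have e1 := comm_rel (ρ := rz) (fun r hr => rz_R hr) hgh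
  have e2 := comm_rel (ρ := rt) (fun r hr => rt_R hr) hgh
  have c1 : (rt g).u = (rz g).u := by rw [rz_chi, rt_chi]
  have c2 : (rt h).u = (rz h).u := by rw [rz_chi, rt_chi]
  rw [c1, c2] at e2
  obtain ⟨Δ, hΔ⟩ : ∃ Δ : L2, Δ = (rz g).p * (rt h).p - (rz h).p * (rt g).p := ⟨_, rfl⟩
  have hΔ0 : Δ ≠ 0 := by
    intro h0
    apply h2
    rw [← aug_rz, ← aug_rz, ← aug_rt, ← aug_rt, ← map_mul, ← map_mul, ← map_sub, ← hΔ, h0, map_zero]
  have d1 : ((1 : L2) - (rz h).u) * Δ = 0 := by
    rw [hΔ]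
    linear_combination (rt h).p * e1 - (rz h).p * e2
  have d2 : ((1 : L2) - (rz g).u) * Δ = 0 := by
    rw [hΔ]
    linear_combination (rt g).p * e1 - (rz g).p * e2
  have f1 : Ey h = 1 := by
    have h3 := (mul_eq_zero.1 d1).resolve_right hΔ0
    have h4 : (rz h).u = 1 := Units.ext (sub_eq_zero.1 h3).symm
    rw [rz_chi] at h4
    exact Multiplicative.toAdd.injective (Tu_inj h4)
  have f2 : Ey g = 1 := by
    have h3 := (mul_eq_zero.1 d2).resolve_right hΔ0
    have h4 : (rz g).u = 1 := Units.ext (sub_eq_zero.1 h3).symm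
    rw [rz_chi] at h4
    exact Multiplicative.toAdd.injective (Tu_inj h4)
  rw [rxy_s f1, rxy_s f2]
  ring

end RG58
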