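import Pool.Agent.Lib.RG58.Last

/-! Products of commutators among three relators (helper58). -/

set_option autoImplicit false

namespace RG58

open FreeGroup (of)

theorem zero_comm {K : Type*} [Field K] {χ : F →* Kˣ} {φ : F → K} (hφ : IsFn χ φ)
    {U : Subgroup F} (hU : ∀ g ∈ U, ∀ h ∈ U, g * h * g⁻¹ * h⁻¹ ∈ R)
    (h0 : ∀ g ∈ U, ∀ h ∈ U, φ (g * h * g⁻¹ * h⁻¹) = 0) {c : F} (hc : c ∈ ⁅U, U⁆) :
    c ∈ R ∧ φ c = 0 := by
  let N : Subgroup F :=
    { carrier := {c | c ∈ R ∧ φ c = 0}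
      one_mem' := ⟨R.one_mem, hφ.one⟩
      mul_mem' := by
        rintro a b ⟨ha, ha'⟩ ⟨hb, hb'⟩
        refine ⟨R.mul_mem ha hb, ?_⟩
        rw [hφ.add a ha b hb, ha', hb', add_zero]
      inv_mem' := by
        rintro a ⟨ha, ha'⟩
        refine ⟨R.inv_mem ha, ?_⟩
        rw [hφ.inv ha, ha', neg_zero] }
  have hle : ⁅U, U⁆ ≤ N := by
    rw [Subgroup.commutator_le]
    intro g hg h hh
    rw [commutatorElement_def]
    exact ⟨hU g hg h hh, h0 g hg h hh⟩
  exact hle hc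

/-- **products of commutators** in a subgroup with abelian image -/
theorem no_comm_U {r : Fin 3 → F} (hr : Gen r) (i : Fin 3) {U : Subgroup F}
    (hU : ∀ g ∈ U, ∀ h ∈ U, g * h * g⁻¹ * h⁻¹ ∈ R) {c s : F} (hc : c ∈ ⁅U, U⁆) (hs : s ∈ P6)
    (hi : r i = c * s) : False := by
  have val : ∀ {K : Type} [Field K] (_ : (6 : K) = 0) {φ : F → K} (_ : IsFn (rho 1 1 1 1) φ)
      (_ : ∀ g ∈ U, ∀ h ∈ U, φ (g * h * g⁻¹ * h⁻¹) = 0), φ (r i) = 0 := by
    intro K _ h6 φ hφ h0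
    obtain ⟨h1, h2⟩ := hφ.p6' h6 hs
    obtain ⟨h3, h4⟩ := zero_comm hφ hU h0 hc
    rw [hi, hφ.add _ h3 _ h1, h2, h4, add_zero]
  have h2 : (2 : ZMod 2) = 0 := by decide
  have h3 : (3 : ZMod 3) = 0 := by decide
  have k2 : ∃ g ∈ U, ∃ h ∈ U, (rzt g).p * (rzt h).s - (rzt h).p * (rzt g).s ≠ 0 := by
    by_contra hcon
    push Not at hcon
    rcases triple2 hr i with h | h | h
    · apply h
      refine val (by decide) fx2.1 ?_
      intro g _ h _
      have m : ∀ f : F, rho (⟨1, 0, 0, 1⟩ : TH (ZMod 2)) 1 1 1 f ∈ TH.corner (ZMod 2) :=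
        rho_mem _ ⟨rfl, rfl, rfl⟩ (Subgroup.one_mem _) (Subgroup.one_mem _) (Subgroup.one_mem _)
      rw [map_mul, map_mul, map_mul, map_inv, map_inv, (TH.comm_q _ _ (m _).1 (m _).1).1,
        (m _).2.1, (m _).2.1]
      ring
    · apply h
      refine val (by decide) (fz h2 (1 : (ZMod 2)ˣ) (one_pow 3)).1 ?_
      intro g _ h _
      have m : ∀ f : F, rho (⟨1, 0, 0, 0⟩ : TH (ZMod 2)) 1 ⟨1, 1, 1, 0⟩ 1 f ∈
          TH.diagS (ZMod 2) :=
        rho_mem _ ⟨rfl, rfl⟩ (Subgroup.one_mem _) ⟨rfl, rfl⟩ (Subgroup.one_mem _)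
      change (rho (⟨1, 0, 0, 0⟩ : TH (ZMod 2)) 1 ⟨1, 1, 1, 0⟩ 1 (g * h * g⁻¹ * h⁻¹)).q = 0
      rw [map_mul, map_mul, map_mul, map_inv, map_inv, (TH.comm_q _ _ (m _).1 (m _).1).1,
        (m _).2, (m _).2]
      ring
    · apply h
      refine val (by decide) (fzt h2 (1 : (ZMod 2)ˣ) (one_pow 3)).1 ?_
      intro g hg h hh
      have m : ∀ f : F, rzt f ∈ TH.uni (ZMod 2) :=
        rho_mem _ rfl (Subgroup.one_mem _) rfl rfl
      change (rzt (g * h * g⁻¹ * h⁻¹)).q = 0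
      rw [map_mul, map_mul, map_mul, map_inv, map_inv, (TH.comm_q _ _ (m _) (m _)).1]
      exact hcon g hg h hh
  have k3 : ∃ g ∈ U, ∃ h ∈ U, (rxy g).p * (rxy h).s - (rxy h).p * (rxy g).s ≠ 0 := by
    by_contra hcon
    push Not at hcon
    have hD := fD_fn 1 (one_pow 2)
    rw [map_one] at hD
    rcases triple3 hr i with h | h | h
    · apply h
      refine val (by decide) hD ?_
      intro g _ h _
      have m : ∀ f : F, rhoD 1 f ∈ TH.uni ℤ :=
        rho_mem _ rfl (Subgroup.one_mem _) rfl (Subgroup.one_mem _)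
      rw [fD, map_mul, map_mul, map_mul, map_inv, map_inv, (TH.comm_q _ _ (m _) (m _)).2]
      simp
    · apply h
      refine val (by decide) fz3.1 ?_
      intro g _ h _
      have m : ∀ f : F, rho (1 : TH (ZMod 3)) 1 ⟨1, 0, 0, 1⟩ 1 f ∈ TH.corner (ZMod 3) :=
        rho_mem _ (Subgroup.one_mem _) (Subgroup.one_mem _) ⟨rfl, rfl, rfl⟩ (Subgroup.one_mem _)
      rw [map_mul, map_mul, map_mul, map_inv, map_inv, (TH.comm_q _ _ (m _).1 (m _).1).1,
        (m _).2.1, (m _).2.1]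
      ring
    · apply h
      refine val (by decide) (fxy (1 : (ZMod 3)ˣ) (one_pow 2)).1 ?_
      intro g hg h hh
      have m : ∀ f : F, rxy f ∈ TH.uni (ZMod 3) :=
        rho_mem _ rfl rfl rfl (Subgroup.one_mem _)
      change (rxy (g * h * g⁻¹ * h⁻¹)).q = 0
      rw [map_mul, map_mul, map_mul, map_inv, map_inv, (TH.comm_q _ _ (m _) (m _)).1]
      exact hcon g hg h hh
  obtain ⟨g, hg, h, hh, hk2⟩ := k2
  obtain ⟨g', hg', h', hh', hk3⟩ := k3
  have m2 : ∀ f : F, (rzt f).u = 1 := rho_mem (TH.uni (ZMod 2)) rfl (Subgroup.one_mem _) rfl rfl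
  have m3 : ∀ f : F, (rxy f).u = 1 := rho_mem (TH.uni (ZMod 3)) rfl rfl rfl (Subgroup.one_mem _)
  have p2 : ∀ a b : F, (rzt (a * a * a * (b * b * b * b))).p = (rzt a).p := by
    intro a b
    simp only [map_mul, TH.mul_p, TH.mul_u, m2, Units.val_mul, Units.val_one]
    linear_combination ((rzt a).p + 2 * (rzt b).p) * h2
  have s2 : ∀ a b : F, (rzt (a * a * a * (b * b * b * b))).s = (rzt a).s := by
    intro a b
    simp only [map_mul, TH.mul_s]
    linear_combination ((rzt a).s + 2 * (rzt b).s) * h2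
  have p3 : ∀ a b : F, (rxy (a * a * a * (b * b * b * b))).p = (rxy b).p := by
    intro a b
    simp only [map_mul, TH.mul_p, TH.mul_u, m3, Units.val_mul, Units.val_one]
    linear_combination ((rxy a).p + (rxy b).p) * h3
  have s3 : ∀ a b : F, (rxy (a * a * a * (b * b * b * b))).s = (rxy b).s := by
    intro a b
    simp only [map_mul, TH.mul_s]
    linear_combination ((rxy a).s + (rxy b).s) * h3
  have mem : ∀ a ∈ U, ∀ b ∈ U, a * a * a * (b * b * b * b) ∈ U := by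
    intro a ha b hb
    exact U.mul_mem (U.mul_mem (U.mul_mem ha ha) ha)
      (U.mul_mem (U.mul_mem (U.mul_mem hb hb) hb) hb)
  have key := comm_pair (hU _ (mem g hg g' hg') _ (mem h hh h' hh')) (by
    rw [p2, p2, s2, s2]
    exact hk2)
  rw [p3, p3, s3, s3] at key
  exact hk3 key

theorem mk_comm {g h : F} : g * h * g⁻¹ * h⁻¹ ∈ R ↔
    QuotientGroup.mk' R g * QuotientGroup.mk' R h =
      QuotientGroup.mk' R h * QuotientGroup.mk' R g := by
  rw [← mk_eq_one, map_mul, map_mul, map_mul, map_inv, map_inv, mul_inv_eq_one,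
    mul_inv_eq_iff_eq_mul]

/-- **commutators of finite order** -/
theorem no_comm_S {r : Fin 3 → F} (hr : Gen r) (i : Fin 3) {S : Set F}
    (hS : ∀ g ∈ S, ∀ h ∈ S, ∃ m : ℕ, m ≠ 0 ∧ (g * h * g⁻¹ * h⁻¹) ^ m ∈ R) {c s : F}
    (hc : c ∈ ⁅Subgroup.closure S, Subgroup.closure S⁆) (hs : s ∈ P6) (hi : r i = c * s) :
    False := by
  have h1 : ∀ g ∈ S, ∀ h ∈ S, QuotientGroup.mk' R g * QuotientGroup.mk' R h =
      QuotientGroup.mk' R h * QuotientGroup.mk' R g := by
    intro g hg h hh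
    rw [← mk_comm]
    obtain ⟨m, hm, hgh⟩ := hS g hg h hh
    by_contra hcR
    obtain ⟨K, _, w, h2, hw, hw1⟩ := exists_w
    rcases char_ne_one w hw hw1 hm hcR hgh with h' | h'
    · exact h' (rho_comm w 1 1 1 g h)
    · exact h' (rho_comm 1 1 (red (-1)) 1 g h)
  have h2 : ∀ g : F, (∀ h ∈ S, QuotientGroup.mk' R g * QuotientGroup.mk' R h =
      QuotientGroup.mk' R h * QuotientGroup.mk' R g) → ∀ h ∈ Subgroup.closure S,
      QuotientGroup.mk' R g * QuotientGroup.mk' R h =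
      QuotientGroup.mk' R h * QuotientGroup.mk' R g := by
    intro g hg h hh
    induction hh using Subgroup.closure_induction with
    | mem x hx => exact hg x hx
    | one => rw [map_one, mul_one, one_mul]
    | mul x y _ _ hx hy => rw [map_mul, ← mul_assoc, hx, mul_assoc, hy, mul_assoc]
    | inv x _ hx =>
      rw [map_inv, eq_inv_mul_iff_mul_eq, ← mul_assoc, ← hx, mul_inv_cancel_right]
  refine no_comm_U hr i (U := Subgroup.closure S) ?_ hc hs hi
  intro g hg h hh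
  rw [mk_comm]
  refine h2 g ?_ h hh
  intro x hx
  exact (h2 x (fun y hy => h1 x hx y hy) g hg).symm

end RG58
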