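import Pool.Agent.Lib.RG58.Ext

/-! Counting crossed homomorphisms on a subgroup with few generators (helper58). -/

set_option autoImplicit false

namespace RG58

open FreeGroup (of)

section dual

variable {K : Type*} [Field K]

theorem IsFn.sum {χ : F →* Kˣ} {φ : Fin 3 → F → K} (h : ∀ j, IsFn χ (φ j)) (c : Fin 3 → K) :
    IsFn χ (fun g => ∑ j, φ j g * c j) := by
  constructor
  · intro r hr s hs
    rw [← Finset.sum_add_distrib]
    refine Finset.sum_congr rfl fun j _ => ?_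
    rw [(h j).add r hr s hs, add_mul]
  · intro g r hr
    rw [Finset.mul_sum]
    refine Finset.sum_congr rfl fun j _ => ?_
    rw [(h j).eqv g r hr, mul_assoc]

/-- the dual functionals of the three relators -/
theorem dual (h6 : (6 : K) = 0) {χ : F →* Kˣ} {φ : Fin 3 → F → K}
    (h : ∀ j, IsFn χ (φ j))
    (hind : ∀ v : Fin 3 → K, (∀ s ∈ stdRel, ∑ j, φ j s * v j = 0) → v = 0)
    {r : Fin 3 → F} (hr : Gen r) :
    ∃ ψ : Fin 3 → F → K, (∀ i, IsFn χ (ψ i)) ∧ ∀ i k, ψ i (r k) = if k = i then 1 else 0 := by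
  obtain ⟨M, hM⟩ : ∃ M : Matrix (Fin 3) (Fin 3) K, M = Matrix.of fun k j => φ j (r k) := ⟨_, rfl⟩
  have hdet : M.det ≠ 0 := by
    intro hdet
    obtain ⟨v, hv0, hv⟩ := Matrix.exists_mulVec_eq_zero_iff.2 hdet
    apply hv0
    have hs := IsFn.sum h v
    let N : Subgroup F :=
      { carrier := {g | g ∈ R ∧ ∑ j, φ j g * v j = 0}
        one_mem' := ⟨R.one_mem, hs.one⟩
        mul_mem' := by
          rintro a b ⟨ha, ha'⟩ ⟨hb, hb'⟩
          refine ⟨R.mul_mem ha hb, ?_⟩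
          rw [hs.add a ha b hb, ha', hb', add_zero]
        inv_mem' := by
          rintro a ⟨ha, ha'⟩
          refine ⟨R.inv_mem ha, ?_⟩
          rw [hs.inv ha, ha', neg_zero] }
    have hN : N.Normal := by
      constructor
      rintro a ⟨ha, ha'⟩ g
      refine ⟨(inferInstance : R.Normal).conj_mem a ha g, ?_⟩
      change ∑ j, φ j (g * a * g⁻¹) * v j = 0
      rw [hs.eqv g a ha, ha', mul_zero]
    have hle2 : Q6 ≤ N := by
      intro s hs'
      exact ⟨(hs.q6 h6 hs').1, (hs.q6 h6 hs').2⟩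
    have hle1 : Subgroup.normalClosure (Set.range r ∪ {a | ∃ b ∈ R, a = b ^ 6} ∪
        {a | ∃ b ∈ R, ∃ c ∈ R, a = b * c * b⁻¹ * c⁻¹}) ≤ N := by
      apply Subgroup.normalClosure_le_normal
      rintro a ((⟨k, rfl⟩ | ha) | ha)
      · refine ⟨hr.mem k, ?_⟩
        have h1 := congrFun hv k
        rw [hM] at h1
        simpa [Matrix.mulVec, dotProduct] using h1
      · exact hle2 (Subgroup.subset_closure (Or.inl ha))
      · exact hle2 (Subgroup.subset_closure (Or.inr ha))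
    have hle : R ≤ N := hr.le.trans hle1
    apply hind
    intro s hs
    exact (hle (Subgroup.subset_normalClosure hs)).2
  have hinv : M * M⁻¹ = 1 := Matrix.mul_nonsing_inv M (isUnit_iff_ne_zero.2 hdet)
  refine ⟨fun i g => ∑ j, φ j g * M⁻¹ j i, fun i => IsFn.sum h fun j => M⁻¹ j i, ?_⟩
  intro i k
  have h1 := congrFun (congrFun hinv k) i
  rw [Matrix.mul_apply, Matrix.one_apply] at h1
  rw [← h1]
  refine Finset.sum_congr rfl fun j _ => ?_
  rw [hM]
  rfl

end dual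

section count

variable {K : Type*} [Field K] {χ : F →* Kˣ} {U : Subgroup F} {n : ℕ} {u : Fin n → F}
  (hU : U = Subgroup.closure (Set.range u)) {ψ : Fin n → F → K} {p : Fin n → F}
  (hpR : ∀ i, p i ∈ R) (hpU : ∀ i, p i ∈ U) (hne : ∀ i, ψ i (p i) ≠ 0)
  (h0 : ∀ i j, i ≠ j → ψ i (p j) = 0)

include hU hpR hpU hne h0

/-- **first count** -/
theorem count (hext : ∀ i, Ext χ U (ψ i))
    (hz : ∃ δ : F → K, Der χ U δ ∧ (∀ r ∈ R, r ∈ U → δ r = 0) ∧ ∃ v ∈ U, δ v ≠ 0) : False := by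
  choose δ hδ hδ' using hext
  obtain ⟨δ0, hδ0, hδ0', v, hv, hv0⟩ := hz
  let A : ((Fin n → K) × K) →ₗ[K] (Fin n → K) :=
    { toFun := fun x l => ∑ i, x.1 i * δ i (u l) + x.2 * δ0 (u l)
      map_add' := by
        intro x y
        funext l
        simp only [Prod.fst_add, Prod.snd_add, Pi.add_apply, add_mul, Finset.sum_add_distrib]
        ring
      map_smul' := by
        intro a x
        funext l
        simp only [Prod.smul_fst, Prod.smul_snd, Pi.smul_apply, smul_eq_mul, mul_add,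
          Finset.mul_sum, mul_assoc, RingHom.id_apply] }
  have hA : LinearMap.ker A ≠ ⊥ := by
    apply LinearMap.ker_ne_bot_of_finrank_lt
    rw [Module.finrank_prod, Module.finrank_fin_fun, Module.finrank_self]
    exact Nat.lt_succ_self n
  obtain ⟨x, hx, hx0⟩ := Submodule.exists_mem_ne_zero_of_ne_bot hA
  have hD : Der χ U (fun g => ∑ i, x.1 i * δ i g + x.2 * δ0 g) :=
    (Der.sum _ fun i => (hδ i).smul (x.1 i)).add (hδ0.smul x.2)
  have hD0 : ∀ g ∈ U, ∑ i, x.1 i * δ i g + x.2 * δ0 g = 0 := by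
    intro g hg
    exact hD.zero hU (fun l => congrFun (LinearMap.mem_ker.1 hx) l) hg
  have hc : ∀ j, x.1 j = 0 := by
    intro j
    have h1 := hD0 (p j) (hpU j)
    rw [hδ0' _ (hpR j) (hpU j), mul_zero, add_zero, Finset.sum_eq_single j] at h1
    · rw [hδ' j _ (hpR j) (hpU j)] at h1
      exact (mul_eq_zero.1 h1).resolve_right (hne j)
    · intro i _ hij
      rw [hδ' i _ (hpR j) (hpU j), h0 i j hij, mul_zero]
    · intro h
      exact absurd (Finset.mem_univ _) h
  have hc0 : x.2 = 0 := by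
    have h1 := hD0 v hv
    rw [Finset.sum_eq_zero (fun i _ => by rw [hc i, zero_mul]), zero_add] at h1
    exact (mul_eq_zero.1 h1).resolve_right hv0
  exact hx0 (Prod.ext (funext hc) hc0)

end count

section gysin

variable {K : Type*} [Field K] {χ : F →* Kˣ} {U : Subgroup F}

/-- transversal -/
def T2 (τ : F) : Multiplicative (ZMod 2) → F := fun i => if i = 1 then 1 else τ

theorem two_cases (m : Multiplicative (ZMod 2)) : m = 1 ∨ m = Multiplicative.ofAdd 1 := by
  revert m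
  decide

theorem cor_two (τ : F) (δ : F → K) (g : F) : cor χ Ez2 (T2 τ) δ g =
    δ (g * (T2 τ (Ez2 g))⁻¹) +
      (((χ τ)⁻¹ : Kˣ) : K) * δ (τ * g * (T2 τ (Multiplicative.ofAdd 1 * Ez2 g))⁻¹) := by
  have h1 : (Finset.univ : Finset (Multiplicative (ZMod 2))) = {1, Multiplicative.ofAdd 1} := by
    decide
  have h2 : (1 : Multiplicative (ZMod 2)) ≠ Multiplicative.ofAdd 1 := by decide
  have h3 : T2 τ 1 = 1 := if_pos rfl
  have h4 : T2 τ (Multiplicative.ofAdd 1) = τ := if_neg h2.symm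
  rw [cor, h1, Finset.sum_pair h2, h3, h4, map_one, inv_one, Units.val_one, one_mul, one_mul,
    one_mul]

theorem cor_two_even {τ : F} {δ : F → K} {g : F} (hg : Ez2 g = 1) : cor χ Ez2 (T2 τ) δ g =
    δ g + (((χ τ)⁻¹ : Kˣ) : K) * δ (τ * g * τ⁻¹) := by
  have h3 : T2 τ 1 = 1 := if_pos rfl
  have h4 : T2 τ (Multiplicative.ofAdd 1) = τ := if_neg (by decide)
  rw [cor_two, hg, mul_one, h3, h4, inv_one, mul_one]

theorem cor_two_odd {τ : F} {δ : F → K} {g : F} (hg : Ez2 g = Multiplicative.ofAdd 1) :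
    cor χ Ez2 (T2 τ) δ g = δ (g * τ⁻¹) + (((χ τ)⁻¹ : Kˣ) : K) * δ (τ * g) := by
  have h3 : T2 τ 1 = 1 := if_pos rfl
  have h4 : T2 τ (Multiplicative.ofAdd 1) = τ := if_neg (by decide)
  have h5 : (Multiplicative.ofAdd 1 * Multiplicative.ofAdd 1 : Multiplicative (ZMod 2)) = 1 := by
    decide
  rw [cor_two, hg, h5, h3, h4, inv_one, mul_one]

theorem cor_lin {I : Type*} [Group I] [Fintype I] (ε : F →* I) (T : I → F) {n : ℕ}
    (c : Fin n → K) (δ : Fin n → F → K) (g : F) :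
    cor χ ε T (fun g => ∑ i, c i * δ i g) g = ∑ i, c i * cor χ ε T (δ i) g := by
  simp only [cor, Finset.mul_sum]
  rw [Finset.sum_comm]
  exact Finset.sum_congr rfl fun i _ => Finset.sum_congr rfl fun j _ => by ring

/-- gluing -/
theorem glue (h2 : (2 : K) = 0) {τ : F} (hτ : τ ∈ U) (hτ1 : Ez2 τ = Multiplicative.ofAdd 1)
    {δ : F → K} (hδ : Der χ (U ⊓ Ez2.ker) δ) {c : K}
    (hc : ∀ g ∈ U, cor χ Ez2 (T2 τ) δ g = c * ((χ g : K) - 1)) :
    Der χ U (fun g => if Ez2 g = 1 then δ g else δ (g * τ⁻¹) + c * χ g) := by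
  have hne : (Multiplicative.ofAdd 1 : Multiplicative (ZMod 2)) ≠ 1 := by decide
  have h11 : (Multiplicative.ofAdd 1 * Multiplicative.ofAdd 1 : Multiplicative (ZMod 2)) = 1 := by
    decide
  have hinv : (Multiplicative.ofAdd 1 * (Multiplicative.ofAdd 1)⁻¹ : Multiplicative (ZMod 2)) = 1 :=
    mul_inv_cancel _
  have hu : (χ τ : K) * (((χ τ)⁻¹ : Kˣ) : K) = 1 := Units.mul_inv _
  have hA : ∀ k ∈ U, Ez2 k = 1 → δ (τ * k * τ⁻¹) = χ τ * (c * ((χ k : K) - 1) - δ k) := by
    intro k hk hk1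
    have h := hc k hk
    rw [cor_two_even hk1] at h
    linear_combination (- δ (τ * k * τ⁻¹)) * hu + (χ τ : K) * h
  have hB : ∀ k ∈ U, Ez2 k = Multiplicative.ofAdd 1 →
      δ (τ * k) = χ τ * (c * ((χ k : K) - 1) - δ (k * τ⁻¹)) := by
    intro k hk hk1
    have h := hc k hk
    rw [cor_two_odd hk1] at h
    linear_combination (- δ (τ * k)) * hu + (χ τ : K) * h
  intro g hg k hk
  simp only
  rcases two_cases (Ez2 g) with hg1 | hg1 <;> rcases two_cases (Ez2 k) with hk1 | hk1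
  · rw [if_pos hg1, if_pos hk1, if_pos (by rw [map_mul, hg1, hk1, one_mul])]
    exact hδ g ⟨hg, hg1⟩ k ⟨hk, hk1⟩
  · have n1 : ¬ Ez2 k = 1 := by rw [hk1]; exact hne
    have n2 : ¬ Ez2 (g * k) = 1 := by rw [map_mul, hg1, hk1, one_mul]; exact hne
    rw [if_pos hg1, if_neg n1, if_neg n2]
    have hm : k * τ⁻¹ ∈ U ⊓ Ez2.ker := by
      refine ⟨U.mul_mem hk (U.inv_mem hτ), ?_⟩
      change Ez2 (k * τ⁻¹) = 1
      rw [map_mul, map_inv, hk1, hτ1, hinv]
    have e1 : g * k * τ⁻¹ = g * (k * τ⁻¹) := by group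
    rw [e1, hδ g ⟨hg, hg1⟩ _ hm, map_mul, Units.val_mul]
    ring
  · have n1 : ¬ Ez2 g = 1 := by rw [hg1]; exact hne
    have n2 : ¬ Ez2 (g * k) = 1 := by rw [map_mul, hg1, hk1, mul_one]; exact hne
    rw [if_pos hk1, if_neg n1, if_neg n2]
    have hm : g * τ⁻¹ ∈ U ⊓ Ez2.ker := by
      refine ⟨U.mul_mem hg (U.inv_mem hτ), ?_⟩
      change Ez2 (g * τ⁻¹) = 1
      rw [map_mul, map_inv, hg1, hτ1, hinv]
    have hm2 : τ * k * τ⁻¹ ∈ U ⊓ Ez2.ker := by
      refine ⟨U.mul_mem (U.mul_mem hτ hk) (U.inv_mem hτ), ?_⟩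
      change Ez2 (τ * k * τ⁻¹) = 1
      rw [map_mul, map_mul, map_inv, hk1, mul_one, mul_inv_cancel]
    have e1 : g * k * τ⁻¹ = (g * τ⁻¹) * (τ * k * τ⁻¹) := by group
    have e2 : (χ (g * τ⁻¹) : K) * χ τ = χ g := by
      rw [← Units.val_mul, ← map_mul, inv_mul_cancel_right]
    rw [e1, hδ _ hm _ hm2, hA k hk hk1, map_mul χ g k, Units.val_mul]
    linear_combination (c * ((χ k : K) - 1) - δ k) * e2 + (χ g : K) * (c * χ k - c - δ k) * h2
  · have n1 : ¬ Ez2 g = 1 := by rw [hg1]; exact hne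
    have n3 : ¬ Ez2 k = 1 := by rw [hk1]; exact hne
    have n2 : Ez2 (g * k) = 1 := by rw [map_mul, hg1, hk1, h11]
    rw [if_neg n1, if_neg n3, if_pos n2]
    have hm : g * τ⁻¹ ∈ U ⊓ Ez2.ker := by
      refine ⟨U.mul_mem hg (U.inv_mem hτ), ?_⟩
      change Ez2 (g * τ⁻¹) = 1
      rw [map_mul, map_inv, hg1, hτ1, hinv]
    have hm2 : τ * k ∈ U ⊓ Ez2.ker := by
      refine ⟨U.mul_mem hτ hk, ?_⟩
      change Ez2 (τ * k) = 1
      rw [map_mul, hτ1, hk1, h11]
    have e1 : g * k = (g * τ⁻¹) * (τ * k) := by group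
    have e2 : (χ (g * τ⁻¹) : K) * χ τ = χ g := by
      rw [← Units.val_mul, ← map_mul, inv_mul_cancel_right]
    rw [e1, hδ _ hm _ hm2, hB k hk hk1]
    linear_combination (c * ((χ k : K) - 1) - δ (k * τ⁻¹)) * e2 -
      (χ g : K) * (c + δ (k * τ⁻¹)) * h2

variable {n : ℕ} {u : Fin n → F}
  (hU : U = Subgroup.closure (Set.range u)) {ψ : Fin n → F → K} {p : Fin n → F}
  (hpR : ∀ i, p i ∈ R) (hpU : ∀ i, p i ∈ U) (hne : ∀ i, ψ i (p i) ≠ 0)
  (h0 : ∀ i j, i ≠ j → ψ i (p j) = 0)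

include hU hpR hpU hne h0

/-- **second count** -/
theorem count2 (h2 : (2 : K) = 0) {τ : F} (hτ : τ ∈ U) (hτ1 : Ez2 τ = Multiplicative.ofAdd 1)
    (hχR : ∀ r ∈ R, χ r = 1) (hχ : ∃ v ∈ U, χ v ≠ 1) (hψ : ∀ i, IsFn χ (ψ i))
    (hext : ∀ i, Ext χ (U ⊓ Ez2.ker) (ψ i)) : False := by
  choose δ hδ hδ' using hext
  obtain ⟨v, hv, hv0⟩ := hχ
  have hTU : ∀ i, T2 τ i ∈ U := by
    intro i
    rw [T2]
    split_ifs
    · exact U.one_mem
    · exact hτ
  have hT : ∀ i, Ez2 (T2 τ i) = i := by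
    intro i
    rcases two_cases i with rfl | rfl
    · rw [T2, if_pos rfl, map_one]
    · rw [T2, if_neg (by decide), hτ1]
  have hD : ∀ i, Der χ U (cor χ Ez2 (T2 τ) (δ i)) := fun i => cor_der Ez2 hTU hT (hδ i)
  have hDR : ∀ i, ∀ r ∈ R, r ∈ U → cor χ Ez2 (T2 τ) (δ i) r = 0 := by
    intro i r hr hrU
    rw [cor_R Ez2 hTU (hψ i) (hδ' i) hr hrU (Ez2_R hr)]
    have : ((Fintype.card (Multiplicative (ZMod 2)) : ℕ) : K) = 0 := by
      rw [Fintype.card_multiplicative, ZMod.card]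
      exact_mod_cast h2
    rw [this, zero_mul]
  let E0 : Submodule K (Fin n → K) :=
    { carrier := {v | ∃ ε : F → K, Der χ U ε ∧ (∀ r ∈ R, r ∈ U → ε r = 0) ∧ ∀ l, ε (u l) = v l}
      add_mem' := by
        rintro a b ⟨ε, h1, h3, h4⟩ ⟨ε', h1', h3', h4'⟩
        refine ⟨fun g => ε g + ε' g, h1.add h1', ?_, ?_⟩
        · intro r hr hrU
          simp only
          rw [h3 r hr hrU, h3' r hr hrU, add_zero]
        · intro l
          simp only
          rw [h4, h4']
          rfl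
      zero_mem' := by
        refine ⟨fun g => 0, ?_, fun _ _ _ => rfl, fun _ => rfl⟩
        intro g _ k _
        simp
      smul_mem' := by
        rintro a b ⟨ε, h1, h3, h4⟩
        refine ⟨fun g => a * ε g, h1.smul a, ?_, ?_⟩
        · intro r hr hrU
          simp only
          rw [h3 r hr hrU, mul_zero]
        · intro l
          simp only
          rw [h4]
          rfl }
  have hDer : ∀ x : (Fin n → K) × K, Der χ U (fun g => ∑ i, x.1 i * cor χ Ez2 (T2 τ) (δ i) g +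
      (- x.2) * ((χ g : K) - 1)) := fun x =>
    (Der.sum _ fun i => (hD i).smul (x.1 i)).add ((prin χ U).smul (- x.2))
  have hmem : ∀ x : (Fin n → K) × K, (fun l => ∑ i, x.1 i * cor χ Ez2 (T2 τ) (δ i) (u l) +
      (- x.2) * ((χ (u l) : K) - 1)) ∈ E0 := by
    intro x
    refine ⟨_, hDer x, ?_, fun l => rfl⟩
    intro r hr hrU
    rw [hχR r hr, Units.val_one, sub_self, mul_zero, add_zero]
    exact Finset.sum_eq_zero fun i _ => by rw [hDR i r hr hrU, mul_zero]
  let A : (((Fin n → K) × K) × E0) →ₗ[K] (Fin n → K) × E0 :=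
    { toFun := fun x => (fun l => ∑ i, x.1.1 i *
          (if Ez2 (u l) = 1 then δ i (u l) else δ i (u l * τ⁻¹)) +
          x.1.2 * (if Ez2 (u l) = 1 then 0 else (χ (u l) : K)) + (x.2 : Fin n → K) l,
        ⟨fun l => ∑ i, x.1.1 i * cor χ Ez2 (T2 τ) (δ i) (u l) +
          (- x.1.2) * ((χ (u l) : K) - 1), hmem x.1⟩)
      map_add' := by
        intro x y
        ext l
        · simp only [Prod.fst_add, Prod.snd_add, Pi.add_apply, add_mul, Finset.sum_add_distrib,
            Submodule.coe_add]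
          ring
        · simp only [Prod.fst_add, Prod.snd_add, Pi.add_apply, add_mul, Finset.sum_add_distrib,
            Submodule.coe_add]
          ring
      map_smul' := by
        intro a x
        ext l
        · simp only [Prod.smul_fst, Prod.smul_snd, Pi.smul_apply, smul_eq_mul, mul_add,
            Finset.mul_sum, mul_assoc, RingHom.id_apply, Submodule.coe_smul]
        · simp only [Prod.smul_fst, Prod.smul_snd, Pi.smul_apply, smul_eq_mul, mul_add,
            Finset.mul_sum, mul_assoc, RingHom.id_apply, Submodule.coe_smul]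
          ring }
  have hA : LinearMap.ker A ≠ ⊥ := by
    apply LinearMap.ker_ne_bot_of_finrank_lt
    rw [Module.finrank_prod, Module.finrank_prod, Module.finrank_prod, Module.finrank_fin_fun,
      Module.finrank_self]
    omega
  obtain ⟨x, hx, hx0⟩ := Submodule.exists_mem_ne_zero_of_ne_bot hA
  have hx1 := congrArg Prod.fst (LinearMap.mem_ker.1 hx)
  have hx2 := congrArg Subtype.val (congrArg Prod.snd (LinearMap.mem_ker.1 hx))
  have hc : ∀ g ∈ U, ∑ i, x.1.1 i * cor χ Ez2 (T2 τ) (δ i) g = x.1.2 * ((χ g : K) - 1) := by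
    intro g hg
    have h3 := (hDer x.1).zero hU (fun l => congrFun hx2 l) hg
    linear_combination h3
  have hG := glue (c := x.1.2) h2 hτ hτ1
    (Der.sum Finset.univ fun i => (hδ i).smul (x.1.1 i)) (by
      intro g hg
      rw [cor_lin]
      exact hc g hg)
  obtain ⟨ε, hε, hεR, hεu⟩ := x.2.2
  have hZ : ∀ g ∈ U, (if Ez2 g = 1 then ∑ i, x.1.1 i * δ i g else
      ∑ i, x.1.1 i * δ i (g * τ⁻¹) + x.1.2 * χ g) + ε g = 0 := by
    intro g hg
    refine (hG.add hε).zero hU ?_ hg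
    intro l
    rw [hεu]
    have h3 := congrFun hx1 l
    change ∑ i, x.1.1 i * (if Ez2 (u l) = 1 then δ i (u l) else δ i (u l * τ⁻¹)) +
          x.1.2 * (if Ez2 (u l) = 1 then 0 else (χ (u l) : K)) + (x.2 : Fin n → K) l = 0 at h3
    by_cases h4 : Ez2 (u l) = 1
    · simp only [if_pos h4, mul_zero, add_zero] at h3 ⊢
      exact h3
    · simp only [if_neg h4] at h3 ⊢
      exact h3
  have hc1 : ∀ j, x.1.1 j = 0 := by
    intro j
    have h1 := hZ (p j) (hpU j)
    have hpk : p j ∈ U ⊓ Ez2.ker := ⟨hpU j, Ez2_R (hpR j)⟩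
    rw [if_pos (Ez2_R (hpR j)), hεR _ (hpR j) (hpU j), add_zero, Finset.sum_eq_single j] at h1
    · rw [hδ' j _ (hpR j) hpk] at h1
      exact (mul_eq_zero.1 h1).resolve_right (hne j)
    · intro i _ hij
      rw [hδ' i _ (hpR j) hpk, h0 i j hij, mul_zero]
    · intro h
      exact absurd (Finset.mem_univ _) h
  have hc2 : x.1.2 = 0 := by
    have h1 := hc v hv
    rw [Finset.sum_eq_zero (fun i _ => by rw [hc1 i, zero_mul])] at h1
    refine (mul_eq_zero.1 h1.symm).resolve_right ?_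
    intro h3
    exact hv0 (Units.ext (sub_eq_zero.1 h3))
  have hc3 : x.2 = 0 := by
    apply Subtype.ext
    funext l
    have h3 := congrFun hx1 l
    change ∑ i, x.1.1 i * (if Ez2 (u l) = 1 then δ i (u l) else δ i (u l * τ⁻¹)) +
          x.1.2 * (if Ez2 (u l) = 1 then 0 else (χ (u l) : K)) + (x.2 : Fin n → K) l = 0 at h3
    rw [Finset.sum_eq_zero (fun i _ => by rw [hc1 i, zero_mul]), hc2, zero_mul, add_zero,
      zero_add] at h3
    exact h3
  exact hx0 (Prod.ext (Prod.ext (funext hc1) hc2) hc3)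

end gysin

end RG58
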