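import Pool.Agent.Lib.RG58.CuMain

/-! Products of two squares or of two cubes are not relators of a presentation with three
relators, conclusion (helper58). -/

set_option autoImplicit false

namespace RG58

open FreeGroup (of)
open Monoid

/-- the exponent sum of `x` modulo three -/
def Ex3 : F →* Multiplicative (ZMod 3) := rho (Multiplicative.ofAdd 1) 1 1 1

/-- embedding of the additive group -/
def emb3 : Multiplicative (ZMod 3) →* TH (ZMod 3) where
  toFun m := ⟨1, Multiplicative.toAdd m, 0, 0⟩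
  map_one' := rfl
  map_mul' m n := by
    ext
    · simp [TH.mul_u]
    · simp only [toAdd_mul, TH.mul_p, Units.val_one]; ring
    · simp [TH.mul_s]
    · simp [TH.mul_q]

theorem rhoD_p (g : F) : (((rhoD 1 g).p : ℤ) : ZMod 3) = Multiplicative.toAdd (Ex3 g) := by
  have : (TH.mp (Int.castRingHom (ZMod 3))).comp (TH.pr.comp (rhoD 1)) = emb3.comp Ex3 := by
    apply rho_ext
    · simp only [MonoidHom.comp_apply, rhoD, Ex3, rho0]
      simp [TH.mp, TH.pr, emb3]
    · simp only [MonoidHom.comp_apply, rhoD, Ex3, rho1, map_one]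
    · simp only [MonoidHom.comp_apply, rhoD, Ex3, rho2, map_one]
      have e : (⟨1, 0, 0, 0⟩ : TH ℤ) = 1 := rfl
      rw [e, map_one, map_one]
    · simp only [MonoidHom.comp_apply, rhoD, Ex3, rho3, map_one]
  exact congrArg TH.p (DFunLike.congr_fun this g)

/-- cubes of unipotent matrices in characteristic three -/
theorem cu_three {a b : TH (ZMod 3)} (ha : a.u = 1) (hb : b.u = 1) :
    (a * a * a * (b * b * b)).q = 0 := by
  have h3 : (3 : ZMod 3) = 0 := by decide
  simp only [TH.mul_u, TH.mul_p, TH.mul_s, TH.mul_q, Units.val_mul, ha, hb, Units.val_one]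
  linear_combination (a.q + a.p * a.s + b.q + b.p * b.s + 3 * a.p * b.s) * h3

/-- **the exponent sum of `x` in `a b` is prime to three** -/
theorem cu_x {r : Fin 3 → F} (hr : Gen r) (i : Fin 3) {a b s : F} (hs : s ∈ Q6)
    (hi : r i = a * a * a * (b * b * b) * s) : Ex3 a * Ex3 b ≠ 1 := by
  intro hab
  have hR : a * a * a * (b * b * b) ∈ R := by
    have := hr.mem i
    rw [hi] at this
    exact (R.mul_mem_cancel_right (Q6_le hs)).1 this
  rcases triple3 hr i with h | h | h
  · apply h
    have hfn := fD_fn 1 (one_pow 2)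
    have m : ∀ f : F, (rhoD 1 f).u = 1 :=
      rho_mem (TH.uni ℤ) rfl (Subgroup.one_mem _) rfl (Subgroup.one_mem _)
    have hp : (rhoD 1 (a * a * a * (b * b * b))).p = 3 * ((rhoD 1 a).p + (rhoD 1 b).p) := by
      simp only [map_mul, TH.mul_p, TH.mul_u, m, Units.val_mul, Units.val_one]
      ring
    have hval : fD 1 (a * a * a * (b * b * b)) = 0 := by
      rw [fD, hp, Int.mul_ediv_cancel_left _ (by norm_num), Int.cast_add, rhoD_p, rhoD_p,
        ← toAdd_mul, hab, toAdd_one]
    rw [hi, hfn.add _ hR _ (Q6_le hs), (hfn.q6 (by decide) hs).2, add_zero]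
    exact hval
  · apply h
    have hfn := fz3.1
    have m : ∀ f : F, rho (1 : TH (ZMod 3)) 1 ⟨1, 0, 0, 1⟩ 1 f ∈ TH.uni (ZMod 3) :=
      rho_mem _ (Subgroup.one_mem _) (Subgroup.one_mem _) rfl (Subgroup.one_mem _)
    have hval : (rho (1 : TH (ZMod 3)) 1 ⟨1, 0, 0, 1⟩ 1 (a * a * a * (b * b * b))).q = 0 := by
      rw [map_mul, map_mul, map_mul, map_mul, map_mul]
      exact cu_three (m a) (m b)
    rw [hi]
    refine (hfn.add _ hR _ (Q6_le hs)).trans ?_
    rw [(hfn.q6 (by decide) hs).2, add_zero]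
    exact hval
  · apply h
    have hfn := (fxy (1 : (ZMod 3)ˣ) (one_pow 2)).1
    have m : ∀ f : F, rxy f ∈ TH.uni (ZMod 3) :=
      rho_mem _ rfl rfl rfl (Subgroup.one_mem _)
    have hval : (rxy (a * a * a * (b * b * b))).q = 0 := by
      rw [map_mul, map_mul, map_mul, map_mul, map_mul]
      exact cu_three (m a) (m b)
    rw [hi]
    refine (hfn.add _ hR _ (Q6_le hs)).trans ?_
    rw [(hfn.q6 (by decide) hs).2, add_zero]
    exact hval

theorem mul_three {m : Multiplicative (ZMod 3)} : m ^ 3 = 1 := by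
  revert m
  decide

/-- an element outside `R` with cube in `R` is seen by the first character -/
theorem chi_of_cube {K : Type*} [Field K] (w : Kˣ) (hw : w ^ 3 = 1) (hw1 : w ≠ 1) {g : F}
    (hg : g ∉ R) (hg3 : g ^ 3 ∈ R) : rho w 1 1 1 g ≠ 1 := by
  rcases char_ne_one w hw hw1 (n := 3) (by norm_num) hg hg3 with h | h
  · exact h
  · exfalso
    apply h
    have h4 : rho 1 1 (red (-1)) 1 (g ^ 3) = 1 := rho_R (one_pow 3) red_sq hg3
    have h5 : rho 1 1 (red (-1)) 1 g ^ 2 = 1 := by
      have h6 : ∀ g : F, rho 1 1 (red (-1)) 1 g ∈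
          (powMonoidHom 2 : (ZMod 3)ˣ →* (ZMod 3)ˣ).ker :=
        rho_mem _ (Subgroup.one_mem _) (Subgroup.one_mem _) red_sq (Subgroup.one_mem _)
      exact h6 g
    rw [map_pow] at h4
    rw [pow_succ, h5, one_mul] at h4
    exact h4

theorem Ex3_Th : (bk (Multiplicative.ofAdd (1 : ZMod 3)) 1 1 1 mul_three (one_pow 2)
    (Commute.one_right _) (Commute.one_right _)).comp Th = Ex3 :=
  bk_Th _ _ _ _ _ _ _ _

theorem Ey_Th : (bk (1 : Multiplicative ℤ) (Multiplicative.ofAdd 1) 1 1 (one_pow 3) (one_pow 2)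
    (Commute.one_left _) (Commute.one_left _)).comp Th = Ey :=
  bk_Th _ _ _ _ _ _ _ _

/-- **products of two cubes** -/
theorem no_cu {r : Fin 3 → F} (hr : Gen r) (i : Fin 3) {a b s : F} (hs : s ∈ Q6)
    (hi : r i = a * a * a * (b * b * b) * s) (ha : a ∉ R) (hb : b ∉ R) : False := by
  have hR : a * a * a * (b * b * b) ∈ R := by
    have := hr.mem i
    rw [hi] at this
    exact (R.mul_mem_cancel_right (Q6_le hs)).1 this
  have ta : Ey a = 1 := cu_y hr i hs hi
  have hx : Ex3 a * Ex3 b ≠ 1 := cu_x hr i hs hi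
  have hT : Th a ^ 3 * Th b ^ 3 = 1 := by
    have e : a ^ 3 * b ^ 3 = a * a * a * (b * b * b) := by
      rw [pow_succ, pow_two, pow_succ, pow_two]
    rw [← map_pow, ← map_pow, ← map_mul, e]
    exact Th_R hR
  by_cases h1 : Th a ^ 3 = 1
  · have h2 : Th b ^ 3 = 1 := by rw [h1, one_mul] at hT; exact hT
    have h3 : a ^ 3 ∈ R := Th_ker (by rw [map_pow]; exact h1)
    have h4 : b ^ 3 ∈ R := Th_ker (by rw [map_pow]; exact h2)
    obtain ⟨K, _, w, k2, hw, hw1⟩ := exists_w
    obtain ⟨φ, hφ, hφ'⟩ := triple2w hr i k2 w hw hw1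
    apply hφ'
    have e : r i = a ^ 3 * b ^ 3 * s := by
      rw [hi, pow_succ, pow_two, pow_succ, pow_two]
    obtain ⟨hs1, hs2⟩ := hφ.q6 (by linear_combination 3 * k2) hs
    rw [e, hφ.add _ (R.mul_mem h3 h4) _ hs1, hφ.add _ h3 _ h4, hs2,
      hφ.pow_zero (chi_of_cube w hw hw1 ha h3) h3, hφ.pow_zero (chi_of_cube w hw hw1 hb h4) h4]
    ring
  · have h2 : Th a ^ (2 + 1) = (Th b)⁻¹ ^ (2 + 1) := by
      rw [inv_pow]
      exact eq_inv_of_mul_eq_one_left hT
    rcases pow_root 2 (Th a) (Th b)⁻¹ h2 h1 with h3 | ⟨c, i, m, m', h3, h4⟩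
    · have h5 : a * b ∈ R := Th_ker (by rw [map_mul, h3, inv_mul_cancel])
      have h6 : Ex3 (a * b) = 1 := rho_R mul_three (one_pow 2) h5
      rw [map_mul] at h6
      exact hx h6
    · cases i with
      | true =>
        have e : ∀ g : F, ∀ m : MM true, Th g = c * CoprodI.of m * c⁻¹ → Ex3 g = 1 := by
          intro g m hg
          rw [← Ex3_Th, MonoidHom.comp_apply, hg, map_mul, map_mul, map_inv, mul_comm,
            inv_mul_cancel_left, bk_of]
          change (1 : Multiplicative (ZMod 3)) ^ (_ : ℕ) * (1 : Multiplicative (ZMod 3)) ^ (_ : ℤ) = 1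
          rw [one_pow, one_zpow, one_mul]
        have e1 := e a m h3
        have e2 := e b⁻¹ m' (by rw [map_inv]; exact h4)
        rw [map_inv, inv_eq_one] at e2
        apply hx
        rw [e1, e2, one_mul]
      | false =>
        obtain ⟨p, q⟩ := m
        have e : Ey a = q := by
          rw [← Ey_Th, MonoidHom.comp_apply, h3, map_mul, map_mul, map_inv, mul_comm,
            inv_mul_cancel_left, bk_of]
          change (1 : Multiplicative ℤ) ^ (_ : ℕ) *
            (Multiplicative.ofAdd (1 : ℤ)) ^ (Multiplicative.toAdd q) = q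
          rw [one_pow, one_mul]
          apply Multiplicative.toAdd.injective
          rw [toAdd_zpow, toAdd_ofAdd]
          simp
        rw [ta] at e
        subst e
        apply h1
        have h5 : ((p, 1) : MM false) ^ 3 = 1 := by
          ext1
          · exact mul_three
          · rfl
        rw [h3, conj_pow, ← map_pow, h5, map_one, mul_one, mul_inv_cancel]

/-- **the full statement** -/
theorem two_powers {r : Fin 3 → F} (hr : Gen r) (i : Fin 3) {p : ℕ} (hp : p = 2 ∨ p = 3)
    {a b s : F} (hs : s ∈ Q6) (hi : r i = a ^ p * b ^ p * s) :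
    (a ∈ R ∧ b ∉ R) ∨ (a ∉ R ∧ b ∈ R) := by
  by_cases ha : a ∈ R
  · by_cases hb : b ∈ R
    · exfalso
      rcases hp with rfl | rfl
      · have h2 : (2 : ZMod 2) = 0 := by decide
        have key0 : ∀ φ : F → ZMod 2, IsFn (rho 1 1 1 1) φ → φ (r i) = 0 := by
          intro φ hφ
          obtain ⟨hs1, hs2⟩ := hφ.q6 (by decide) hs
          rw [hi, hφ.add _ (R.mul_mem (R.pow_mem ha 2) (R.pow_mem hb 2)) _ hs1,
            hφ.add _ (R.pow_mem ha 2) _ (R.pow_mem hb 2), hs2, hφ.pow ha, hφ.pow hb]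
          push_cast
          rw [h2]
          ring
        rcases triple2 hr i with h | h | h
        · exact h (key0 _ fx2.1)
        · exact h (key0 _ (fz h2 (1 : (ZMod 2)ˣ) (one_pow 3)).1)
        · exact h (key0 _ (fzt h2 (1 : (ZMod 2)ˣ) (one_pow 3)).1)
      · have h3 : (3 : ZMod 3) = 0 := by decide
        have key0 : ∀ φ : F → ZMod 3, IsFn (rho 1 1 1 1) φ → φ (r i) = 0 := by
          intro φ hφ
          obtain ⟨hs1, hs2⟩ := hφ.q6 (by decide) hs
          rw [hi, hφ.add _ (R.mul_mem (R.pow_mem ha 3) (R.pow_mem hb 3)) _ hs1,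
            hφ.add _ (R.pow_mem ha 3) _ (R.pow_mem hb 3), hs2, hφ.pow ha, hφ.pow hb]
          push_cast
          rw [h3]
          ring
        have hD := fD_fn 1 (one_pow 2)
        rw [map_one] at hD
        rcases triple3 hr i with h | h | h
        · exact h (key0 _ hD)
        · exact h (key0 _ fz3.1)
        · exact h (key0 _ (fxy (1 : (ZMod 3)ˣ) (one_pow 2)).1)
    · exact Or.inl ⟨ha, hb⟩
  · by_cases hb : b ∈ R
    · exact Or.inr ⟨ha, hb⟩
    · exfalso
      rcases hp with rfl | rfl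
      · exact no_sq hr i hs (by rw [hi, pow_two, pow_two]) ha hb
      · exact no_cu hr i hs (by rw [hi, pow_succ, pow_two, pow_succ, pow_two]) ha hb

end RG58
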