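import Pool.Agent.Lib.RG58.Roots

/-! Roots in free products (helper58). -/

set_option autoImplicit false

namespace RG58

open Monoid

section general

variable {ι : Type*} {M : ι → Type*} [∀ i, Group (M i)]

/-- the shape of the reduced form of a power -/
def GoodN (n : ℕ) (l : List (Σ i, M i)) : Prop :=
  pl l ^ n = 1 ∨ ∃ u, Red u ∧ pl u = pl l ^ n ∧ l.length ≤ u.length ∧
    u.head?.map Sigma.fst = l.head?.map Sigma.fst ∧
    u.getLast?.map Sigma.fst = l.getLast?.map Sigma.fst

/-- powers of a list whose ends do not cancel -/
theorem pow_ends {x y : Σ i, M i} {l0 : List (Σ i, M i)} (hr : Red (x :: (l0 ++ [y])))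
    (hl0 : y.1 = x.1 → l0 ≠ []) (hxy : ∀ h : y.1 = x.1, (h ▸ y.2) * x.2 ≠ 1) (n : ℕ) :
    ∃ u', Red (x :: u') ∧ pl (x :: u') = pl (x :: (l0 ++ [y])) ^ (n + 1) ∧
      (x :: (l0 ++ [y])).length ≤ (x :: u').length ∧ (x :: u').getLast? = some y := by
  have hlasty : (x :: (l0 ++ [y])).getLast? = some y := by
    rw [← List.cons_append, List.getLast?_append]
    rfl
  induction n with
  | zero => exact ⟨l0 ++ [y], hr, by rw [zero_add, pow_one], le_refl _, hlasty⟩
  | succ n ih =>
    obtain ⟨u', h1, h2, h3, h4⟩ := ih
    have hu0 : u' ≠ [] := by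
      rintro rfl
      simp at h3
    by_cases h : y.1 = x.1
    · have hne := hxy h
      have hne0 := hl0 h
      obtain ⟨i, m⟩ := x
      obtain ⟨j, m'⟩ := y
      change j = i at h
      subst h
      change m' * m ≠ 1 at hne
      refine ⟨l0 ++ (⟨j, m' * m⟩ :: u'), ?_, ?_, ?_, ?_⟩
      · rw [← List.cons_append]
        apply Red.append
        · exact Red.left (l' := [⟨j, m'⟩]) hr
        · rw [Red.cons]
          exact ⟨hne, (Red.cons.1 h1).2.1, (Red.cons.1 h1).2.2⟩
        · intro a ha b hb
          have hb' : b = ⟨j, m' * m⟩ := by simpa using hb.symm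
          rw [hb']
          have ha' : a ∈ l0.getLast? := by
            rw [List.getLast?_cons_of_ne_nil hne0] at ha
            exact ha
          exact (Red.cons.1 hr).2.1.mid a ha' ⟨j, m'⟩ (by simp)
      · rw [pow_succ' _ (n + 1), ← h2, pl_cons, pl_cons, pl_cons, pl_append, pl_append, pl_cons,
          pl_cons, pl_nil, mul_one, map_mul]
        simp only [mul_assoc]
      · simp only [List.length_cons, List.length_append] at h3 ⊢
        omega
      · have e : (⟨j, m⟩ :: (l0 ++ (⟨j, m' * m⟩ :: u')) : List (Σ i, M i)) =
            (⟨j, m⟩ :: l0 ++ [⟨j, m' * m⟩]) ++ u' := by simp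
        rw [List.getLast?_cons_of_ne_nil hu0] at h4
        rw [e, List.getLast?_append, h4]
        rfl
    · refine ⟨(l0 ++ [y]) ++ (x :: u'), ?_, ?_, ?_, ?_⟩
      · rw [← List.cons_append]
        apply Red.append hr h1
        intro a ha b hb
        rw [hlasty] at ha
        have ha' : a = y := by simpa using ha.symm
        have hb' : b = x := by simpa using hb.symm
        rw [ha', hb']
        exact h
      · rw [← List.cons_append, pl_append, h2, pow_succ' _ (n + 1)]
      · simp only [List.length_cons, List.length_append] at h3 ⊢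
        omega
      · rw [← List.cons_append, List.getLast?_append, h4]
        rfl

theorem pow_good (n : ℕ) (N : ℕ) : ∀ l : List (Σ i, M i), l.length ≤ N → Red l → l ≠ [] →
    GoodN (n + 1) l := by
  induction N using Nat.strong_induction_on with
  | _ N ih =>
  intro l hl hr h0
  cases l with
  | nil => exact absurd rfl h0
  | cons x l' =>
    rcases List.eq_nil_or_concat l' with rfl | ⟨l0, y, rfl⟩
    · by_cases hx : x.2 ^ (n + 1) = 1
      · left
        rw [pl_cons, pl_nil, mul_one, ← map_pow, hx, map_one]
      · right
        refine ⟨[⟨x.1, x.2 ^ (n + 1)⟩], Red.single hx, ?_, le_refl _, rfl, rfl⟩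
        rw [pl_cons, pl_cons, pl_nil, mul_one, mul_one, map_pow]
    · rw [List.concat_eq_append] at hr hl h0 ⊢
      have hlasty : (x :: (l0 ++ [y])).getLast? = some y := by
        rw [← List.cons_append, List.getLast?_append]
        rfl
      by_cases hc : ∀ h : y.1 = x.1, (h ▸ y.2) * x.2 ≠ 1
      · right
        obtain ⟨u', h1, h2, h3, h4⟩ := pow_ends hr (by
          rintro h rfl
          exact (Red.cons.1 hr).2.2 y (by simp) h.symm) hc n
        refine ⟨x :: u', h1, h2, h3, rfl, ?_⟩
        rw [h4, hlasty]
      · push Not at hc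
        obtain ⟨hxy, hm⟩ := hc
        obtain ⟨i, m⟩ := x
        obtain ⟨j, m'⟩ := y
        change j = i at hxy
        subst hxy
        change m' * m = 1 at hm
        have hr' : Red l0 := (Red.cons.1 hr).2.1.left
        have hx1 : m ≠ 1 := (Red.cons.1 hr).1
        have hy1 : m' ≠ 1 := hr.1 ⟨j, m'⟩ (by simp)
        have hl0 : l0 ≠ [] := by
          rintro rfl
          have := (Red.cons.1 hr).2.2 ⟨j, m'⟩ (by simp)
          exact this rfl
        have hlast : ∀ a ∈ l0.getLast?, a.1 ≠ j := by
          intro a ha
          exact (Red.cons.1 hr).2.1.mid a ha ⟨j, m'⟩ (by simp)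
        have hhead : ∀ a ∈ l0.head?, j ≠ a.1 := by
          intro a ha
          apply (Red.cons.1 hr).2.2
          rw [List.head?_append_of_ne_nil _ hl0]
          exact ha
        have hof : (CoprodI.of m' : CoprodI M) = (CoprodI.of m)⁻¹ := by
          rw [← map_inv, eq_inv_of_mul_eq_one_left hm]
        have hsq : pl (⟨j, m⟩ :: (l0 ++ [⟨j, m'⟩])) ^ (n + 1) =
            CoprodI.of m * (pl l0) ^ (n + 1) * CoprodI.of m' := by
          rw [pl_cons, pl_append, pl_cons, pl_nil, mul_one, ← mul_assoc]
          change (CoprodI.of m * pl l0 * CoprodI.of m') ^ (n + 1) = _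
          rw [hof, conj_pow]
        rcases ih (N - 1) (by simp at hl; omega) l0 (by simp at hl; omega) hr' hl0 with h | h
        · left
          rw [hsq, h, mul_one, hof, mul_inv_cancel]
        · obtain ⟨u, h1, h2, h3, h4, h5⟩ := h
          right
          have hu : u ≠ [] := by
            rintro rfl
            have := List.length_pos_iff.2 hl0
            simp at h3
            exact hl0 h3
          refine ⟨⟨j, m⟩ :: (u ++ [⟨j, m'⟩]), ?_, ?_, ?_, rfl, ?_⟩
          · rw [Red.cons]
            refine ⟨hx1, h1.append (Red.single hy1) ?_, ?_⟩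
            · intro a ha b hb
              have hb' : b = ⟨j, m'⟩ := by simpa using hb.symm
              rw [hb']
              have : a.1 ∈ u.getLast?.map Sigma.fst := by
                rw [Option.mem_def.1 ha]; rfl
              rw [h5, Option.mem_def, Option.map_eq_some_iff] at this
              obtain ⟨c, hc, hc'⟩ := this
              rw [← hc']
              exact hlast c hc
            · intro b hb
              rw [List.head?_append_of_ne_nil _ hu] at hb
              have : b.1 ∈ u.head?.map Sigma.fst := by
                rw [Option.mem_def.1 hb]; rfl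
              rw [h4, Option.mem_def, Option.map_eq_some_iff] at this
              obtain ⟨c, hc, hc'⟩ := this
              rw [← hc']
              exact hhead c hc
          · rw [hsq, pl_cons, pl_append, pl_cons, pl_nil, mul_one, h2]
            simp only [mul_assoc]
          · simp
            exact h3
          · rw [← List.cons_append, ← List.cons_append, List.getLast?_append,
              List.getLast?_append]
            rfl

/-- repeated lists -/
theorem rep_red {l : List (Σ i, M i)} (hr : Red l) (h0 : l ≠ [])
    (he : ∀ a ∈ l.getLast?, ∀ b ∈ l.head?, a.1 ≠ b.1) (n : ℕ) :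
    Red (List.replicate (n + 1) l).flatten ∧
    (List.replicate (n + 1) l).flatten.head? = l.head? ∧
    (List.replicate (n + 1) l).flatten.getLast? = l.getLast? ∧
    pl (List.replicate (n + 1) l).flatten = pl l ^ (n + 1) ∧
    (List.replicate (n + 1) l).flatten.length = (n + 1) * l.length := by
  induction n with
  | zero => simp [hr]
  | succ n ih =>
    obtain ⟨h1, h2, h3, h4, h5⟩ := ih
    have e : (List.replicate (n + 1 + 1) l).flatten = l ++ (List.replicate (n + 1) l).flatten := by
      rw [List.replicate_succ, List.flatten_cons]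
    rw [e]
    refine ⟨hr.append h1 ?_, ?_, ?_, ?_, ?_⟩
    · rw [h2]
      exact he
    · rw [List.head?_append_of_ne_nil _ h0]
    · rw [List.getLast?_append, h3]
      cases l.getLast? <;> rfl
    · rw [pl_append, h4, pow_succ' _ (n + 1)]
    · rw [List.length_append, h5]
      ring

/-- **roots in free products** are unique, outside the conjugates of the factors -/
theorem pow_root [DecidableEq ι] [∀ i, DecidableEq (M i)] (n : ℕ) (α δ : CoprodI M)
    (h : α ^ (n + 1) = δ ^ (n + 1)) (h1 : α ^ (n + 1) ≠ 1) : α = δ ∨
    ∃ (c : CoprodI M) (i : ι) (m m' : M i),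
      α = c * CoprodI.of m * c⁻¹ ∧ δ = c * CoprodI.of m' * c⁻¹ := by
  classical
  have hex : ∃ k, ∃ (c : CoprodI M) (l : List (Σ i, M i)), c⁻¹ * α * c = pl l ∧ l.length = k := by
    obtain ⟨l, hl⟩ := exists_pl α
    exact ⟨l.length, 1, l, by rw [hl]; group, rfl⟩
  obtain ⟨c, l, hc, hk⟩ := Nat.find_spec hex
  have hmin : ∀ (c' : CoprodI M) (l' : List (Σ i, M i)), c'⁻¹ * α * c' = pl l' →
      l.length ≤ l'.length := by
    intro c' l' h
    rw [hk]
    exact Nat.find_min' hex ⟨c', l', h, rfl⟩
  have hred : Red l := red_of_min l [] (by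
    intro l' hl'
    exact hmin c l' (by rw [hc, hl']; rfl))
  have hgc : α = c * pl l * c⁻¹ := by rw [← hc]; group
  obtain ⟨v, hv, hvp⟩ := exists_red (c⁻¹ * δ * c)
  have hdc : δ = c * pl v * c⁻¹ := by rw [hvp]; group
  have hsq : pl v ^ (n + 1) = pl l ^ (n + 1) := by
    have e1 : α ^ (n + 1) = c * pl l ^ (n + 1) * c⁻¹ := by rw [hgc, conj_pow]
    have e2 : δ ^ (n + 1) = c * pl v ^ (n + 1) * c⁻¹ := by rw [hdc, conj_pow]
    rw [e1, e2] at h
    exact (mul_left_cancel (mul_right_cancel h)).symm
  have hl1 : pl l ^ (n + 1) ≠ 1 := by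
    intro h2
    apply h1
    rw [hgc, conj_pow, h2, mul_one, mul_inv_cancel]
  have hv0 : v ≠ [] := by
    rintro rfl
    rw [pl_nil, one_pow] at hsq
    exact hl1 hsq.symm
  rcases pow_good n v.length v (le_refl _) hv hv0 with h2 | ⟨u, hu1, hu2, hu3, hu4, hu5⟩
  · rw [hsq] at h2
    exact absurd h2 hl1
  rw [hsq] at hu2
  cases l with
  | nil => exact absurd (by rw [pl_nil, one_pow]) hl1
  | cons x l0 =>
    rcases List.eq_nil_or_concat l0 with rfl | ⟨l1, y, rfl⟩
    · right
      have hx : x.2 ^ (n + 1) ≠ 1 := by
        intro h3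
        apply hl1
        rw [pl_cons, pl_nil, mul_one, ← map_pow, h3, map_one]
      have hu : u = [⟨x.1, x.2 ^ (n + 1)⟩] := by
        apply hu1.unique (Red.single hx)
        rw [hu2, pl_cons, pl_cons, pl_nil, mul_one, mul_one, map_pow]
      rw [hu] at hu3 hu4
      cases v with
      | nil => exact absurd rfl hv0
      | cons w v' =>
        have hv' : v' = [] := by
          simpa using hu3
        subst hv'
        obtain ⟨i, m⟩ := x
        obtain ⟨j, m'⟩ := w
        have : i = j := by simpa using hu4
        subst this
        refine ⟨c, i, m, m', ?_, ?_⟩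
        · rw [hgc, pl_cons, pl_nil, mul_one]
        · rw [hdc, pl_cons, pl_nil, mul_one]
    · left
      have hxy : y.1 ≠ x.1 := by
        intro hxy
        obtain ⟨i, m⟩ := x
        obtain ⟨j, m'⟩ := y
        change j = i at hxy
        subst hxy
        have h3 := hmin (c * (CoprodI.of m')⁻¹) (⟨j, m' * m⟩ :: l1) (by
          rw [mul_inv_rev, inv_inv]
          have : CoprodI.of m' * c⁻¹ * α * (c * (CoprodI.of m')⁻¹) =
              CoprodI.of m' * (c⁻¹ * α * c) * (CoprodI.of m')⁻¹ := by group
          rw [this, hc, pl_cons, List.concat_eq_append, pl_append, pl_cons, pl_nil, pl_cons, map_mul]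
          group)
        simp at h3
      obtain ⟨l, hl⟩ : ∃ l, l = x :: l1.concat y := ⟨_, rfl⟩
      rw [← hl] at hred hgc hc hsq hu2 hl1
      have hlast : l.getLast? = some y := by
        rw [hl, List.concat_eq_append, ← List.cons_append, List.getLast?_append]
        rfl
      have hhead : l.head? = some x := by rw [hl]; rfl
      have hl0 : l ≠ [] := by rw [hl]; simp
      obtain ⟨g1, g2, g3, g4, g5⟩ := rep_red hred hl0 (by
        intro a ha b hb
        rw [hlast] at ha
        rw [hhead] at hb
        have ha' : a = y := by simpa using ha.symm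
        have hb' : b = x := by simpa using hb.symm
        rw [ha', hb']
        exact hxy) n
      have hul : u = (List.replicate (n + 1) l).flatten := by
        apply hu1.unique g1
        rw [hu2, g4]
      obtain ⟨k1, k2, k3, k4, k5⟩ := rep_red hv hv0 (by
        intro a ha b hb
        have e1 : b.1 ∈ v.head?.map Sigma.fst := by
          rw [Option.mem_def.1 hb]; rfl
        rw [← hu4, hul, g2, hhead] at e1
        have e2 : a.1 ∈ v.getLast?.map Sigma.fst := by
          rw [Option.mem_def.1 ha]; rfl
        rw [← hu5, hul, g3, hlast] at e2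
        have e3 : x.1 = b.1 := by simpa using e1
        have e4 : y.1 = a.1 := by simpa using e2
        rw [← e3, ← e4]
        exact hxy) n
      have hvl : (List.replicate (n + 1) v).flatten = (List.replicate (n + 1) l).flatten := by
        apply k1.unique g1
        rw [g4, k4, hsq]
      have hlen : v.length = l.length := by
        have := congrArg List.length hvl
        rw [k5, g5] at this
        exact Nat.eq_of_mul_eq_mul_left (Nat.succ_pos n) this
      rw [List.replicate_succ, List.replicate_succ, List.flatten_cons, List.flatten_cons] at hvl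
      have : v = l := (List.append_inj hvl hlen).1
      rw [hgc, hdc, this]

end general

end RG58
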