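import Pool.Agent.Lib.RG58.SqFin
import Pool.Agent.Lib.RG58.RootsN

/-! Products of two cubes are not relators of a presentation with three relators (helper58). -/

set_option autoImplicit false

namespace RG58

open FreeGroup (of)
open Monoid

theorem rho_y {G : Type*} [Group G] (c : G) (g : F) :
    rho 1 c 1 1 g = c ^ (Multiplicative.toAdd (Ey g)) := by
  have : rho 1 c 1 1 = (zpowersHom G c).comp Ey := by
    apply rho_ext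
    · simp [Ey, rho0]
    · simp [Ey, rho1]
    · simp [Ey, rho2]
    · simp [Ey, rho3]
  rw [this]
  rfl

namespace TH

variable {K : Type*} [CommRing K]

/-- product of two cubes, the characters are primitive cube roots of unity -/
theorem cu_cu {a b : TH K} (ha : (a.u : K) ^ 2 + a.u + 1 = 0) (hb : (b.u : K) ^ 2 + b.u + 1 = 0) :
    (a * a * a * (b * b * b)).p = 0 ∧ (a * a * a * (b * b * b)).s = 3 * (a.s + b.s) ∧
      (a * a * a * (b * b * b)).q = (a.u + 2) * a.p * a.s + (b.u + 2) * b.p * b.s := by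
  have ha3 : (a.u : K) ^ 3 = 1 := by linear_combination ((a.u : K) - 1) * ha
  refine ⟨?_, ?_, ?_⟩
  · simp only [mul_u, mul_p, Units.val_mul]
    linear_combination a.p * ha + (a.u : K) ^ 3 * b.p * hb
  · simp only [mul_s]
    ring
  · simp only [mul_u, mul_p, mul_s, mul_q, Units.val_mul]
    linear_combination (a.q + 3 * a.p * b.s) * ha + (a.u : K) ^ 3 * b.q * hb +
      ((b.u : K) + 2) * b.p * b.s * ha3

end TH

section eta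

variable {K : Type*} [Field K] (h2 : (2 : K) = 0) (η : Kˣ)

theorem gA : IsFn (rho 1 η 1 1)
      (fun g => (rho (⟨1, 0, 0, 1⟩ : TH K) ⟨η, 0, 0, 0⟩ 1 1 g).q) ∧
    (rho (⟨1, 0, 0, 1⟩ : TH K) ⟨η, 0, 0, 0⟩ 1 1 (of 0 ^ 3)).q = 3 ∧
    (rho (⟨1, 0, 0, 1⟩ : TH K) ⟨η, 0, 0, 0⟩ 1 1 (of 2 ^ 2)).q = 0 ∧
    (rho (⟨1, 0, 0, 1⟩ : TH K) ⟨η, 0, 0, 0⟩ 1 1 (of 0 * of 1 * (of 0)⁻¹ * (of 1)⁻¹)).q = 1 - η ∧
    (rho (⟨1, 0, 0, 1⟩ : TH K) ⟨η, 0, 0, 0⟩ 1 1 (of 2 * of 3 * (of 2)⁻¹ * (of 3)⁻¹)).q = 0 := by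
  have h := fn_of (K := K) (a := ⟨1, 0, 0, 1⟩) (b := ⟨η, 0, 0, 0⟩) (c := 1) (d := 1)
    (q0 := 3) (q1 := 0) (q2 := 1 - η) (q3 := 0) ?_ ?_ ?_ ?_
  · rwa [chi_rho] at h
  · rw [pow_succ, pow_two]
    ext <;> simp [TH.mul_u, TH.mul_p, TH.mul_s, TH.mul_q, cn]
    norm_num
  · rw [one_pow]; rfl
  · ext <;> simp [TH.mul_u, TH.mul_p, TH.mul_s, TH.mul_q, TH.inv_u, TH.inv_p, TH.inv_s, TH.inv_q,
      cn]
    ring
  · rw [one_mul, inv_one, mul_one, mul_one]; rfl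

include h2

theorem gB : IsFn (rho 1 η 1 1)
      (fun g => (rho (1 : TH K) ⟨η, 0, 0, 0⟩ ⟨1, 1, 1, 0⟩ 1 g).q) ∧
    (rho (1 : TH K) ⟨η, 0, 0, 0⟩ ⟨1, 1, 1, 0⟩ 1 (of 0 ^ 3)).q = 0 ∧
    (rho (1 : TH K) ⟨η, 0, 0, 0⟩ ⟨1, 1, 1, 0⟩ 1 (of 2 ^ 2)).q = 1 ∧
    (rho (1 : TH K) ⟨η, 0, 0, 0⟩ ⟨1, 1, 1, 0⟩ 1 (of 0 * of 1 * (of 0)⁻¹ * (of 1)⁻¹)).q = 0 ∧
    (rho (1 : TH K) ⟨η, 0, 0, 0⟩ ⟨1, 1, 1, 0⟩ 1 (of 2 * of 3 * (of 2)⁻¹ * (of 3)⁻¹)).q = 0 := by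
  have h := fn_of (K := K) (a := 1) (b := ⟨η, 0, 0, 0⟩) (c := ⟨1, 1, 1, 0⟩) (d := 1)
    (q0 := 0) (q1 := 1) (q2 := 0) (q3 := 0) ?_ ?_ ?_ ?_
  · rwa [chi_rho] at h
  · rw [one_pow]; rfl
  · rw [pow_two]
    ext <;> simp [TH.mul_u, TH.mul_p, TH.mul_s, TH.mul_q, cn]
    · linear_combination h2
    · linear_combination h2
  · rw [one_mul, inv_one, mul_one, mul_inv_cancel]; rfl
  · rw [mul_one, mul_inv_cancel, inv_one, mul_one]; rfl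

theorem gC : IsFn (rho 1 η 1 1)
      (fun g => (rho (1 : TH K) ⟨η, 0, 0, 0⟩ ⟨1, 1, 0, 0⟩ ⟨1, 0, 1, 0⟩ g).q) ∧
    (rho (1 : TH K) ⟨η, 0, 0, 0⟩ ⟨1, 1, 0, 0⟩ ⟨1, 0, 1, 0⟩ (of 0 ^ 3)).q = 0 ∧
    (rho (1 : TH K) ⟨η, 0, 0, 0⟩ ⟨1, 1, 0, 0⟩ ⟨1, 0, 1, 0⟩ (of 2 ^ 2)).q = 0 ∧
    (rho (1 : TH K) ⟨η, 0, 0, 0⟩ ⟨1, 1, 0, 0⟩ ⟨1, 0, 1, 0⟩
      (of 0 * of 1 * (of 0)⁻¹ * (of 1)⁻¹)).q = 0 ∧
    (rho (1 : TH K) ⟨η, 0, 0, 0⟩ ⟨1, 1, 0, 0⟩ ⟨1, 0, 1, 0⟩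
      (of 2 * of 3 * (of 2)⁻¹ * (of 3)⁻¹)).q = 1 := by
  have h := fn_of (K := K) (a := 1) (b := ⟨η, 0, 0, 0⟩) (c := ⟨1, 1, 0, 0⟩) (d := ⟨1, 0, 1, 0⟩)
    (q0 := 0) (q1 := 0) (q2 := 0) (q3 := 1) ?_ ?_ ?_ ?_
  · rwa [chi_rho] at h
  · rw [one_pow]; rfl
  · rw [pow_two]
    ext <;> simp [TH.mul_u, TH.mul_p, TH.mul_s, TH.mul_q, cn]
    linear_combination h2
  · rw [one_mul, inv_one, mul_one, mul_inv_cancel]; rfl
  · ext <;> simp [TH.mul_u, TH.mul_p, TH.mul_s, TH.mul_q, TH.inv_u, TH.inv_p, TH.inv_s, TH.inv_q,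
      cn]

/-- images of `R` under the representations with `p` in the `z`-direction -/
theorem gBC_corner {d : TH K} (hd : d = 1 ∨ d = ⟨1, 0, 1, 0⟩) {c : TH K}
    (hc : c = ⟨1, 1, 1, 0⟩ ∨ c = ⟨1, 1, 0, 0⟩) {g : F} (hg : g ∈ R) :
    rho (1 : TH K) ⟨η, 0, 0, 0⟩ c d g ∈ TH.corner K := by
  have hle : R ≤ (TH.corner K).comap (rho (1 : TH K) ⟨η, 0, 0, 0⟩ c d) := by
    apply Subgroup.normalClosure_le_normal
    apply rel_cases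
    · change rho (1 : TH K) ⟨η, 0, 0, 0⟩ c d (of 0 ^ 3) ∈ TH.corner K
      rw [map_pow, rho0, one_pow]
      exact Subgroup.one_mem _
    · change rho (1 : TH K) ⟨η, 0, 0, 0⟩ c d (of 2 ^ 2) ∈ TH.corner K
      rw [map_pow, rho2, pow_two]
      rcases hc with rfl | rfl
      · refine ⟨?_, ?_, ?_⟩
        · simp [TH.mul_u]
        · simp [TH.mul_p]
          linear_combination h2
        · simp [TH.mul_s]
          linear_combination h2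
      · refine ⟨?_, ?_, ?_⟩
        · simp [TH.mul_u]
        · simp [TH.mul_p]
          linear_combination h2
        · simp [TH.mul_s]
    · change rho (1 : TH K) ⟨η, 0, 0, 0⟩ c d (of 0 * of 1 * (of 0)⁻¹ * (of 1)⁻¹) ∈ TH.corner K
      rw [map_mul, map_mul, map_mul, map_inv, map_inv, rho0, rho1, one_mul, inv_one, mul_one,
        mul_inv_cancel]
      exact Subgroup.one_mem _
    · change rho (1 : TH K) ⟨η, 0, 0, 0⟩ c d (of 2 * of 3 * (of 2)⁻¹ * (of 3)⁻¹) ∈ TH.corner K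
      rw [map_mul, map_mul, map_mul, map_inv, map_inv, rho2, rho3]
      rcases hc with rfl | rfl <;> rcases hd with rfl | rfl <;> refine ⟨?_, ?_, ?_⟩ <;>
        simp [TH.mul_u, TH.mul_p, TH.mul_s, TH.inv_u, TH.inv_p, TH.inv_s, TH.one_u, TH.one_p,
          TH.one_s]
  exact hle hg

/-- the triple of functionals at `y ↦ η` -/
theorem tripleE {r : Fin 3 → F} (hr : Gen r) (i : Fin 3) :
    (rho (⟨1, 0, 0, 1⟩ : TH K) ⟨η, 0, 0, 0⟩ 1 1 (r i)).q ≠ 0 ∨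
    (rho (1 : TH K) ⟨η, 0, 0, 0⟩ ⟨1, 1, 1, 0⟩ 1 (r i)).q ≠ 0 ∨
    (rho (1 : TH K) ⟨η, 0, 0, 0⟩ ⟨1, 1, 0, 0⟩ ⟨1, 0, 1, 0⟩ (r i)).q ≠ 0 := by
  obtain ⟨a0, a1, a2, a3, a4⟩ := gA η
  obtain ⟨b0, b1, b2, b3, b4⟩ := gB h2 η
  obtain ⟨c0, c1, c2, c3, c4⟩ := gC h2 η
  obtain ⟨φ, hφ⟩ : ∃ φ : Fin 3 → F → K, φ =
      ![fun g => (rho (⟨1, 0, 0, 1⟩ : TH K) ⟨η, 0, 0, 0⟩ 1 1 g).q,
        fun g => (rho (1 : TH K) ⟨η, 0, 0, 0⟩ ⟨1, 1, 1, 0⟩ 1 g).q,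
        fun g => (rho (1 : TH K) ⟨η, 0, 0, 0⟩ ⟨1, 1, 0, 0⟩ ⟨1, 0, 1, 0⟩ g).q] := ⟨_, rfl⟩
  have hfn : ∀ j, IsFn (rho 1 η 1 1) (φ j) := by
    intro j
    rw [hφ]
    fin_cases j
    · exact a0
    · exact b0
    · exact c0
  obtain ⟨j, hj⟩ := key (by linear_combination 3 * h2) hfn (fun v hv => by
    have e1 := hv _ (Or.inl rfl)
    have e2 := hv _ (Or.inr (Or.inl rfl))
    have e3 := hv _ (Or.inr (Or.inr (Or.inr rfl)))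
    rw [Fin.sum_univ_three, hφ] at e1 e2 e3
    change _ * v 0 + _ * v 1 + _ * v 2 = 0 at e1
    change _ * v 0 + _ * v 1 + _ * v 2 = 0 at e2
    change _ * v 0 + _ * v 1 + _ * v 2 = 0 at e3
    simp only [Matrix.cons_val_zero, Matrix.cons_val_one, Matrix.cons_val] at e1 e2 e3
    rw [a1, b1, c1] at e1
    rw [a2, b2, c2] at e2
    rw [a4, b4, c4] at e3
    funext k
    fin_cases k
    · change v 0 = 0
      linear_combination e1 - v 0 * h2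
    · change v 1 = 0
      linear_combination e2
    · change v 2 = 0
      linear_combination e3) hr i
  rw [hφ] at hj
  fin_cases j
  · exact Or.inl hj
  · exact Or.inr (Or.inl hj)
  · exact Or.inr (Or.inr hj)

end eta

/-- two cubes: the relation between the derivations -/
theorem rz_cu {a b : F} (hab : a * a * a * (b * b * b) ∈ R) (hb : Ey b = (Ey a)⁻¹)
    (ha : Ey a ≠ 1) : (rz a).p + (rz a).u * (rz b).p = 0 := by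
  obtain ⟨h1, h2⟩ := rz_R hab
  have hu : (rz b).u = ((rz a).u)⁻¹ := by rw [rz_chi, rz_chi, hb, toAdd_inv, zpow_neg]
  obtain ⟨u, hu1⟩ : ∃ u : L2, u = ((rz a).u : L2) := ⟨_, rfl⟩
  obtain ⟨v, hv1⟩ : ∃ v : L2, v = (((rz a).u)⁻¹ : L2ˣ) := ⟨_, rfl⟩
  have h4 : u * v = 1 := by rw [hu1, hv1]; exact Units.mul_inv _
  have h5 : (u ^ 2 + u + 1) * ((rz a).p + u * (rz b).p) = 0 := by
    simp only [map_mul, TH.mul_p, TH.mul_u, hu, Units.val_mul] at h2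
    rw [← hu1, ← hv1] at h2
    linear_combination h2 - (rz b).p * (u * (u * v + 1) + u ^ 2) * h4
  rcases mul_eq_zero.1 h5 with h6 | h6
  · exfalso
    apply ha
    have h7 : (rz a).u ^ 3 = 1 := by
      ext1
      rw [Units.val_pow_eq_pow_val, Units.val_one, ← hu1]
      linear_combination (u - 1) * h6
    rw [rz_chi, ← zpow_natCast, ← zpow_mul] at h7
    have h9 := Tu_inj h7
    have h10 : Multiplicative.toAdd (Ey a) = 0 := by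
      push_cast at h9
      omega
    exact Multiplicative.toAdd.injective h10
  · rw [hu1] at h6
    exact h6

/-! ### the exponent sums of `y` vanish -/

/-- the coefficient field -/
abbrev K2 := AlgebraicClosure (ZMod 2)

theorem two_K2 : (2 : K2) = 0 := by
  have h1 : (2 : K2) = algebraMap (ZMod 2) K2 2 := by rw [map_ofNat]
  rw [h1, show (2 : ZMod 2) = 0 by decide, map_zero]

theorem exists_eta (j : ℤ) (hj : j ≠ 0) : ∃ η : K2ˣ,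
    ((η ^ j : K2ˣ) : K2) ^ 2 + ((η ^ j : K2ˣ) : K2) + 1 = 0 := by
  have hn : 0 < j.natAbs := Int.natAbs_pos.2 hj
  have hd : (Polynomial.X ^ 2 + Polynomial.X + 1 : Polynomial K2).degree = 2 := by
    compute_degree!
  obtain ⟨w, hw⟩ := IsAlgClosed.exists_root (Polynomial.X ^ 2 + Polynomial.X + 1 : Polynomial K2)
    (by rw [hd]; norm_num)
  have hw' : w ^ 2 + w + 1 = 0 := by simpa using hw
  obtain ⟨t, ht⟩ := IsAlgClosed.exists_pow_nat_eq w hn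
  have hw0 : w ≠ 0 := by
    rintro rfl
    simp at hw'
  have ht0 : t ≠ 0 := by
    rintro rfl
    rw [zero_pow hn.ne'] at ht
    exact hw0 ht.symm
  refine ⟨Units.mk0 t ht0, ?_⟩
  have h1 : ((Units.mk0 t ht0 ^ j.natAbs : K2ˣ) : K2) = w := by
    rw [Units.val_pow_eq_pow_val, Units.val_mk0, ht]
  rcases Int.natAbs_eq j with h | h
  · rw [h, zpow_natCast, h1]
    exact hw'
  · rw [h, zpow_neg, zpow_natCast]
    have h2 : ((Units.mk0 t ht0 ^ j.natAbs : K2ˣ)⁻¹ : K2ˣ) = ((w⁻¹ : K2)) := by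
      rw [Units.val_inv_eq_inv_val, h1]
    have h3 : (((Units.mk0 t ht0 ^ j.natAbs)⁻¹ : K2ˣ) : K2) = w ^ 2 := by
      rw [h2]
      apply inv_eq_of_mul_eq_one_right
      linear_combination (w - 1) * hw'
    rw [h3]
    linear_combination (w ^ 2 - w + 1) * hw'

/-- evaluation of Laurent polynomials -/
noncomputable def ev2 (η : K2ˣ) : L2 →+* K2 := LaurentPolynomial.eval₂ (algebraMap (ZMod 2) K2) η

theorem ev2_Tu (η : K2ˣ) : Units.map (ev2 η).toMonoidHom Tu = η := by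
  ext1
  have h1 : ev2 η (LaurentPolynomial.T 1) = ((η ^ (1 : ℤ) : K2ˣ) : K2) :=
    LaurentPolynomial.eval₂_T _ _ _
  change ev2 η (LaurentPolynomial.T 1) = η
  rw [h1, zpow_one]

theorem ev2_rz (η : K2ˣ) {s c : TH K2} (hs : s.u = 1 ∧ s.p = 0) (hc : c.u = 1 ∧ c.p = 1) (g : F) :
    ev2 η (rz g).p = (rho (1 : TH K2) ⟨η, 0, 0, 0⟩ c s g).p := by
  have : (TH.mp (ev2 η)).comp rz = TH.pr.comp (rho (1 : TH K2) ⟨η, 0, 0, 0⟩ c s) := by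
    apply rho_ext
    · simp only [MonoidHom.comp_apply, rz, rho0, map_one]
    · simp only [MonoidHom.comp_apply, rz, rho1]
      simp only [TH.mp, MonoidHom.coe_mk, OneHom.coe_mk, ev2_Tu, map_zero]
      rfl
    · simp only [MonoidHom.comp_apply, rz, rho2]
      simp [TH.mp, TH.pr, hc.1, hc.2]
    · simp only [MonoidHom.comp_apply, rz, rho3, map_one]
      simp only [TH.pr, MonoidHom.coe_mk, OneHom.coe_mk, hs.1, hs.2]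
      rfl
  have h2 := DFunLike.congr_fun this g
  exact congrArg TH.p h2

theorem cu_y {r : Fin 3 → F} (hr : Gen r) (i : Fin 3) {a b s : F} (hs : s ∈ Q6)
    (hi : r i = a * a * a * (b * b * b) * s) : Ey a = 1 := by
  by_contra ha
  have hR : a * a * a * (b * b * b) ∈ R := by
    have := hr.mem i
    rw [hi] at this
    exact (R.mul_mem_cancel_right (Q6_le hs)).1 this
  have hb : Ey b = (Ey a)⁻¹ := by
    have h1 : Ey (a * a * a * (b * b * b)) = 1 := rho_R (one_pow 3) (one_pow 2) hR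
    rw [map_mul, map_mul, map_mul, map_mul, map_mul] at h1
    have h2 := congrArg Multiplicative.toAdd h1
    apply Multiplicative.toAdd.injective
    rw [toAdd_inv]
    rw [toAdd_mul, toAdd_mul, toAdd_mul, toAdd_mul, toAdd_mul, toAdd_one] at h2
    omega
  obtain ⟨j, hj⟩ : ∃ j, j = Multiplicative.toAdd (Ey a) := ⟨_, rfl⟩
  have hj0 : j ≠ 0 := by
    rintro rfl
    exact ha (Multiplicative.toAdd.injective hj.symm)
  obtain ⟨η, hη⟩ := exists_eta j hj0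
  have hjb : Multiplicative.toAdd (Ey b) = -j := by rw [hb, toAdd_inv, hj]
  obtain ⟨ω, hω⟩ : ∃ ω : K2, ω = ((η ^ j : K2ˣ) : K2) := ⟨_, rfl⟩
  rw [← hω] at hη
  have hb2 : ((η ^ (-j) : K2ˣ) : K2) = ω ^ 2 := by
    rw [zpow_neg, Units.val_inv_eq_inv_val, ← hω]
    apply inv_eq_of_mul_eq_one_right
    linear_combination (ω - 1) * hη
  have hηb : (ω ^ 2) ^ 2 + ω ^ 2 + 1 = 0 := by linear_combination (ω ^ 2 - ω + 1) * hη
  have h6 : (6 : K2) = 0 := by linear_combination 3 * two_K2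
  have hp := rz_cu hR hb ha
  have hp2 := congrArg (ev2 η) hp
  rw [map_add, map_mul, map_zero] at hp2
  have hu : ev2 η ((rz a).u : L2) = ω := by
    have h8 : Units.map (ev2 η).toMonoidHom (rz a).u = η ^ j := by
      rw [rz_chi, map_zpow, ev2_Tu, ← hj]
    have h9 := congrArg Units.val h8
    rw [← hω] at h9
    exact h9
  rw [hu] at hp2
  rcases tripleE two_K2 η hr i with h | h | h
  · apply h
    have hfn := (gA η).1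
    have uA : ∀ g : F, (rho (⟨1, 0, 0, 1⟩ : TH K2) ⟨η, 0, 0, 0⟩ 1 1 g).u =
        η ^ (Multiplicative.toAdd (Ey g)) := by
      intro g
      have := DFunLike.congr_fun (chi_rho (⟨1, 0, 0, 1⟩ : TH K2) ⟨η, 0, 0, 0⟩ 1 1) g
      rw [← rho_y]
      exact this
    have pA : ∀ g : F, rho (⟨1, 0, 0, 1⟩ : TH K2) ⟨η, 0, 0, 0⟩ 1 1 g ∈ TH.pz K2 :=
      rho_mem _ rfl rfl (Subgroup.one_mem _) (Subgroup.one_mem _)
    have hval : (rho (⟨1, 0, 0, 1⟩ : TH K2) ⟨η, 0, 0, 0⟩ 1 1 (a * a * a * (b * b * b))).q = 0 := by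
      rw [map_mul, map_mul, map_mul, map_mul, map_mul,
        (TH.cu_cu (by rw [uA, ← hj, ← hω]; exact hη) (by rw [uA, hjb, hb2]; exact hηb)).2.2,
        show (rho (⟨1, 0, 0, 1⟩ : TH K2) ⟨η, 0, 0, 0⟩ 1 1 a).p = 0 from pA a,
        show (rho (⟨1, 0, 0, 1⟩ : TH K2) ⟨η, 0, 0, 0⟩ 1 1 b).p = 0 from pA b]
      ring
    rw [hi]
    refine (hfn.add _ hR _ (Q6_le hs)).trans ?_
    rw [(hfn.q6 h6 hs).2, add_zero]
    exact hval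
  · apply h
    have hfn := (gB two_K2 η).1
    have uA : ∀ g : F, (rho (1 : TH K2) ⟨η, 0, 0, 0⟩ ⟨1, 1, 1, 0⟩ 1 g).u =
        η ^ (Multiplicative.toAdd (Ey g)) := by
      intro g
      have := DFunLike.congr_fun (chi_rho (1 : TH K2) ⟨η, 0, 0, 0⟩ ⟨1, 1, 1, 0⟩ 1) g
      rw [← rho_y]
      exact this
    have hcu := TH.cu_cu (a := rho (1 : TH K2) ⟨η, 0, 0, 0⟩ ⟨1, 1, 1, 0⟩ 1 a)
      (b := rho (1 : TH K2) ⟨η, 0, 0, 0⟩ ⟨1, 1, 1, 0⟩ 1 b)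
      (by rw [uA, ← hj, ← hω]; exact hη) (by rw [uA, hjb, hb2]; exact hηb)
    have hcor := (gBC_corner two_K2 η (Or.inl rfl) (Or.inl rfl) hR).2.2
    rw [map_mul, map_mul, map_mul, map_mul, map_mul, hcu.2.1] at hcor
    rw [ev2_rz η (s := 1) (c := ⟨1, 1, 1, 0⟩) ⟨rfl, rfl⟩ ⟨rfl, rfl⟩,
      ev2_rz η (s := 1) (c := ⟨1, 1, 1, 0⟩) ⟨rfl, rfl⟩ ⟨rfl, rfl⟩] at hp2
    have hval : (rho (1 : TH K2) ⟨η, 0, 0, 0⟩ ⟨1, 1, 1, 0⟩ 1 (a * a * a * (b * b * b))).q = 0 := by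
      rw [map_mul, map_mul, map_mul, map_mul, map_mul, hcu.2.2, uA, uA, ← hj, ← hω, hjb, hb2]
      obtain ⟨pa, hpa⟩ : ∃ x, x = (rho (1 : TH K2) ⟨η, 0, 0, 0⟩ ⟨1, 1, 1, 0⟩ 1 a).p := ⟨_, rfl⟩
      obtain ⟨pb, hpb⟩ : ∃ x, x = (rho (1 : TH K2) ⟨η, 0, 0, 0⟩ ⟨1, 1, 1, 0⟩ 1 b).p := ⟨_, rfl⟩
      obtain ⟨sa, hsa⟩ : ∃ x, x = (rho (1 : TH K2) ⟨η, 0, 0, 0⟩ ⟨1, 1, 1, 0⟩ 1 a).s := ⟨_, rfl⟩
      obtain ⟨sb, hsb⟩ : ∃ x, x = (rho (1 : TH K2) ⟨η, 0, 0, 0⟩ ⟨1, 1, 1, 0⟩ 1 b).s := ⟨_, rfl⟩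
      rw [← hpa, ← hpb] at hp2
      rw [← hsa, ← hsb] at hcor
      rw [← hpa, ← hpb, ← hsa, ← hsb]
      linear_combination (ω * sa) * hp2 + (ω ^ 2 * pb) * hcor +
        (pa * sa + pb * sb - ω ^ 2 * pb * (sa + sb) - ω ^ 2 * pb * sa) * two_K2
    rw [hi]
    refine (hfn.add _ hR _ (Q6_le hs)).trans ?_
    rw [(hfn.q6 h6 hs).2, add_zero]
    exact hval
  · apply h
    have hfn := (gC two_K2 η).1
    have uA : ∀ g : F, (rho (1 : TH K2) ⟨η, 0, 0, 0⟩ ⟨1, 1, 0, 0⟩ ⟨1, 0, 1, 0⟩ g).u =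
        η ^ (Multiplicative.toAdd (Ey g)) := by
      intro g
      have := DFunLike.congr_fun (chi_rho (1 : TH K2) ⟨η, 0, 0, 0⟩ ⟨1, 1, 0, 0⟩ ⟨1, 0, 1, 0⟩) g
      rw [← rho_y]
      exact this
    have hcu := TH.cu_cu (a := rho (1 : TH K2) ⟨η, 0, 0, 0⟩ ⟨1, 1, 0, 0⟩ ⟨1, 0, 1, 0⟩ a)
      (b := rho (1 : TH K2) ⟨η, 0, 0, 0⟩ ⟨1, 1, 0, 0⟩ ⟨1, 0, 1, 0⟩ b)
      (by rw [uA, ← hj, ← hω]; exact hη) (by rw [uA, hjb, hb2]; exact hηb)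
    have hcor := (gBC_corner two_K2 η (Or.inr rfl) (Or.inr rfl) hR).2.2
    rw [map_mul, map_mul, map_mul, map_mul, map_mul, hcu.2.1] at hcor
    rw [ev2_rz η (s := ⟨1, 0, 1, 0⟩) (c := ⟨1, 1, 0, 0⟩) ⟨rfl, rfl⟩ ⟨rfl, rfl⟩,
      ev2_rz η (s := ⟨1, 0, 1, 0⟩) (c := ⟨1, 1, 0, 0⟩) ⟨rfl, rfl⟩ ⟨rfl, rfl⟩] at hp2
    have hval : (rho (1 : TH K2) ⟨η, 0, 0, 0⟩ ⟨1, 1, 0, 0⟩ ⟨1, 0, 1, 0⟩
        (a * a * a * (b * b * b))).q = 0 := by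
      rw [map_mul, map_mul, map_mul, map_mul, map_mul, hcu.2.2, uA, uA, ← hj, ← hω, hjb, hb2]
      obtain ⟨pa, hpa⟩ : ∃ x, x =
        (rho (1 : TH K2) ⟨η, 0, 0, 0⟩ ⟨1, 1, 0, 0⟩ ⟨1, 0, 1, 0⟩ a).p := ⟨_, rfl⟩
      obtain ⟨pb, hpb⟩ : ∃ x, x =
        (rho (1 : TH K2) ⟨η, 0, 0, 0⟩ ⟨1, 1, 0, 0⟩ ⟨1, 0, 1, 0⟩ b).p := ⟨_, rfl⟩
      obtain ⟨sa, hsa⟩ : ∃ x, x =
        (rho (1 : TH K2) ⟨η, 0, 0, 0⟩ ⟨1, 1, 0, 0⟩ ⟨1, 0, 1, 0⟩ a).s := ⟨_, rfl⟩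
      obtain ⟨sb, hsb⟩ : ∃ x, x =
        (rho (1 : TH K2) ⟨η, 0, 0, 0⟩ ⟨1, 1, 0, 0⟩ ⟨1, 0, 1, 0⟩ b).s := ⟨_, rfl⟩
      rw [← hpa, ← hpb] at hp2
      rw [← hsa, ← hsb] at hcor
      rw [← hpa, ← hpb, ← hsa, ← hsb]
      linear_combination (ω * sa) * hp2 + (ω ^ 2 * pb) * hcor +
        (pa * sa + pb * sb - ω ^ 2 * pb * (sa + sb) - ω ^ 2 * pb * sa) * two_K2
    rw [hi]
    refine (hfn.add _ hR _ (Q6_le hs)).trans ?_
    rw [(hfn.q6 h6 hs).2, add_zero]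
    exact hval

end RG58
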