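import Pool.Agent.Lib.RG58.FreeN

/-! Extension of functionals on `R` to crossed homomorphisms on subgroups (helper58). -/

set_option autoImplicit false

namespace RG58

open FreeGroup (of)
open Monoid

theorem Om_right (g : F) : (Om g).right = (Ex3 g, Ez2 g) := by
  have h : (SemidirectProduct.rightHom (φ := ac)).comp Om = Ex3.prod Ez2 := by
    apply rho_ext
    · rw [MonoidHom.comp_apply, Om, rho0, MonoidHom.prod_apply, Ex3, Ez2, rho0, rho0, ax,
        SemidirectProduct.rightHom_inr]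
      rfl
    · rw [MonoidHom.comp_apply, Om, rho1, MonoidHom.prod_apply, Ex3, Ez2, rho1, rho1, ay,
        SemidirectProduct.rightHom_inl]
      rfl
    · rw [MonoidHom.comp_apply, Om, rho2, MonoidHom.prod_apply, Ex3, Ez2, rho2, rho2, az,
        map_mul, map_mul, map_inv, mul_comm, inv_mul_cancel_left, SemidirectProduct.rightHom_inr]
      rfl
    · rw [MonoidHom.comp_apply, Om, rho3, MonoidHom.prod_apply, Ex3, Ez2, rho3, rho3, at',
        map_mul, map_mul, map_inv, mul_comm, inv_mul_cancel_left, SemidirectProduct.rightHom_inl]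
      rfl
  exact DFunLike.congr_fun h g

section sec

variable (V : Subgroup F) (hV : ∀ v ∈ V, Ex3 v = 1 ∧ Ez2 v = 1)

include hV in
theorem Om_right_one (v : V) : (Om v).right = 1 := by
  rw [Om_right, (hV v v.2).1, (hV v v.2).2]
  rfl

/-- the homomorphism to the free group -/
noncomputable def jj : V →* FreeGroup XX where
  toFun v := (Om v).left
  map_one' := by
    rw [Subgroup.coe_one, map_one]
    rfl
  map_mul' v w := by
    rw [Subgroup.coe_mul, map_mul, SemidirectProduct.mul_left, Om_right_one V hV v, map_one]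
    rfl

theorem jj_eq_one {v : V} : jj V hV v = 1 ↔ (v : F) ∈ R := by
  constructor
  · intro h
    apply Om_ker
    apply SemidirectProduct.ext
    · exact h
    · exact Om_right_one V hV v
  · intro h
    change (Om v).left = 1
    rw [Om_R h]
    rfl

include hV in
/-- a section -/
theorem exists_sec : ∃ e : V →* V, (∀ v : V, (v : F) * (e v : F)⁻¹ ∈ R) ∧
    (∀ v : V, (v : F) ∈ R → e v = 1) := by
  obtain ⟨j, hj⟩ : ∃ j : V →* FreeGroup XX, ∀ v, j v = 1 ↔ (v : F) ∈ R :=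
    ⟨jj V hV, fun _ => jj_eq_one V hV⟩
  have hpre : ∀ x : IsFreeGroup.Generators j.range, ∃ v : V,
      j v = (IsFreeGroup.of x : j.range) := fun x => (IsFreeGroup.of x : j.range).2
  choose pre hpre using hpre
  let s : j.range →* V := IsFreeGroup.lift pre
  have hs : j.rangeRestrict.comp s = MonoidHom.id _ := by
    apply IsFreeGroup.ext_hom
    intro x
    rw [MonoidHom.comp_apply, IsFreeGroup.lift_of, MonoidHom.id_apply]
    exact Subtype.ext (hpre x)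
  refine ⟨s.comp j.rangeRestrict, ?_, ?_⟩
  · intro v
    have h1 : j (v * (s (j.rangeRestrict v))⁻¹) = 1 := by
      rw [map_mul, map_inv]
      have h2 := congrArg Subtype.val (DFunLike.congr_fun hs (j.rangeRestrict v))
      change j (s (j.rangeRestrict v)) = j v at h2
      rw [h2, mul_inv_cancel]
    exact (hj _).1 h1
  · intro v hv
    have h1 : j.rangeRestrict v = 1 := by
      apply Subtype.ext
      exact (hj _).2 hv
    rw [MonoidHom.comp_apply, h1, map_one]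

include hV in
/-- a nonzero homomorphism -/
theorem exists_hom (K : Type*) [Field K] (h : ∃ v ∈ V, v ∉ R) : ∃ f : V →* Multiplicative K,
    (∀ v : V, (v : F) ∈ R → f v = 1) ∧ ∃ v : V, f v ≠ 1 := by
  obtain ⟨j, hj⟩ : ∃ j : V →* FreeGroup XX, ∀ v, j v = 1 ↔ (v : F) ∈ R :=
    ⟨jj V hV, fun _ => jj_eq_one V hV⟩
  obtain ⟨v, hv, hvR⟩ := h
  have hne : Nonempty (IsFreeGroup.Generators j.range) := by
    by_contra hcon
    rw [not_nonempty_iff] at hcon
    apply hvR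
    have h1 : MonoidHom.id j.range = 1 := by
      apply IsFreeGroup.ext_hom
      intro x
      exact hcon.elim x
    have h2 := congrArg Subtype.val (DFunLike.congr_fun h1 (j.rangeRestrict ⟨v, hv⟩))
    change j ⟨v, hv⟩ = 1 at h2
    exact (hj _).1 h2
  obtain ⟨x⟩ := hne
  let η : j.range →* Multiplicative K := IsFreeGroup.lift fun _ => Multiplicative.ofAdd 1
  refine ⟨η.comp j.rangeRestrict, ?_, ?_⟩
  · intro v hv
    have h1 : j.rangeRestrict v = 1 := by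
      apply Subtype.ext
      exact (hj _).2 hv
    rw [MonoidHom.comp_apply, h1, map_one]
  · obtain ⟨v, hv⟩ : ∃ v : V, j v = (IsFreeGroup.of x : j.range) :=
      (IsFreeGroup.of x : j.range).2
    refine ⟨v, ?_⟩
    have h1 : j.rangeRestrict v = IsFreeGroup.of x := Subtype.ext hv
    rw [MonoidHom.comp_apply, h1, IsFreeGroup.lift_of]
    intro h2
    exact one_ne_zero (α := K) (congrArg Multiplicative.toAdd h2)

end sec

section der

variable {K : Type*} [Field K]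

/-- crossed homomorphisms on a subgroup -/
def Der (χ : F →* Kˣ) (U : Subgroup F) (δ : F → K) : Prop :=
  ∀ g ∈ U, ∀ h ∈ U, δ (g * h) = δ g + χ g * δ h

/-- a functional extends to a crossed homomorphism -/
def Ext (χ : F →* Kˣ) (U : Subgroup F) (φ : F → K) : Prop :=
  ∃ δ : F → K, Der χ U δ ∧ ∀ r ∈ R, r ∈ U → δ r = φ r

variable {χ : F →* Kˣ} {U : Subgroup F}

theorem Der.one {δ : F → K} (h : Der χ U δ) : δ 1 = 0 := by
  have h1 := h 1 U.one_mem 1 U.one_mem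
  rw [mul_one, map_one, Units.val_one, one_mul] at h1
  have h2 : δ 1 + δ 1 = δ 1 + 0 := by rw [add_zero]; exact h1.symm
  exact add_left_cancel h2

theorem Der.inv {δ : F → K} (h : Der χ U δ) {g : F} (hg : g ∈ U) (h0 : δ g = 0) : δ g⁻¹ = 0 := by
  have h1 := h g⁻¹ (U.inv_mem hg) g hg
  rw [inv_mul_cancel, h.one, h0, mul_zero, add_zero] at h1
  exact h1.symm

theorem Der.smul {δ : F → K} (h : Der χ U δ) (c : K) : Der χ U (fun g => c * δ g) := by
  intro g hg k hk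
  simp only
  rw [h g hg k hk]
  ring

theorem Der.add {δ δ' : F → K} (h : Der χ U δ) (h' : Der χ U δ') :
    Der χ U (fun g => δ g + δ' g) := by
  intro g hg k hk
  simp only
  rw [h g hg k hk, h' g hg k hk]
  ring

theorem Der.sum {ι : Type*} (s : Finset ι) {δ : ι → F → K} (h : ∀ i, Der χ U (δ i)) :
    Der χ U (fun g => ∑ i ∈ s, δ i g) := by
  intro g hg k hk
  simp only
  rw [Finset.mul_sum, ← Finset.sum_add_distrib]
  exact Finset.sum_congr rfl fun i _ => h i g hg k hk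

theorem Der.zero {n : ℕ} {u : Fin n → F} (hU : U = Subgroup.closure (Set.range u)) {δ : F → K}
    (h : Der χ U δ) (h0 : ∀ l, δ (u l) = 0) {g : F} (hg : g ∈ U) : δ g = 0 := by
  have hle : ∀ g ∈ Subgroup.closure (Set.range u), g ∈ U ∧ δ g = 0 := by
    intro g hg
    induction hg using Subgroup.closure_induction with
    | mem x hx =>
      obtain ⟨l, rfl⟩ := hx
      refine ⟨?_, h0 l⟩
      rw [hU]
      exact Subgroup.subset_closure ⟨l, rfl⟩
    | one => exact ⟨U.one_mem, h.one⟩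
    | mul x y _ _ hx hy =>
      refine ⟨U.mul_mem hx.1 hy.1, ?_⟩
      rw [h x hx.1 y hy.1, hx.2, hy.2, mul_zero, add_zero]
    | inv x _ hx => exact ⟨U.inv_mem hx.1, h.inv hx.1 hx.2⟩
  rw [hU] at hg
  exact (hle g hg).2

theorem prin (χ : F →* Kˣ) (U : Subgroup F) : Der χ U (fun g => (χ g : K) - 1) := by
  intro g _ k _
  simp only
  rw [map_mul, Units.val_mul]
  ring

theorem lift_fn (V : Subgroup F) (f : V → K) : ∃ δ : F → K, ∀ v : V, δ v = f v := by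
  classical
  refine ⟨fun g => if h : g ∈ V then f ⟨g, h⟩ else 0, ?_⟩
  intro v
  simp

/-- extension on subgroups of the kernel -/
theorem ext_N {φ : F → K} (hφ : IsFn χ φ) (V : Subgroup F)
    (hV : ∀ v ∈ V, Ex3 v = 1 ∧ Ez2 v = 1) : Ext χ V φ := by
  obtain ⟨e, h1, h2⟩ := exists_sec V hV
  obtain ⟨δ, hδ⟩ := lift_fn V fun v => φ ((v : F) * (e v : F)⁻¹)
  refine ⟨δ, ?_, ?_⟩
  · intro g hg k hk
    have e1 := hδ (⟨g, hg⟩ * ⟨k, hk⟩)
    have e2 := hδ ⟨g, hg⟩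
    have e3 := hδ ⟨k, hk⟩
    change δ (g * k) = φ (g * k * (e (⟨g, hg⟩ * ⟨k, hk⟩) : F)⁻¹) at e1
    change δ g = φ (g * (e ⟨g, hg⟩ : F)⁻¹) at e2
    change δ k = φ (k * (e ⟨k, hk⟩ : F)⁻¹) at e3
    rw [e1, e2, e3, map_mul]
    have e4 : g * k * ((e ⟨g, hg⟩ * e ⟨k, hk⟩ : V) : F)⁻¹ =
        (g * (k * (e ⟨k, hk⟩ : F)⁻¹) * g⁻¹) * (g * (e ⟨g, hg⟩ : F)⁻¹) := by
      rw [Subgroup.coe_mul]
      group
    rw [e4, hφ.add _ ((inferInstance : R.Normal).conj_mem _ (h1 ⟨k, hk⟩) g) _ (h1 ⟨g, hg⟩),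
      hφ.eqv _ _ (h1 ⟨k, hk⟩), add_comm]
  · intro r hr hrV
    have e1 := hδ ⟨r, hrV⟩
    change δ r = φ (r * (e ⟨r, hrV⟩ : F)⁻¹) at e1
    rw [e1, h2 ⟨r, hrV⟩ hr, Subgroup.coe_one, inv_one, mul_one]

/-- a nonzero crossed homomorphism for a trivial action -/
theorem hom_N (V : Subgroup F) (hV : ∀ v ∈ V, Ex3 v = 1 ∧ Ez2 v = 1)
    (hχ : ∀ v ∈ V, χ v = 1) (h : ∃ v ∈ V, v ∉ R) :
    ∃ δ : F → K, Der χ V δ ∧ (∀ r ∈ R, r ∈ V → δ r = 0) ∧ ∃ v ∈ V, δ v ≠ 0 := by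
  obtain ⟨f, h1, v, h2⟩ := exists_hom V hV K h
  obtain ⟨δ, hδ⟩ := lift_fn V fun v => Multiplicative.toAdd (f v)
  refine ⟨δ, ?_, ?_, v, v.2, ?_⟩
  · intro g hg k hk
    have e1 := hδ (⟨g, hg⟩ * ⟨k, hk⟩)
    have e2 := hδ ⟨g, hg⟩
    have e3 := hδ ⟨k, hk⟩
    rw [map_mul, toAdd_mul] at e1
    rw [hχ g hg, Units.val_one, one_mul]
    change δ (g * k) = _ at e1
    change δ g = _ at e2
    change δ k = _ at e3
    rw [e1, e2, e3]
  · intro r hr hrV
    have e1 := hδ ⟨r, hrV⟩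
    change δ r = _ at e1
    rw [e1, h1 ⟨r, hrV⟩ hr]
    rfl
  · rw [hδ v]
    intro h3
    exact h2 h3

/-- corestriction -/
noncomputable def cor {I : Type*} [Group I] [Fintype I] (χ : F →* Kˣ) (ε : F →* I) (T : I → F)
    (δ : F → K) (g : F) : K :=
  ∑ i, (((χ (T i))⁻¹ : Kˣ) : K) * δ (T i * g * (T (i * ε g))⁻¹)

theorem cor_der {I : Type*} [Group I] [Fintype I] (ε : F →* I) {T : I → F}
    (hTU : ∀ i, T i ∈ U) (hT : ∀ i, ε (T i) = i) {δ : F → K} (hδ : Der χ (U ⊓ ε.ker) δ) :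
    Der χ U (cor χ ε T δ) := by
  intro g hg k hk
  have hm : ∀ i, ∀ g ∈ U, T i * g * (T (i * ε g))⁻¹ ∈ U ⊓ ε.ker := by
    intro i g hg
    refine ⟨U.mul_mem (U.mul_mem (hTU _) hg) (U.inv_mem (hTU _)), ?_⟩
    change ε _ = 1
    rw [map_mul, map_mul, map_inv, hT, hT, mul_inv_cancel]
  have key : ∀ i ∈ Finset.univ, (((χ (T i))⁻¹ : Kˣ) : K) *
      δ (T i * (g * k) * (T (i * ε (g * k)))⁻¹) =
      (((χ (T i))⁻¹ : Kˣ) : K) * δ (T i * g * (T (i * ε g))⁻¹) +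
      χ g * ((((χ (T (i * ε g)))⁻¹ : Kˣ) : K) *
        δ (T (i * ε g) * k * (T (i * ε g * ε k))⁻¹)) := by
    intro i _
    have e1 : T i * (g * k) * (T (i * ε (g * k)))⁻¹ = (T i * g * (T (i * ε g))⁻¹) *
        (T (i * ε g) * k * (T (i * ε g * ε k))⁻¹) := by
      rw [map_mul, mul_assoc i]
      group
    rw [e1, hδ _ (hm i g hg) _ (hm (i * ε g) k hk), map_mul, map_mul, map_inv, mul_add]
    congr 1
    rw [Units.val_mul, Units.val_mul]
    have e2 : (((χ (T i))⁻¹ : Kˣ) : K) * χ (T i) = 1 := Units.inv_mul _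
    linear_combination (χ g : K) * (((χ (T (i * ε g)))⁻¹ : Kˣ) : K) *
      δ (T (i * ε g) * k * (T (i * ε g * ε k))⁻¹) * e2
  rw [cor, Finset.sum_congr rfl key, Finset.sum_add_distrib, ← Finset.mul_sum]
  rw [cor, cor]
  congr 2
  exact Equiv.sum_comp (Equiv.mulRight (ε g))
    fun i => (((χ (T i))⁻¹ : Kˣ) : K) * δ (T i * k * (T (i * ε k))⁻¹)

theorem cor_R {I : Type*} [Group I] [Fintype I] (ε : F →* I) {T : I → F}
    (hTU : ∀ i, T i ∈ U) {φ : F → K} (hφ : IsFn χ φ) {δ : F → K}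
    (hδ : ∀ r ∈ R, r ∈ U ⊓ ε.ker → δ r = φ r) {r : F} (hr : r ∈ R) (hrU : r ∈ U) (hε : ε r = 1) :
    cor χ ε T δ r = Fintype.card I * φ r := by
  have key : ∀ i ∈ Finset.univ, (((χ (T i))⁻¹ : Kˣ) : K) *
      δ (T i * r * (T (i * ε r))⁻¹) = φ r := by
    intro i _
    rw [hε, mul_one, hδ _ ((inferInstance : R.Normal).conj_mem _ hr _) ⟨U.mul_mem
      (U.mul_mem (hTU _) hrU) (U.inv_mem (hTU _)), by
        change ε _ = 1
        rw [map_mul, map_mul, map_inv, hε, mul_one, mul_inv_cancel]⟩, hφ.eqv _ _ hr, ← mul_assoc,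
      Units.inv_mul, one_mul]
  rw [cor, Finset.sum_congr rfl key, Finset.sum_const, Finset.card_univ, nsmul_eq_mul]

/-- extension from a normal subgroup of prime index -/
theorem ext_up {I : Type*} [Group I] [Fintype I] (ε : F →* I) (hεR : ∀ r ∈ R, ε r = 1)
    (hs : ∀ i, ∃ c ∈ U, ε c = i) (hI : (Fintype.card I : K) ≠ 0) {φ : F → K} (hφ : IsFn χ φ)
    (h : Ext χ (U ⊓ ε.ker) φ) : Ext χ U φ := by
  choose T hTU hT using hs
  obtain ⟨δ, h1, h2⟩ := h
  refine ⟨fun g => (Fintype.card I : K)⁻¹ * cor χ ε T δ g, (cor_der ε hTU hT h1).smul _, ?_⟩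
  intro r hr hrU
  simp only
  rw [cor_R ε hTU hφ h2 hr hrU (hεR r hr), ← mul_assoc, inv_mul_cancel₀ hI, one_mul]

end der

theorem surj3 {U : Subgroup F} (h : ∃ u ∈ U, Ex3 u ≠ 1) (i : Multiplicative (ZMod 3)) :
    ∃ c ∈ U, Ex3 c = i := by
  obtain ⟨u, hu, h1⟩ := h
  have h2 : ∀ a : Multiplicative (ZMod 3), a ≠ 1 → ∀ i, ∃ n : Fin 3, a ^ (n : ℕ) = i := by decide
  obtain ⟨n, hn⟩ := h2 _ h1 i
  exact ⟨u ^ (n : ℕ), U.pow_mem hu _, by rw [map_pow, hn]⟩

theorem surj2 {U : Subgroup F} (h : ∃ u ∈ U, Ez2 u ≠ 1) (i : Multiplicative (ZMod 2)) :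
    ∃ c ∈ U, Ez2 c = i := by
  obtain ⟨u, hu, h1⟩ := h
  have h2 : ∀ a : Multiplicative (ZMod 2), a ≠ 1 → ∀ i, ∃ n : Fin 2, a ^ (n : ℕ) = i := by decide
  obtain ⟨n, hn⟩ := h2 _ h1 i
  exact ⟨u ^ (n : ℕ), U.pow_mem hu _, by rw [map_pow, hn]⟩

theorem Ex3_R {r : F} (hr : r ∈ R) : Ex3 r = 1 := rho_R mul_three (one_pow 2) hr

theorem Ez2_R {r : F} (hr : r ∈ R) : Ez2 r = 1 :=
  rho_R (one_pow 3) (by rw [pow_two]; exact mul_two) hr

theorem chi2 {K : Type*} [Field K] (w : Kˣ) (hw : w ^ 3 = 1) :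
    rho w 1 1 1 = (zm 3 w hw).comp Ex3 := by
  apply rho_ext
  · rw [MonoidHom.comp_apply, Ex3, rho0, rho0]
    exact (pow_one _).symm
  · rw [MonoidHom.comp_apply, Ex3, rho1, rho1, map_one]
  · rw [MonoidHom.comp_apply, Ex3, rho2, rho2, map_one]
  · rw [MonoidHom.comp_apply, Ex3, rho3, rho3, map_one]

theorem chi3 : rho 1 1 (red (-1)) 1 = (zm 2 (red (-1)) red_sq).comp Ez2 := by
  apply rho_ext
  · rw [MonoidHom.comp_apply, Ez2, rho0, rho0, map_one]
  · rw [MonoidHom.comp_apply, Ez2, rho1, rho1, map_one]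
  · rw [MonoidHom.comp_apply, Ez2, rho2, rho2]
    exact (pow_one _).symm
  · rw [MonoidHom.comp_apply, Ez2, rho3, rho3, map_one]

theorem chi2_ne {K : Type*} [Field K] (w : Kˣ) (hw : w ^ 3 = 1) (hw1 : w ≠ 1) {g : F}
    (hg : Ex3 g ≠ 1) : rho w 1 1 1 g ≠ 1 := by
  rw [chi2 w hw, MonoidHom.comp_apply]
  change w ^ (ZMod.val (Multiplicative.toAdd (Ex3 g) : ZMod 3)) ≠ 1
  obtain ⟨v, hv⟩ : ∃ v : ZMod 3, v = Multiplicative.toAdd (Ex3 g) := ⟨_, rfl⟩
  have hv0 : v ≠ 0 := by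
    rintro rfl
    exact hg hv.symm
  rw [← hv]
  fin_cases v
  · exact absurd rfl hv0
  · change w ^ 1 ≠ 1
    rwa [pow_one]
  · change w ^ 2 ≠ 1
    intro h2
    rw [pow_succ, h2, one_mul] at hw
    exact hw1 hw

theorem chi3_ne {g : F} (hg : Ez2 g ≠ 1) : rho 1 1 (red (-1)) 1 g ≠ 1 := by
  rw [chi3, MonoidHom.comp_apply]
  change red (-1) ^ (ZMod.val (Multiplicative.toAdd (Ez2 g) : ZMod 2)) ≠ 1
  obtain ⟨v, hv⟩ : ∃ v : ZMod 2, v = Multiplicative.toAdd (Ez2 g) := ⟨_, rfl⟩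
  have hv0 : v ≠ 0 := by
    rintro rfl
    exact hg hv.symm
  rw [← hv]
  fin_cases v
  · exact absurd rfl hv0
  · change (red (-1)) ^ 1 ≠ 1
    rw [pow_one]
    exact red_ne

end RG58
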