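import Pool.Agent.Lib.RG58.Func

/-! The concrete functionals (helper58). -/

set_option autoImplicit false

namespace RG58

open FreeGroup (of)

theorem rel_cases {P : F → Prop} (h1 : P (of 0 ^ 3)) (h2 : P (of 2 ^ 2))
    (h3 : P (of 0 * of 1 * (of 0)⁻¹ * (of 1)⁻¹)) (h4 : P (of 2 * of 3 * (of 2)⁻¹ * (of 3)⁻¹)) :
    ∀ s ∈ stdRel, P s := by
  intro s hs
  simp only [stdRel, Set.mem_insert_iff, Set.mem_singleton_iff] at hs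
  rcases hs with rfl | rfl | rfl | rfl
  · exact h1
  · exact h2
  · exact h3
  · exact h4

/-- the homomorphism with prescribed images of the generators -/
def rho {G : Type*} [Group G] (a b c d : G) : F →* G := FreeGroup.lift ![a, b, c, d]

section

variable {G : Type*} [Group G] (a b c d : G)

theorem rho0 : rho a b c d (of 0) = a := by simp [rho]
theorem rho1 : rho a b c d (of 1) = b := by simp [rho]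
theorem rho2 : rho a b c d (of 2) = c := by simp [rho]
theorem rho3 : rho a b c d (of 3) = d := by simp [rho]

end

/-- the corner element -/
def cn {K : Type*} [CommRing K] (q : K) : TH K := ⟨1, 0, 0, q⟩

theorem cn_mem {K : Type*} [CommRing K] (q : K) : cn q ∈ TH.corner K := ⟨rfl, rfl, rfl⟩

/-- data of one functional: values on the four relators -/
theorem fn_of {K : Type*} [Field K] {a b c d : TH K} {q0 q1 q2 q3 : K}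
    (h0 : a ^ 3 = cn q0) (h1 : c ^ 2 = cn q1) (h2 : a * b * a⁻¹ * b⁻¹ = cn q2)
    (h3 : c * d * c⁻¹ * d⁻¹ = cn q3) :
    IsFn (TH.chi.comp (rho a b c d)) (fun g => (rho a b c d g).q) ∧
      (rho a b c d (of 0 ^ 3)).q = q0 ∧ (rho a b c d (of 2 ^ 2)).q = q1 ∧
      (rho a b c d (of 0 * of 1 * (of 0)⁻¹ * (of 1)⁻¹)).q = q2 ∧
      (rho a b c d (of 2 * of 3 * (of 2)⁻¹ * (of 3)⁻¹)).q = q3 := by
  have e0 : rho a b c d (of 0 ^ 3) = cn q0 := by rw [map_pow, rho0, h0]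
  have e1 : rho a b c d (of 2 ^ 2) = cn q1 := by rw [map_pow, rho2, h1]
  have e2 : rho a b c d (of 0 * of 1 * (of 0)⁻¹ * (of 1)⁻¹) = cn q2 := by
    rw [map_mul, map_mul, map_mul, map_inv, map_inv, rho0, rho1, h2]
  have e3 : rho a b c d (of 2 * of 3 * (of 2)⁻¹ * (of 3)⁻¹) = cn q3 := by
    rw [map_mul, map_mul, map_mul, map_inv, map_inv, rho2, rho3, h3]
  refine ⟨isFn_of _ (rel_cases ?_ ?_ ?_ ?_), ?_, ?_, ?_, ?_⟩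
  · rw [e0]; exact cn_mem _
  · rw [e1]; exact cn_mem _
  · rw [e2]; exact cn_mem _
  · rw [e3]; exact cn_mem _
  · rw [e0]; rfl
  · rw [e1]; rfl
  · rw [e2]; rfl
  · rw [e3]; rfl

theorem comm_we {K : Type*} [CommRing K] (w : Kˣ) :
    (⟨w, 0, 0, 0⟩ : TH K) * ⟨1, 0, 0, 1⟩ * (⟨w, 0, 0, 0⟩ : TH K)⁻¹ * (⟨1, 0, 0, 1⟩ : TH K)⁻¹
      = cn ((w : K) - 1) := by
  ext <;> simp [TH.mul_u, TH.mul_p, TH.mul_s, TH.mul_q, TH.inv_u, TH.inv_p, TH.inv_s, TH.inv_q,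
    cn]
  ring

/-- all characters of one family agree -/
theorem chi_rho {K : Type*} [Field K] (a b c d : TH K) :
    TH.chi.comp (rho a b c d) = rho a.u b.u c.u d.u := by
  ext i
  fin_cases i <;> simp [rho, TH.chi]

section two

variable {K : Type*} [Field K] (h2 : (2 : K) = 0) (w : Kˣ) (hw : w ^ 3 = 1)

include h2 hw

theorem fz : IsFn (rho w 1 1 1) (fun g => (rho (⟨w, 0, 0, 0⟩ : TH K) 1 ⟨1, 1, 1, 0⟩ 1 g).q) ∧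
    (rho (⟨w, 0, 0, 0⟩ : TH K) 1 ⟨1, 1, 1, 0⟩ 1 (of 0 ^ 3)).q = 0 ∧
    (rho (⟨w, 0, 0, 0⟩ : TH K) 1 ⟨1, 1, 1, 0⟩ 1 (of 2 ^ 2)).q = 1 ∧
    (rho (⟨w, 0, 0, 0⟩ : TH K) 1 ⟨1, 1, 1, 0⟩ 1 (of 0 * of 1 * (of 0)⁻¹ * (of 1)⁻¹)).q = 0 ∧
    (rho (⟨w, 0, 0, 0⟩ : TH K) 1 ⟨1, 1, 1, 0⟩ 1 (of 2 * of 3 * (of 2)⁻¹ * (of 3)⁻¹)).q = 0 := by
  have h := fn_of (K := K) (a := ⟨w, 0, 0, 0⟩) (b := 1) (c := ⟨1, 1, 1, 0⟩) (d := 1)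
    (q0 := 0) (q1 := 1) (q2 := 0) (q3 := 0) ?_ ?_ ?_ ?_
  · rwa [chi_rho] at h
  · rw [pow_succ, pow_two]
    ext <;> simp [TH.mul_u, TH.mul_p, TH.mul_s, TH.mul_q, cn]
    have h3 : (w : K) ^ 3 = 1 := by rw [← Units.val_pow_eq_pow_val, hw, Units.val_one]
    linear_combination h3
  · rw [pow_two]
    ext <;> simp [TH.mul_u, TH.mul_p, TH.mul_s, TH.mul_q, cn]
    · linear_combination h2
    · linear_combination h2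
  · rw [mul_one, mul_inv_cancel, inv_one, mul_one]
    rfl
  · rw [mul_one, mul_inv_cancel, inv_one, mul_one]
    rfl

theorem fzt : IsFn (rho w 1 1 1)
      (fun g => (rho (⟨w, 0, 0, 0⟩ : TH K) 1 ⟨1, 1, 0, 0⟩ ⟨1, 0, 1, 0⟩ g).q) ∧
    (rho (⟨w, 0, 0, 0⟩ : TH K) 1 ⟨1, 1, 0, 0⟩ ⟨1, 0, 1, 0⟩ (of 0 ^ 3)).q = 0 ∧
    (rho (⟨w, 0, 0, 0⟩ : TH K) 1 ⟨1, 1, 0, 0⟩ ⟨1, 0, 1, 0⟩ (of 2 ^ 2)).q = 0 ∧
    (rho (⟨w, 0, 0, 0⟩ : TH K) 1 ⟨1, 1, 0, 0⟩ ⟨1, 0, 1, 0⟩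
      (of 0 * of 1 * (of 0)⁻¹ * (of 1)⁻¹)).q = 0 ∧
    (rho (⟨w, 0, 0, 0⟩ : TH K) 1 ⟨1, 1, 0, 0⟩ ⟨1, 0, 1, 0⟩
      (of 2 * of 3 * (of 2)⁻¹ * (of 3)⁻¹)).q = 1 := by
  have h := fn_of (K := K) (a := ⟨w, 0, 0, 0⟩) (b := 1) (c := ⟨1, 1, 0, 0⟩) (d := ⟨1, 0, 1, 0⟩)
    (q0 := 0) (q1 := 0) (q2 := 0) (q3 := 1) ?_ ?_ ?_ ?_
  · rwa [chi_rho] at h
  · rw [pow_succ, pow_two]
    ext <;> simp [TH.mul_u, TH.mul_p, TH.mul_s, TH.mul_q, cn]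
    have h3 : (w : K) ^ 3 = 1 := by rw [← Units.val_pow_eq_pow_val, hw, Units.val_one]
    linear_combination h3
  · rw [pow_two]
    ext <;> simp [TH.mul_u, TH.mul_p, TH.mul_s, TH.mul_q, cn]
    linear_combination h2
  · rw [mul_one, mul_inv_cancel, inv_one, mul_one]
    rfl
  · ext <;> simp [TH.mul_u, TH.mul_p, TH.mul_s, TH.mul_q, TH.inv_u, TH.inv_p, TH.inv_s, TH.inv_q,
      cn]

omit h2 in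
theorem fy : IsFn (rho w 1 1 1) (fun g => (rho (⟨w, 0, 0, 0⟩ : TH K) ⟨1, 0, 0, 1⟩ 1 1 g).q) ∧
    (rho (⟨w, 0, 0, 0⟩ : TH K) ⟨1, 0, 0, 1⟩ 1 1 (of 0 ^ 3)).q = 0 ∧
    (rho (⟨w, 0, 0, 0⟩ : TH K) ⟨1, 0, 0, 1⟩ 1 1 (of 2 ^ 2)).q = 0 ∧
    (rho (⟨w, 0, 0, 0⟩ : TH K) ⟨1, 0, 0, 1⟩ 1 1 (of 0 * of 1 * (of 0)⁻¹ * (of 1)⁻¹)).q = w - 1 ∧
    (rho (⟨w, 0, 0, 0⟩ : TH K) ⟨1, 0, 0, 1⟩ 1 1 (of 2 * of 3 * (of 2)⁻¹ * (of 3)⁻¹)).q = 0 := by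
  have h := fn_of (K := K) (a := ⟨w, 0, 0, 0⟩) (b := ⟨1, 0, 0, 1⟩) (c := 1) (d := 1)
    (q0 := 0) (q1 := 0) (q2 := (w : K) - 1) (q3 := 0) ?_ ?_ ?_ ?_
  · rwa [chi_rho] at h
  · rw [pow_succ, pow_two]
    ext <;> simp [TH.mul_u, TH.mul_p, TH.mul_s, TH.mul_q, cn]
    have h3 : (w : K) ^ 3 = 1 := by rw [← Units.val_pow_eq_pow_val, hw, Units.val_one]
    linear_combination h3
  · rw [one_pow]; rfl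
  · exact comm_we _
  · rw [one_mul, inv_one, mul_one, mul_one]; rfl

end two

section twotriv

/-- trivial module of characteristic 2, the exponent sum of `x` -/
theorem fx2 : IsFn (rho 1 1 1 1) (fun g => (rho (⟨1, 0, 0, 1⟩ : TH (ZMod 2)) 1 1 1 g).q) ∧
    (rho (⟨1, 0, 0, 1⟩ : TH (ZMod 2)) 1 1 1 (of 0 ^ 3)).q = 1 ∧
    (rho (⟨1, 0, 0, 1⟩ : TH (ZMod 2)) 1 1 1 (of 2 ^ 2)).q = 0 ∧
    (rho (⟨1, 0, 0, 1⟩ : TH (ZMod 2)) 1 1 1 (of 0 * of 1 * (of 0)⁻¹ * (of 1)⁻¹)).q = 0 ∧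
    (rho (⟨1, 0, 0, 1⟩ : TH (ZMod 2)) 1 1 1 (of 2 * of 3 * (of 2)⁻¹ * (of 3)⁻¹)).q = 0 := by
  have h := fn_of (K := ZMod 2) (a := ⟨1, 0, 0, 1⟩) (b := 1) (c := 1) (d := 1)
    (q0 := 1) (q1 := 0) (q2 := 0) (q3 := 0) ?_ ?_ ?_ ?_
  · rwa [chi_rho] at h
  · rw [pow_succ, pow_two]
    ext <;> simp [TH.mul_u, TH.mul_p, TH.mul_s, TH.mul_q, cn]
    decide
  · rw [one_pow]; rfl
  · rw [mul_one, mul_inv_cancel, inv_one, mul_one]; rfl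
  · rw [one_mul, inv_one, mul_one, mul_one]; rfl

end twotriv

section three

variable (e : (ZMod 3)ˣ) (he : e ^ 2 = 1)

include he

theorem fxy : IsFn (rho 1 1 e 1)
      (fun g => (rho (⟨1, 1, 0, 0⟩ : TH (ZMod 3)) ⟨1, 0, 1, 0⟩ ⟨e, 0, 0, 0⟩ 1 g).q) ∧
    (rho (⟨1, 1, 0, 0⟩ : TH (ZMod 3)) ⟨1, 0, 1, 0⟩ ⟨e, 0, 0, 0⟩ 1 (of 0 ^ 3)).q = 0 ∧
    (rho (⟨1, 1, 0, 0⟩ : TH (ZMod 3)) ⟨1, 0, 1, 0⟩ ⟨e, 0, 0, 0⟩ 1 (of 2 ^ 2)).q = 0 ∧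
    (rho (⟨1, 1, 0, 0⟩ : TH (ZMod 3)) ⟨1, 0, 1, 0⟩ ⟨e, 0, 0, 0⟩ 1
      (of 0 * of 1 * (of 0)⁻¹ * (of 1)⁻¹)).q = 1 ∧
    (rho (⟨1, 1, 0, 0⟩ : TH (ZMod 3)) ⟨1, 0, 1, 0⟩ ⟨e, 0, 0, 0⟩ 1
      (of 2 * of 3 * (of 2)⁻¹ * (of 3)⁻¹)).q = 0 := by
  have h := fn_of (K := ZMod 3) (a := ⟨1, 1, 0, 0⟩) (b := ⟨1, 0, 1, 0⟩) (c := ⟨e, 0, 0, 0⟩) (d := 1)
    (q0 := 0) (q1 := 0) (q2 := 1) (q3 := 0) ?_ ?_ ?_ ?_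
  · rwa [chi_rho] at h
  · rw [pow_succ, pow_two]
    ext <;> simp [TH.mul_u, TH.mul_p, TH.mul_s, TH.mul_q, cn]
    decide
  · rw [pow_two]
    ext <;> simp [TH.mul_u, TH.mul_p, TH.mul_s, TH.mul_q, cn]
    have h3 : (e : ZMod 3) ^ 2 = 1 := by rw [← Units.val_pow_eq_pow_val, he, Units.val_one]
    linear_combination h3
  · ext <;> simp [TH.mul_u, TH.mul_p, TH.mul_s, TH.mul_q, TH.inv_u, TH.inv_p, TH.inv_s, TH.inv_q,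
      cn]
  · rw [mul_one, mul_inv_cancel, inv_one, mul_one]
    rfl

theorem ft : IsFn (rho 1 1 e 1)
      (fun g => (rho (1 : TH (ZMod 3)) 1 ⟨e, 0, 0, 0⟩ ⟨1, 0, 0, 1⟩ g).q) ∧
    (rho (1 : TH (ZMod 3)) 1 ⟨e, 0, 0, 0⟩ ⟨1, 0, 0, 1⟩ (of 0 ^ 3)).q = 0 ∧
    (rho (1 : TH (ZMod 3)) 1 ⟨e, 0, 0, 0⟩ ⟨1, 0, 0, 1⟩ (of 2 ^ 2)).q = 0 ∧
    (rho (1 : TH (ZMod 3)) 1 ⟨e, 0, 0, 0⟩ ⟨1, 0, 0, 1⟩
      (of 0 * of 1 * (of 0)⁻¹ * (of 1)⁻¹)).q = 0 ∧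
    (rho (1 : TH (ZMod 3)) 1 ⟨e, 0, 0, 0⟩ ⟨1, 0, 0, 1⟩
      (of 2 * of 3 * (of 2)⁻¹ * (of 3)⁻¹)).q = e - 1 := by
  have h := fn_of (K := ZMod 3) (a := 1) (b := 1) (c := ⟨e, 0, 0, 0⟩) (d := ⟨1, 0, 0, 1⟩)
    (q0 := 0) (q1 := 0) (q2 := 0) (q3 := (e : ZMod 3) - 1) ?_ ?_ ?_ ?_
  · rwa [chi_rho] at h
  · rw [one_pow]; rfl
  · rw [pow_two]
    ext <;> simp [TH.mul_u, TH.mul_p, TH.mul_s, TH.mul_q, cn]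
    have h3 : (e : ZMod 3) ^ 2 = 1 := by rw [← Units.val_pow_eq_pow_val, he, Units.val_one]
    linear_combination h3
  · rw [one_mul, inv_one, mul_one, mul_one]; rfl
  · exact comm_we _

end three

/-- trivial module of characteristic 3, the exponent sum of `z` -/
theorem fz3 : IsFn (rho 1 1 1 1) (fun g => (rho (1 : TH (ZMod 3)) 1 ⟨1, 0, 0, 1⟩ 1 g).q) ∧
    (rho (1 : TH (ZMod 3)) 1 ⟨1, 0, 0, 1⟩ 1 (of 0 ^ 3)).q = 0 ∧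
    (rho (1 : TH (ZMod 3)) 1 ⟨1, 0, 0, 1⟩ 1 (of 2 ^ 2)).q = 2 ∧
    (rho (1 : TH (ZMod 3)) 1 ⟨1, 0, 0, 1⟩ 1 (of 0 * of 1 * (of 0)⁻¹ * (of 1)⁻¹)).q = 0 ∧
    (rho (1 : TH (ZMod 3)) 1 ⟨1, 0, 0, 1⟩ 1 (of 2 * of 3 * (of 2)⁻¹ * (of 3)⁻¹)).q = 0 := by
  have h := fn_of (K := ZMod 3) (a := 1) (b := 1) (c := ⟨1, 0, 0, 1⟩) (d := 1)
    (q0 := 0) (q1 := 2) (q2 := 0) (q3 := 0) ?_ ?_ ?_ ?_
  · rwa [chi_rho] at h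
  · rw [one_pow]; rfl
  · rw [pow_two]
    ext <;> simp [TH.mul_u, TH.mul_p, TH.mul_s, TH.mul_q, cn]
    decide
  · rw [one_mul, inv_one, mul_one, mul_one]; rfl
  · rw [mul_one, mul_inv_cancel, inv_one, mul_one]; rfl

end RG58
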