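import Pool.Agent.Lib.RG58.CuFin

/-! The kernel of `F / R → Z_3 x Z_2` embeds into a free group (helper58). -/

set_option autoImplicit false

namespace RG58

open FreeGroup (of)
open Monoid

noncomputable section

/-- the cyclic group of order six -/
abbrev C6 : Type := Multiplicative (ZMod 3) × Multiplicative (ZMod 2)

/-- the letters of the big free group -/
inductive XX : Type
  | y (k : Multiplicative (ZMod 2)) : XX
  | t (i : Multiplicative (ZMod 3)) : XX
  | g (c : C6) : XX

/-- relabelling -/
def rl (c : C6) : XX → XX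
  | .y k => .y (c.2 * k)
  | .t i => .t (c.1 * i)
  | .g d => .g (c * d)

theorem rl_one (x : XX) : rl 1 x = x := by
  cases x <;> simp [rl]

theorem rl_mul (c d : C6) (x : XX) : rl (c * d) x = rl c (rl d x) := by
  cases x <;> simp [rl, mul_assoc]

/-- relabelling as a permutation -/
def rlp (c : C6) : XX ≃ XX where
  toFun := rl c
  invFun := rl c⁻¹
  left_inv x := by rw [← rl_mul, inv_mul_cancel, rl_one]
  right_inv x := by rw [← rl_mul, mul_inv_cancel, rl_one]

/-- the action on the free group -/
def ac : C6 →* MulAut (FreeGroup XX) where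
  toFun c := FreeGroup.freeGroupCongr (rlp c)
  map_one' := by
    ext x
    induction x using FreeGroup.induction_on with
    | C1 => simp
    | of x => simp [rlp, rl_one]
    | inv_of x h => simp [rlp, rl_one]
    | mul x y hx hy => rw [map_mul, hx, hy, map_mul]
  map_mul' c d := by
    ext x
    induction x using FreeGroup.induction_on with
    | C1 => simp
    | of x => simp [rlp, rl_mul]
    | inv_of x h => simp [rlp, rl_mul]
    | mul x y hx hy => rw [map_mul, hx, hy, map_mul]

theorem ac_of (c : C6) (x : XX) : ac c (of x) = of (rl c x) := by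
  simp [ac, rlp]

/-- the semidirect product -/
abbrev LC : Type := FreeGroup XX ⋊[ac] C6

/-- the image of `x` in the cyclic group -/
def cx : C6 := (Multiplicative.ofAdd 1, 1)
/-- the image of `z` in the cyclic group -/
def cz : C6 := (1, Multiplicative.ofAdd 1)

theorem cx3 : cx ^ 3 = 1 := by decide
theorem cz2 : cz ^ 2 = 1 := by decide

/-- the image of `x` -/
def ax : LC := SemidirectProduct.inr cx
/-- the image of `y` -/
def ay : LC := SemidirectProduct.inl (of (.y 1))
/-- the conjugating element -/
def ag : LC := SemidirectProduct.inl (of (.g 1))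
/-- the image of `z` -/
def az : LC := ag * SemidirectProduct.inr cz * ag⁻¹
/-- the image of `t` -/
def at' : LC := ag * SemidirectProduct.inl (of (.t 1)) * ag⁻¹

theorem ax3 : ax ^ 3 = 1 := by
  rw [ax, ← map_pow, cx3, map_one]

theorem az2 : az ^ 2 = 1 := by
  rw [az, conj_pow, ← map_pow, cz2, map_one, mul_one, mul_inv_cancel]

theorem comm_inl {c : C6} {x : XX} (h : rl c x = x) :
    Commute (SemidirectProduct.inr c : LC) (SemidirectProduct.inl (of x)) := by
  have h1 := SemidirectProduct.inl_aut (φ := ac) c (of x)
  rw [ac_of, h] at h1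
  rw [Commute, SemiconjBy]
  nth_rw 2 [h1]
  rw [map_inv]
  group

theorem axy : Commute ax ay := comm_inl rfl

theorem azt : Commute az at' := by
  have h := comm_inl (c := cz) (x := .t 1) rfl
  rw [az, at', Commute, SemiconjBy]
  calc _ = ag * (SemidirectProduct.inr cz * SemidirectProduct.inl (of (.t 1))) * ag⁻¹ := by group
    _ = _ := by rw [h.eq]; group

/-- the homomorphism to the semidirect product -/
def Om : F →* LC := rho ax ay az at'

theorem Om_R {r : F} (hr : r ∈ R) : Om r = 1 := by
  have h := bk_Th ax ay az at' ax3 az2 axy azt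
  rw [Om, ← h, MonoidHom.comp_apply, Th_R hr, map_one]

/-! ### the HNN extension -/

/-- the base group -/
abbrev E0 : Type := CoprodI MM × Multiplicative (ZMod 2)

/-- first embedding -/
def i1 : Multiplicative (ZMod 2) →* E0 := MonoidHom.inr _ _

/-- second embedding -/
def i2 : Multiplicative (ZMod 2) →* E0 :=
  (MonoidHom.inl (CoprodI MM) (Multiplicative (ZMod 2))).comp
    ((CoprodI.of (M := MM) (i := true)).comp
      (MonoidHom.inl (Multiplicative (ZMod 2)) (Multiplicative ℤ)))

theorem i1_inj : Function.Injective i1 := fun _ _ h => congrArg Prod.snd h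

theorem i2_inj : Function.Injective i2 := by
  intro a b h
  have h1 := CoprodI.of_injective (M := MM) true (congrArg Prod.fst h)
  exact congrArg Prod.fst h1

/-- the isomorphism of the associated subgroups -/
def ph : i1.range ≃* i2.range :=
  (MonoidHom.ofInjective i1_inj).symm.trans (MonoidHom.ofInjective i2_inj)

/-- the HNN extension -/
abbrev HN : Type := HNNExtension E0 i1.range i2.range ph

theorem ph_i1 (m : Multiplicative (ZMod 2)) :
    (ph (MonoidHom.ofInjective i1_inj m) : E0) = i2 m := by
  rw [ph, MulEquiv.trans_apply, MulEquiv.symm_apply_apply]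
  rfl

/-- inclusion of the base group -/
def io : E0 →* HN := HNNExtension.of
/-- stable letter -/
def it : HN := HNNExtension.t

theorem io_inj : Function.Injective io := HNNExtension.of_injective ph

theorem it_conj (m : Multiplicative (ZMod 2)) : it * io (i1 m) * it⁻¹ = io (i2 m) := by
  have h := HNNExtension.t_mul_of (φ := ph) (MonoidHom.ofInjective i1_inj m)
  rw [ph_i1] at h
  change it * io (i1 m) = io (i2 m) * it at h
  rw [h, mul_inv_cancel_right]

/-- `x` in the HNN extension -/
def ex : HN := io (CoprodI.of (g1 false), 1)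
/-- `y` in the HNN extension -/
def ey : HN := io (CoprodI.of (g2 false), 1)
/-- `z` in the HNN extension -/
def ez : HN := io (CoprodI.of (g1 true), 1)
/-- `t` in the HNN extension -/
def et : HN := io (CoprodI.of (g2 true), 1)
/-- the new element -/
def ec : HN := io (1, Multiplicative.ofAdd 1)

theorem ex3 : ex ^ 3 = 1 := by
  rw [ex, ← map_pow]
  have : ((CoprodI.of (g1 false), 1) : E0) ^ 3 = 1 := by
    ext1
    · change (CoprodI.of (g1 false) : CoprodI MM) ^ 3 = 1
      rw [← map_pow]
      have := g1_pow false
      rw [show (3 : ℕ) = kk false from rfl, this, map_one]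
    · rfl
  rw [this, map_one]

theorem ec2 : ec ^ 2 = 1 := by
  rw [ec, ← map_pow]
  have : ((1, Multiplicative.ofAdd 1) : E0) ^ 2 = 1 := by
    ext1
    · exact one_pow 2
    · rfl
  rw [this, map_one]

theorem ec_comm (h : CoprodI MM) : Commute ec (io (h, 1)) := by
  rw [Commute, SemiconjBy, ec, ← map_mul, ← map_mul]
  congr 1
  ext1
  · change 1 * h = h * 1
    rw [one_mul, mul_one]
  · rfl

theorem exy : Commute ex ey := by
  rw [Commute, SemiconjBy, ex, ey, ← map_mul, ← map_mul]
  congr 1
  ext1
  · change (CoprodI.of (g1 false) : CoprodI MM) * CoprodI.of (g2 false) = _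
    exact ((g_comm false).map _).eq
  · rfl

theorem ezt : Commute ez et := by
  rw [Commute, SemiconjBy, ez, et, ← map_mul, ← map_mul]
  congr 1
  ext1
  · change (CoprodI.of (g1 true) : CoprodI MM) * CoprodI.of (g2 true) = _
    exact ((g_comm true).map _).eq
  · rfl

theorem it_ec : it * ec * it⁻¹ = ez := it_conj (Multiplicative.ofAdd 1)

/-- the conjugate of `t` -/
def et' : HN := it⁻¹ * et * it

theorem ec_et' : Commute ec et' := by
  have h : ec = it⁻¹ * ez * it := by rw [← it_ec]; group
  rw [h, et', Commute, SemiconjBy]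
  calc _ = it⁻¹ * (ez * et) * it := by group
    _ = _ := by rw [ezt.eq]; group

/-- the map on the cyclic group -/
def pc : C6 →* HN :=
  MonoidHom.noncommCoprod (zm 3 ex ex3) (zm 2 ec ec2)
    (fun _ _ => ((ec_comm _).symm.pow_left _).pow_right _)

theorem pc_apply (c : C6) : pc c =
    ex ^ (Multiplicative.toAdd c.1).val * ec ^ (Multiplicative.toAdd c.2).val := rfl

/-- the map on the letters -/
def px : XX → HN
  | .y _ => ey
  | .t i => pc (i, 1) * et' * (pc (i, 1))⁻¹
  | .g c => pc c * it * (pc c)⁻¹

/-- the map on the free group -/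
def pL : FreeGroup XX →* HN := FreeGroup.lift px

theorem pL_of (x : XX) : pL (of x) = px x := by
  rw [pL, FreeGroup.lift_apply_of]

theorem px_rl (c : C6) (x : XX) : px (rl c x) = pc c * px x * (pc c)⁻¹ := by
  cases x with
  | y k =>
    change ey = pc c * ey * (pc c)⁻¹
    have h : Commute (pc c) ey := by
      rw [pc_apply]
      exact (exy.pow_left _).mul_left ((ec_comm _).pow_left _)
    rw [h.eq, mul_inv_cancel_right]
  | t i =>
    change pc (c.1 * i, 1) * et' * (pc (c.1 * i, 1))⁻¹ =
      pc c * (pc (i, 1) * et' * (pc (i, 1))⁻¹) * (pc c)⁻¹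
    have h1 : pc c * pc (i, 1) = pc (c.1 * i, 1) * pc (1, c.2) := by
      rw [← map_mul, ← map_mul]
      congr 1
      ext1
      · change c.1 * i = c.1 * i * 1
        rw [mul_one]
      · change c.2 * 1 = 1 * c.2
        rw [mul_one, one_mul]
    have h2 : Commute (pc (1, c.2)) et' := by
      rw [pc_apply]
      change Commute (ex ^ 0 * _) _
      rw [pow_zero, one_mul]
      exact ec_et'.pow_left _
    calc _ = pc (c.1 * i, 1) * (et' * pc (1, c.2)) * (pc (1, c.2))⁻¹ * (pc (c.1 * i, 1))⁻¹ := by
          group
      _ = (pc (c.1 * i, 1) * pc (1, c.2)) * et' * (pc (c.1 * i, 1) * pc (1, c.2))⁻¹ := by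
          rw [← h2.eq]; group
      _ = _ := by rw [← h1]; group
  | g d =>
    change pc (c * d) * it * (pc (c * d))⁻¹ = pc c * (pc d * it * (pc d)⁻¹) * (pc c)⁻¹
    rw [map_mul]
    group

/-- the map from the semidirect product -/
def pLC : LC →* HN := SemidirectProduct.lift pL pc (by
  intro c
  ext x
  simp only [MonoidHom.comp_apply, MulEquiv.coe_toMonoidHom, MulAut.conj_apply]
  rw [ac_of, pL_of, pL_of, px_rl])

theorem pLC_Om : pLC.comp Om =
    (io.comp (MonoidHom.inl (CoprodI MM) (Multiplicative (ZMod 2)))).comp Th := by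
  have hg : pLC ag = it := by
    rw [ag, pLC, SemidirectProduct.lift_inl, pL_of]
    change pc 1 * it * (pc 1)⁻¹ = it
    rw [map_one]
    group
  have hc : pLC (SemidirectProduct.inr cz) = ec := by
    rw [pLC, SemidirectProduct.lift_inr, pc_apply]
    change ex ^ 0 * ec ^ 1 = ec
    rw [pow_zero, one_mul, pow_one]
  apply rho_ext
  · rw [MonoidHom.comp_apply, Om, rho0, MonoidHom.comp_apply, Th, rho0, ax, pLC,
      SemidirectProduct.lift_inr, pc_apply]
    change ex ^ 1 * ec ^ 0 = ex
    rw [pow_zero, mul_one, pow_one]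
  · rw [MonoidHom.comp_apply, Om, rho1, MonoidHom.comp_apply, Th, rho1, ay, pLC,
      SemidirectProduct.lift_inl, pL_of]
    rfl
  · rw [MonoidHom.comp_apply, Om, rho2, MonoidHom.comp_apply, Th, rho2, az, map_mul, map_mul,
      map_inv, hg, hc, it_ec]
    rfl
  · rw [MonoidHom.comp_apply, Om, rho3, MonoidHom.comp_apply, Th, rho3, at', map_mul, map_mul,
      map_inv, hg, pLC, SemidirectProduct.lift_inl, pL_of]
    change it * (pc 1 * (it⁻¹ * et * it) * (pc 1)⁻¹) * it⁻¹ = et
    rw [map_one]
    group

theorem Om_ker {g : F} (hg : Om g = 1) : g ∈ R := by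
  apply Th_ker
  have h := DFunLike.congr_fun pLC_Om g
  rw [MonoidHom.comp_apply, hg, map_one, MonoidHom.comp_apply] at h
  have h1 := io_inj (h.symm.trans (map_one io).symm)
  exact congrArg Prod.fst h1

end

end RG58
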