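import Mathlib

/-! Equivariant functionals on the relation subgroup of `H = (Z_3 x Z) * (Z_2 x Z)` (helper58). -/

set_option autoImplicit false

namespace RG58

/-- the free group on `x = 0`, `y = 1`, `z = 2`, `t = 3` -/
abbrev F := FreeGroup (Fin 4)

/-- the four standard relators -/
def stdRel : Set F :=
  {FreeGroup.of 0 ^ 3,
    FreeGroup.of 2 ^ 2,
    FreeGroup.of 0 * FreeGroup.of 1 * (FreeGroup.of 0)⁻¹ * (FreeGroup.of 1)⁻¹,
    FreeGroup.of 2 * FreeGroup.of 3 * (FreeGroup.of 2)⁻¹ * (FreeGroup.of 3)⁻¹}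

/-- the normal closure of the standard relators -/
def R : Subgroup F := Subgroup.normalClosure stdRel

instance : R.Normal := Subgroup.normalClosure_normal

/-- additive, equivariant functionals on `R` -/
structure IsFn {K : Type*} [Field K] (χ : F →* Kˣ) (φ : F → K) : Prop where
  add : ∀ r ∈ R, ∀ s ∈ R, φ (r * s) = φ r + φ s
  eqv : ∀ g : F, ∀ r ∈ R, φ (g * r * g⁻¹) = χ g * φ r

section

variable {K : Type*} [Field K] {χ : F →* Kˣ} {φ : F → K}

theorem IsFn.one (h : IsFn χ φ) : φ 1 = 0 := by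
  have h1 := h.add 1 R.one_mem 1 R.one_mem
  rw [mul_one] at h1
  have h2 : φ 1 + φ 1 = φ 1 + 0 := by rw [add_zero]; exact h1.symm
  exact add_left_cancel h2

theorem IsFn.inv (h : IsFn χ φ) {r : F} (hr : r ∈ R) : φ r⁻¹ = - φ r := by
  have h1 := h.add r⁻¹ (R.inv_mem hr) r hr
  rw [inv_mul_cancel, h.one] at h1
  exact eq_neg_of_add_eq_zero_left h1.symm

theorem IsFn.pow (h : IsFn χ φ) {r : F} (hr : r ∈ R) (n : ℕ) : φ (r ^ n) = n * φ r := by
  induction n with
  | zero => rw [pow_zero, h.one]; simp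
  | succ n ih =>
    rw [pow_succ, h.add _ (R.pow_mem hr n) _ hr, ih]
    push_cast
    ring

/-- a functional vanishes on powers of elements on which the character is not trivial -/
theorem IsFn.pow_zero (h : IsFn χ φ) {u : F} (hu : χ u ≠ 1) {n : ℕ} (hn : u ^ n ∈ R) :
    φ (u ^ n) = 0 := by
  have h1 := h.eqv u _ hn
  have h2 : u * u ^ n * u⁻¹ = u ^ n := by
    rw [← pow_succ', pow_succ, mul_inv_cancel_right]
  rw [h2] at h1
  by_contra h3
  apply hu
  have h4 : (χ u : K) = 1 := by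
    have h5 : (χ u : K) * φ (u ^ n) = 1 * φ (u ^ n) := by rw [one_mul]; exact h1.symm
    exact mul_right_cancel₀ h3 h5
  exact Units.ext h4

end

/-- `R ^ 6 [R, R]` -/
def Q6 : Subgroup F :=
  Subgroup.closure ({a | ∃ b ∈ R, a = b ^ 6} ∪ {a | ∃ b ∈ R, ∃ c ∈ R, a = b * c * b⁻¹ * c⁻¹})

/-- `R ^ 6 [F, R]` -/
def P6 : Subgroup F :=
  Subgroup.closure ({a | ∃ b ∈ R, a = b ^ 6} ∪ {a | ∃ f : F, ∃ b ∈ R, a = f * b * f⁻¹ * b⁻¹})

theorem IsFn.q6 {K : Type*} [Field K] (h6 : (6 : K) = 0) {χ : F →* Kˣ} {φ : F → K}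
    (h : IsFn χ φ) {s : F} (hs : s ∈ Q6) : s ∈ R ∧ φ s = 0 := by
  induction hs using Subgroup.closure_induction with
  | mem x hx =>
    rcases hx with ⟨b, hb, rfl⟩ | ⟨b, hb, c, hc, rfl⟩
    · refine ⟨R.pow_mem hb 6, ?_⟩
      rw [h.pow hb]
      push_cast
      rw [h6, zero_mul]
    · refine ⟨R.mul_mem (R.mul_mem (R.mul_mem hb hc) (R.inv_mem hb)) (R.inv_mem hc), ?_⟩
      rw [h.add _ (R.mul_mem (R.mul_mem hb hc) (R.inv_mem hb)) _ (R.inv_mem hc),
        h.add _ (R.mul_mem hb hc) _ (R.inv_mem hb), h.add _ hb _ hc, h.inv hb, h.inv hc]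
      ring
  | one => exact ⟨R.one_mem, h.one⟩
  | mul x y _ _ hx hy =>
    refine ⟨R.mul_mem hx.1 hy.1, ?_⟩
    rw [h.add _ hx.1 _ hy.1, hx.2, hy.2, add_zero]
  | inv x _ hx =>
    refine ⟨R.inv_mem hx.1, ?_⟩
    rw [h.inv hx.1, hx.2, neg_zero]

theorem IsFn.p6 {K : Type*} [Field K] (h6 : (6 : K) = 0) {φ : F → K}
    (h : IsFn (1 : F →* Kˣ) φ) {s : F} (hs : s ∈ P6) : s ∈ R ∧ φ s = 0 := by
  induction hs using Subgroup.closure_induction with
  | mem x hx =>
    rcases hx with ⟨b, hb, rfl⟩ | ⟨f, b, hb, rfl⟩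
    · refine ⟨R.pow_mem hb 6, ?_⟩
      rw [h.pow hb]
      push_cast
      rw [h6, zero_mul]
    · have h1 : f * b * f⁻¹ ∈ R := (inferInstance : R.Normal).conj_mem b hb f
      refine ⟨R.mul_mem h1 (R.inv_mem hb), ?_⟩
      rw [h.add _ h1 _ (R.inv_mem hb), h.eqv f b hb, h.inv hb, MonoidHom.one_apply, Units.val_one]
      ring
  | one => exact ⟨R.one_mem, h.one⟩
  | mul x y _ _ hx hy =>
    refine ⟨R.mul_mem hx.1 hy.1, ?_⟩
    rw [h.add _ hx.1 _ hy.1, hx.2, hy.2, add_zero]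
  | inv x _ hx =>
    refine ⟨R.inv_mem hx.1, ?_⟩
    rw [h.inv hx.1, hx.2, neg_zero]

/-- three elements that generate `R` as a normal subgroup modulo `R ^ 6 [R, R]` -/
structure Gen (r : Fin 3 → F) : Prop where
  mem : ∀ k, r k ∈ R
  le : R ≤ Subgroup.normalClosure (Set.range r ∪ {a | ∃ b ∈ R, a = b ^ 6} ∪
    {a | ∃ b ∈ R, ∃ c ∈ R, a = b * c * b⁻¹ * c⁻¹})

/-- **key lemma**: three independent functionals; no relator of a presentation with three relators
is killed by all of them. -/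
theorem key {K : Type*} [Field K] (h6 : (6 : K) = 0) {χ : F →* Kˣ} {φ : Fin 3 → F → K}
    (h : ∀ j, IsFn χ (φ j))
    (hind : ∀ v : Fin 3 → K, (∀ s ∈ stdRel, ∑ j, φ j s * v j = 0) → v = 0)
    {r : Fin 3 → F} (hr : Gen r) (i : Fin 3) :
    ∃ j, φ j (r i) ≠ 0 := by
  by_contra hcon
  push Not at hcon
  obtain ⟨M, hM⟩ : ∃ M : Matrix (Fin 3) (Fin 3) K, M = Matrix.of fun k j => φ j (r k) := ⟨_, rfl⟩
  have hdet : M.det = 0 := by
    apply Matrix.det_eq_zero_of_row_eq_zero i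
    intro j
    rw [hM]
    exact hcon j
  obtain ⟨v, hv0, hv⟩ := Matrix.exists_mulVec_eq_zero_iff.2 hdet
  apply hv0
  let N : Subgroup F :=
    { carrier := {g | g ∈ R ∧ ∑ j, φ j g * v j = 0}
      one_mem' := ⟨R.one_mem, by
        apply Finset.sum_eq_zero
        intro j _
        rw [(h j).one, zero_mul]⟩
      mul_mem' := by
        rintro a b ⟨ha, ha'⟩ ⟨hb, hb'⟩
        refine ⟨R.mul_mem ha hb, ?_⟩
        have : ∀ j ∈ Finset.univ, φ j (a * b) * v j = φ j a * v j + φ j b * v j := by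
          intro j _
          rw [(h j).add a ha b hb, add_mul]
        rw [Finset.sum_congr rfl this, Finset.sum_add_distrib, ha', hb', add_zero]
      inv_mem' := by
        rintro a ⟨ha, ha'⟩
        refine ⟨R.inv_mem ha, ?_⟩
        have : ∀ j ∈ Finset.univ, φ j a⁻¹ * v j = - (φ j a * v j) := by
          intro j _
          rw [(h j).inv ha, neg_mul]
        rw [Finset.sum_congr rfl this, Finset.sum_neg_distrib, ha', neg_zero] }
  have hN : N.Normal := by
    constructor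
    rintro a ⟨ha, ha'⟩ g
    refine ⟨(inferInstance : R.Normal).conj_mem a ha g, ?_⟩
    have : ∀ j ∈ Finset.univ, φ j (g * a * g⁻¹) * v j = χ g * (φ j a * v j) := by
      intro j _
      rw [(h j).eqv g a ha, mul_assoc]
    change ∑ j, φ j (g * a * g⁻¹) * v j = 0
    rw [Finset.sum_congr rfl this, ← Finset.mul_sum, ha', mul_zero]
  have hle2 : Q6 ≤ N := by
    intro s hs
    refine ⟨((h 0).q6 h6 hs).1, ?_⟩
    apply Finset.sum_eq_zero
    intro j _
    rw [((h j).q6 h6 hs).2, zero_mul]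
  have hle1 : Subgroup.normalClosure (Set.range r ∪ {a | ∃ b ∈ R, a = b ^ 6} ∪
      {a | ∃ b ∈ R, ∃ c ∈ R, a = b * c * b⁻¹ * c⁻¹}) ≤ N := by
    apply Subgroup.normalClosure_le_normal
    rintro a ((⟨k, rfl⟩ | ha) | ha)
    · refine ⟨hr.mem k, ?_⟩
      have h1 := congrFun hv k
      rw [hM] at h1
      simpa [Matrix.mulVec, dotProduct] using h1
    · exact hle2 (Subgroup.subset_closure (Or.inl ha))
    · exact hle2 (Subgroup.subset_closure (Or.inr ha))
  have hle : R ≤ N := hr.le.trans hle1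
  apply hind
  intro s hs
  exact (hle (Subgroup.subset_normalClosure hs)).2

/-! ### the twisted Heisenberg group -/

/-- upper triangular matrices `(u, p, q; 0, 1, s; 0, 0, 1)` -/
@[ext] structure TH (K : Type*) [CommRing K] where
  u : Kˣ
  p : K
  s : K
  q : K

namespace TH

variable {K : Type*} [CommRing K]

instance : Mul (TH K) := ⟨fun a b => ⟨a.u * b.u, a.u * b.p + a.p, a.s + b.s,
  a.u * b.q + a.p * b.s + a.q⟩⟩
instance : One (TH K) := ⟨⟨1, 0, 0, 0⟩⟩
instance : Inv (TH K) := ⟨fun a => ⟨a.u⁻¹, - ((a.u⁻¹ : Kˣ) * a.p), - a.s,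
  (a.u⁻¹ : Kˣ) * (a.p * a.s - a.q)⟩⟩

theorem mul_u (a b : TH K) : (a * b).u = a.u * b.u := rfl
theorem mul_p (a b : TH K) : (a * b).p = a.u * b.p + a.p := rfl
theorem mul_s (a b : TH K) : (a * b).s = a.s + b.s := rfl
theorem mul_q (a b : TH K) : (a * b).q = a.u * b.q + a.p * b.s + a.q := rfl
theorem one_u : (1 : TH K).u = 1 := rfl
theorem one_p : (1 : TH K).p = 0 := rfl
theorem one_s : (1 : TH K).s = 0 := rfl
theorem one_q : (1 : TH K).q = 0 := rfl
theorem inv_u (a : TH K) : (a⁻¹).u = a.u⁻¹ := rfl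
theorem inv_p (a : TH K) : (a⁻¹).p = - ((a.u⁻¹ : Kˣ) * a.p) := rfl
theorem inv_s (a : TH K) : (a⁻¹).s = - a.s := rfl
theorem inv_q (a : TH K) : (a⁻¹).q = (a.u⁻¹ : Kˣ) * (a.p * a.s - a.q) := rfl

instance : Group (TH K) := Group.ofLeftAxioms
  (by
    intro a b c
    ext
    · simp only [mul_u, Units.val_mul]; ring
    · simp only [mul_u, mul_p, Units.val_mul]; ring
    · simp only [mul_s]; ring
    · simp only [mul_u, mul_p, mul_s, mul_q, Units.val_mul]; ring)
  (by
    intro a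
    ext
    · simp only [mul_u, one_u, one_mul]
    · simp only [mul_p, one_u, one_p, Units.val_one]; ring
    · simp only [mul_s, one_s]; ring
    · simp only [mul_q, one_u, one_p, one_q, Units.val_one]; ring)
  (by
    intro a
    ext
    · simp only [mul_u, inv_u, one_u, inv_mul_cancel]
    · simp only [mul_p, inv_u, inv_p, one_p]; ring
    · simp only [mul_s, inv_s, one_s]; ring
    · simp only [mul_q, inv_u, inv_p, inv_q, one_q]; ring)

/-- the character -/
def chi : TH K →* Kˣ where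
  toFun a := a.u
  map_one' := rfl
  map_mul' _ _ := rfl

/-- the abelian normal subgroup of the corner entries -/
def corner (K : Type*) [CommRing K] : Subgroup (TH K) where
  carrier := {a | a.u = 1 ∧ a.p = 0 ∧ a.s = 0}
  one_mem' := ⟨rfl, rfl, rfl⟩
  mul_mem' := by
    rintro a b ⟨h1, h2, h3⟩ ⟨h4, h5, h6⟩
    refine ⟨?_, ?_, ?_⟩
    · rw [mul_u, h1, h4, one_mul]
    · rw [mul_p, h2, h5]; ring
    · rw [mul_s, h3, h6]; ring
  inv_mem' := by
    rintro a ⟨h1, h2, h3⟩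
    refine ⟨?_, ?_, ?_⟩
    · rw [inv_u, h1, inv_one]
    · rw [inv_p, h2]; ring
    · rw [inv_s, h3]; ring

theorem conj_mem (a g : TH K) (ha : a ∈ corner K) :
    g * a * g⁻¹ ∈ corner K ∧ (g * a * g⁻¹).q = g.u * a.q := by
  obtain ⟨h1, h2, h3⟩ := ha
  have h4 : (g.u : K) * ((g.u⁻¹ : Kˣ) : K) = 1 := Units.mul_inv g.u
  refine ⟨⟨?_, ?_, ?_⟩, ?_⟩
  · simp only [mul_u, inv_u, h1, mul_one, mul_inv_cancel]
  · simp only [mul_u, mul_p, inv_p, h1, h2, mul_one]
    linear_combination (- g.p) * h4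
  · simp only [mul_s, inv_s, h3]; ring
  · simp only [mul_u, mul_p, mul_q, inv_q, inv_s, h1, h2, h3, mul_one]
    linear_combination (g.p * g.s - g.q) * h4

instance : (corner K).Normal := ⟨fun a ha g => (conj_mem a g ha).1⟩

end TH

/-- representations that send the standard relators to the corner give functionals -/
theorem isFn_of {K : Type*} [Field K] (ρ : F →* TH K) (h : ∀ s ∈ stdRel, ρ s ∈ TH.corner K) :
    IsFn (TH.chi.comp ρ) (fun g => (ρ g).q) := by
  have hle : R ≤ (TH.corner K).comap ρ := by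
    apply Subgroup.normalClosure_le_normal
    intro s hs
    exact h s hs
  constructor
  · intro r hr s hs
    obtain ⟨h1, h2, h3⟩ := hle hr
    obtain ⟨h4, h5, h6⟩ := hle hs
    rw [map_mul, TH.mul_q, h1, h2, Units.val_one]
    ring
  · intro g r hr
    rw [map_mul, map_mul, map_inv]
    exact (TH.conj_mem _ _ (hle hr)).2

end RG58
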