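import Pool.Agent.Lib.RG58.KMain

/-! The counting theorem for two and three generators (helper58). -/

set_option autoImplicit false

namespace RG58

theorem gen_of {a b c : F} (h : Subgroup.normalClosure {a, b, c} = R) : Gen ![a, b, c] := by
  have hr : Set.range ![a, b, c] = {a, b, c} := by
    ext y
    simp only [Set.mem_range, Set.mem_insert_iff, Set.mem_singleton_iff]
    constructor
    · rintro ⟨i, rfl⟩
      fin_cases i
      · exact Or.inl rfl
      · exact Or.inr (Or.inl rfl)
      · exact Or.inr (Or.inr rfl)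
    · rintro (rfl | rfl | rfl)
      · exact ⟨0, rfl⟩
      · exact ⟨1, rfl⟩
      · exact ⟨2, rfl⟩
  refine ⟨?_, ?_⟩
  · intro k
    rw [← h]
    apply Subgroup.subset_normalClosure
    rw [← hr]
    exact ⟨k, rfl⟩
  · rw [hr]
    refine h.symm.le.trans ?_
    exact Subgroup.normalClosure_mono (fun x hx => Or.inl (Or.inl hx))

theorem K_two {a b c u v : F} (h : Subgroup.normalClosure {a, b, c} = R)
    (ha : a ∈ Subgroup.closure {u, v}) (hb : b ∈ Subgroup.closure {u, v}) : u ∈ R ∧ v ∈ R := by
  have hr : Set.range ![u, v] = {u, v} := by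
    ext y
    simp only [Set.mem_range, Set.mem_insert_iff, Set.mem_singleton_iff]
    constructor
    · rintro ⟨i, rfl⟩
      fin_cases i
      · exact Or.inl rfl
      · exact Or.inr rfl
    · rintro (rfl | rfl)
      · exact ⟨0, rfl⟩
      · exact ⟨1, rfl⟩
  have key := thmK (gen_of h) (u := ![u, v]) (ι := ![0, 1]) (g := fun _ => 1) (s := fun _ => 1)
    (by decide) (fun _ => Subgroup.one_mem _) (by
      intro i
      rw [hr, one_mul, mul_one, inv_one, mul_one]
      fin_cases i
      · exact ha
      · exact hb)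
  exact ⟨key 0, key 1⟩

theorem K_three {a b c u v w : F} (h : Subgroup.normalClosure {a, b, c} = R)
    (ha : a ∈ Subgroup.closure {u, v, w}) (hb : b ∈ Subgroup.closure {u, v, w})
    (hc : c ∈ Subgroup.closure {u, v, w}) : u ∈ R ∧ v ∈ R ∧ w ∈ R := by
  have hr : Set.range ![u, v, w] = {u, v, w} := by
    ext y
    simp only [Set.mem_range, Set.mem_insert_iff, Set.mem_singleton_iff]
    constructor
    · rintro ⟨i, rfl⟩
      fin_cases i
      · exact Or.inl rfl
      · exact Or.inr (Or.inl rfl)
      · exact Or.inr (Or.inr rfl)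
    · rintro (rfl | rfl | rfl)
      · exact ⟨0, rfl⟩
      · exact ⟨1, rfl⟩
      · exact ⟨2, rfl⟩
  have key := thmK (gen_of h) (u := ![u, v, w]) (ι := ![0, 1, 2]) (g := fun _ => 1)
    (s := fun _ => 1) (by decide) (fun _ => Subgroup.one_mem _) (by
      intro i
      rw [hr, one_mul, mul_one, inv_one, mul_one]
      fin_cases i
      · exact ha
      · exact hb
      · exact hc)
  exact ⟨key 0, key 1, key 2⟩

end RG58
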