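import Pool.Agent.Lib.RG58.Count

/-! A subgroup with `n` generators that contains conjugates of `n` relators (helper58). -/

set_option autoImplicit false

namespace RG58

open FreeGroup (of)

theorem dual2 {r : Fin 3 → F} (hr : Gen r) {K : Type*} [Field K] (h2 : (2 : K) = 0) (w : Kˣ)
    (hw : w ^ 3 = 1) (hw1 : w ≠ 1) : ∃ ψ : Fin 3 → F → K, (∀ i, IsFn (rho w 1 1 1) (ψ i)) ∧
      ∀ i k, ψ i (r k) = if k = i then 1 else 0 := by
  obtain ⟨a0, a1, a2, a3, a4⟩ := fy w hw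
  obtain ⟨b0, b1, b2, b3, b4⟩ := fz h2 w hw
  obtain ⟨c0, c1, c2, c3, c4⟩ := fzt h2 w hw
  obtain ⟨φ, hφ⟩ : ∃ φ : Fin 3 → F → K, φ =
      ![fun g => (rho (⟨w, 0, 0, 0⟩ : TH K) ⟨1, 0, 0, 1⟩ 1 1 g).q,
        fun g => (rho (⟨w, 0, 0, 0⟩ : TH K) 1 ⟨1, 1, 1, 0⟩ 1 g).q,
        fun g => (rho (⟨w, 0, 0, 0⟩ : TH K) 1 ⟨1, 1, 0, 0⟩ ⟨1, 0, 1, 0⟩ g).q] := ⟨_, rfl⟩
  have hfn : ∀ j, IsFn (rho w 1 1 1) (φ j) := by
    intro j
    rw [hφ]
    fin_cases j
    · exact a0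
    · exact b0
    · exact c0
  exact dual (by linear_combination 3 * h2) hfn (fun v hv => by
    have e1 := hv _ (Or.inr (Or.inl rfl))
    have e2 := hv _ (Or.inr (Or.inr (Or.inl rfl)))
    have e3 := hv _ (Or.inr (Or.inr (Or.inr rfl)))
    rw [Fin.sum_univ_three, hφ] at e1 e2 e3
    change _ * v 0 + _ * v 1 + _ * v 2 = 0 at e1
    change _ * v 0 + _ * v 1 + _ * v 2 = 0 at e2
    change _ * v 0 + _ * v 1 + _ * v 2 = 0 at e3
    simp only [Matrix.cons_val_zero, Matrix.cons_val_one, Matrix.cons_val] at e1 e2 e3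
    rw [a2, b2, c2] at e1
    rw [a3, b3, c3] at e2
    rw [a4, b4, c4] at e3
    have hw2 : (w : K) - 1 ≠ 0 := by
      intro h
      apply hw1
      exact Units.ext (sub_eq_zero.1 h)
    funext k
    fin_cases k
    · have : ((w : K) - 1) * v 0 = 0 := by linear_combination e2
      exact (mul_eq_zero.1 this).resolve_left hw2
    · change v 1 = 0
      linear_combination e1
    · change v 2 = 0
      linear_combination e3) hr

theorem dual3 {r : Fin 3 → F} (hr : Gen r) :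
    ∃ ψ : Fin 3 → F → ZMod 3, (∀ i, IsFn (rho 1 1 (red (-1)) 1) (ψ i)) ∧
      ∀ i k, ψ i (r k) = if k = i then 1 else 0 := by
  obtain ⟨a1, a2, a3, a4⟩ := fD_val (-1)
  have he : ((-1 : ℤˣ)) ^ 2 = 1 := by decide
  have a0 := fD_fn (-1) he
  have he' : (red (-1)) ^ 2 = 1 := by rw [← map_pow, he, map_one]
  obtain ⟨b0, b1, b2, b3, b4⟩ := ft (red (-1)) he'
  obtain ⟨c0, c1, c2, c3, c4⟩ := fxy (red (-1)) he'
  obtain ⟨φ, hφ⟩ : ∃ φ : Fin 3 → F → ZMod 3, φ =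
      ![fD (-1),
        fun g => (rho (1 : TH (ZMod 3)) 1 ⟨red (-1), 0, 0, 0⟩ ⟨1, 0, 0, 1⟩ g).q,
        fun g => (rho (⟨1, 1, 0, 0⟩ : TH (ZMod 3)) ⟨1, 0, 1, 0⟩ ⟨red (-1), 0, 0, 0⟩ 1 g).q] :=
    ⟨_, rfl⟩
  have hfn : ∀ j, IsFn (rho 1 1 (red (-1)) 1) (φ j) := by
    intro j
    rw [hφ]
    fin_cases j
    · exact a0
    · exact b0
    · exact c0
  exact dual (by decide) hfn (fun v hv => by
    have e1 := hv _ (Or.inl rfl)
    have e2 := hv _ (Or.inr (Or.inr (Or.inr rfl)))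
    have e3 := hv _ (Or.inr (Or.inr (Or.inl rfl)))
    rw [Fin.sum_univ_three, hφ] at e1 e2 e3
    change _ * v 0 + _ * v 1 + _ * v 2 = 0 at e1
    change _ * v 0 + _ * v 1 + _ * v 2 = 0 at e2
    change _ * v 0 + _ * v 1 + _ * v 2 = 0 at e3
    simp only [Matrix.cons_val_zero, Matrix.cons_val_one, Matrix.cons_val] at e1 e2 e3
    rw [a1, b1, c1] at e1
    rw [a4, b4, c4] at e2
    rw [a3, b3, c3] at e3
    have h3 : (3 : ZMod 3) = 0 := by decide
    have h4 : ((red (-1) : (ZMod 3)ˣ) : ZMod 3) = -1 := by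
      rw [red_val]
      simp
    rw [h4] at e2
    funext k
    fin_cases k
    · change v 0 = 0
      linear_combination e1
    · change v 1 = 0
      linear_combination e2 + v 1 * h3
    · change v 2 = 0
      linear_combination e3) hr

/-- **the theorem** -/
theorem thmK {r : Fin 3 → F} (hr : Gen r) {n : ℕ} {u : Fin n → F} {ι : Fin n → Fin 3}
    (hι : Function.Injective ι) {g s : Fin n → F} (hs : ∀ i, s i ∈ Q6)
    (h : ∀ i, g i * (r (ι i) * s i) * (g i)⁻¹ ∈ Subgroup.closure (Set.range u)) (l : Fin n) :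
    u l ∈ R := by
  by_contra hl
  obtain ⟨U, hU⟩ : ∃ U, U = Subgroup.closure (Set.range u) := ⟨_, rfl⟩
  rw [← hU] at h
  have hlU : u l ∈ U := by
    rw [hU]
    exact Subgroup.subset_closure ⟨l, rfl⟩
  obtain ⟨p, hp⟩ : ∃ p : Fin n → F, p = fun i => g i * (r (ι i) * s i) * (g i)⁻¹ := ⟨_, rfl⟩
  have hpU : ∀ i, p i ∈ U := by
    intro i
    rw [hp]
    exact h i
  have hrs : ∀ i, r (ι i) * s i ∈ R := fun i => R.mul_mem (hr.mem _) (Q6_le (hs i))
  have hpR : ∀ i, p i ∈ R := by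
    intro i
    rw [hp]
    exact (inferInstance : R.Normal).conj_mem _ (hrs i) _
  have hval : ∀ {K : Type} [Field K] (_ : (6 : K) = 0) {χ : F →* Kˣ} {ψ : Fin 3 → F → K}
      (_ : ∀ i, IsFn χ (ψ i)) (_ : ∀ i k, ψ i (r k) = if k = i then 1 else 0),
      (∀ i, ψ (ι i) (p i) ≠ 0) ∧ (∀ i j, i ≠ j → ψ (ι i) (p j) = 0) := by
    intro K _ h6 χ ψ hψ hd
    have e : ∀ i j, ψ (ι i) (p j) = χ (g j) * (if ι j = ι i then 1 else 0) := by
      intro i j
      rw [hp]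
      simp only
      rw [(hψ _).eqv _ _ (hrs j), (hψ _).add _ (hr.mem _) _ (Q6_le (hs j)),
        ((hψ _).q6 h6 (hs j)).2, add_zero, hd]
    constructor
    · intro i
      rw [e, if_pos rfl, mul_one]
      exact Units.ne_zero _
    · intro i j hij
      rw [e, if_neg (fun h' => hij (hι h').symm), mul_zero]
  obtain ⟨K, _, w, h2, hw, hw1⟩ := exists_w
  have h6 : (6 : K) = 0 := by linear_combination 3 * h2
  have h3 : ((Fintype.card (Multiplicative (ZMod 3)) : ℕ) : K) ≠ 0 := by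
    rw [Fintype.card_multiplicative, ZMod.card]
    intro h3
    have h4 : (1 : K) = 0 := by
      have h5 : (3 : K) = 0 := by exact_mod_cast h3
      linear_combination h5 - h2
    exact one_ne_zero h4
  obtain ⟨ψ, hψ, hd⟩ := dual2 hr h2 w hw hw1
  obtain ⟨hne, h0⟩ := hval h6 hψ hd
  by_cases hx : ∃ v ∈ U, Ex3 v ≠ 1
  · obtain ⟨v, hv, hv1⟩ := hx
    by_cases hz : ∃ v ∈ U, Ez2 v ≠ 1
    · obtain ⟨τ, hτ, hτ1⟩ := surj2 hz (Multiplicative.ofAdd 1)
      refine count2 hU hpR hpU hne h0 h2 hτ hτ1 (fun r hr => rho_R hw (one_pow 2) hr)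
        ⟨v, hv, chi2_ne w hw hw1 hv1⟩ (fun i => hψ (ι i)) ?_
      intro i
      refine ext_up Ex3 (fun r hr => Ex3_R hr) (surj3 ⟨v * v, ?_, ?_⟩) h3 (hψ (ι i)) ?_
      · refine ⟨U.mul_mem hv hv, ?_⟩
        change Ez2 (v * v) = 1
        rw [map_mul]
        exact mul_two
      · rw [map_mul]
        have h7 : ∀ m : Multiplicative (ZMod 3), m ≠ 1 → m * m ≠ 1 := by decide
        exact h7 _ hv1
      · exact ext_N (hψ (ι i)) _ fun v hv => ⟨hv.2, hv.1.2⟩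
    · push Not at hz
      refine count hU hpR hpU hne h0 ?_ ⟨_, prin (rho w 1 1 1) U, ?_, v, hv, ?_⟩
      · intro i
        refine ext_up Ex3 (fun r hr => Ex3_R hr) (surj3 ⟨v, hv, hv1⟩) h3 (hψ (ι i)) ?_
        exact ext_N (hψ (ι i)) _ fun v hv => ⟨hv.2, hz v hv.1⟩
      · intro r hr _
        rw [rho_R hw (one_pow 2) hr, Units.val_one, sub_self]
      · intro h7
        exact chi2_ne w hw hw1 hv1 (Units.ext (sub_eq_zero.1 h7))
  · push Not at hx
    by_cases hz : ∃ v ∈ U, Ez2 v ≠ 1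
    · obtain ⟨v, hv, hv1⟩ := hz
      obtain ⟨ψ', hψ', hd'⟩ := dual3 hr
      obtain ⟨hne', h0'⟩ := hval (by decide) hψ' hd'
      refine count hU hpR hpU hne' h0' ?_ ⟨_, prin (rho 1 1 (red (-1)) 1) U, ?_, v, hv, ?_⟩
      · intro i
        refine ext_up Ez2 (fun r hr => Ez2_R hr) (surj2 ⟨v, hv, hv1⟩) ?_ (hψ' (ι i)) ?_
        · rw [Fintype.card_multiplicative, ZMod.card]
          decide
        · exact ext_N (hψ' (ι i)) _ fun v hv => ⟨hx v hv.1, hv.2⟩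
      · intro r hr _
        rw [rho_R (one_pow 3) red_sq hr, Units.val_one, sub_self]
      · intro h7
        exact chi3_ne hv1 (Units.ext (sub_eq_zero.1 h7))
    · push Not at hz
      have hN : ∀ v ∈ U, Ex3 v = 1 ∧ Ez2 v = 1 := fun v hv => ⟨hx v hv, hz v hv⟩
      refine count hU hpR hpU hne h0 (fun i => ext_N (hψ (ι i)) _ hN) (hom_N U hN ?_
        ⟨u l, hlU, hl⟩)
      intro v hv
      rw [chi2 w hw, MonoidHom.comp_apply, hx v hv, map_one]

end RG58
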