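import Pool.Agent.Lib.RG58.KMain

/-! Free products and crossed homomorphisms (helper58). -/

set_option autoImplicit false

namespace RG58

open FreeGroup (of)
open Monoid

section exists_der

variable {K : Type*} [Field K] {χ : F →* Kˣ}

/-- a nonzero crossed homomorphism that kills `R` -/
theorem exists_der (hχR : ∀ r ∈ R, χ r = 1)
    {V : Subgroup F}
    (hc : ∀ v ∈ V, χ v = 1 → Ex3 v = 1 ∧ Ez2 v = 1) (hV : ∃ v ∈ V, v ∉ R) :
    ∃ δ : F → K, Der χ V δ ∧ (∀ r ∈ R, r ∈ V → δ r = 0) ∧ ∃ v ∈ V, δ v ≠ 0 := by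
  by_cases h : ∃ v ∈ V, χ v ≠ 1
  · obtain ⟨v, hv, hv1⟩ := h
    refine ⟨_, prin χ V, ?_, v, hv, ?_⟩
    · intro r hr _
      rw [hχR r hr, Units.val_one, sub_self]
    · intro h7
      exact hv1 (Units.ext (sub_eq_zero.1 h7))
  · push Not at h
    exact hom_N V (fun v hv => hc v hv (h v hv)) h hV

theorem Der.coset {V : Subgroup F} {δ : F → K} (h : Der χ V δ) (hRV : R ≤ V)
    (h0 : ∀ r ∈ R, r ∈ V → δ r = 0) {g g' : F} (hg : g ∈ V)
    (hgg : QuotientGroup.mk' R g = QuotientGroup.mk' R g') : δ g' = δ g := by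
  have h1 : g⁻¹ * g' ∈ R := by
    rw [← mk_eq_one, map_mul, map_inv, hgg, inv_mul_cancel]
  have h2 := h g hg _ (hRV h1)
  rw [h0 _ h1 (hRV h1), mul_zero, add_zero, mul_inv_cancel_left] at h2
  exact h2

end exists_der

section free

variable {K : Type*} [Field K] {χ : F →* Kˣ} {n : ℕ} {G : Fin n → Type} [∀ j, Group (G j)]
  (a : CoprodI G →* F ⧸ R)

/-- the preimage of a factor -/
def VV (j : Fin n) : Subgroup F :=
  (a.comp (CoprodI.of (M := G) (i := j))).range.comap (QuotientGroup.mk' R)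

theorem R_le_VV (j : Fin n) : R ≤ VV a j := by
  intro r hr
  refine ⟨1, ?_⟩
  rw [map_one]
  exact (mk_eq_one.2 hr).symm

/-- a representative -/
noncomputable def ot {j : Fin n} (x : G j) : F := Quotient.out (a (CoprodI.of x))

theorem mk_ot {j : Fin n} (x : G j) : QuotientGroup.mk' R (ot a x) = a (CoprodI.of x) := by
  exact Quotient.out_eq _

theorem ot_mem {j : Fin n} (x : G j) : ot a x ∈ VV a j := ⟨x, (mk_ot a x).symm⟩

variable (hχR : ∀ r ∈ R, χ r = 1)

include hχR in
theorem chi_coset {g g' : F} (h : QuotientGroup.mk' R g = QuotientGroup.mk' R g') :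
    χ g' = χ g := by
  have h1 : g⁻¹ * g' ∈ R := by
    rw [← mk_eq_one, map_mul, map_inv, h, inv_mul_cancel]
  have h2 := hχR _ h1
  rw [map_mul, map_inv, inv_mul_eq_one] at h2
  exact h2.symm

/-- gluing crossed homomorphisms of the factors -/
theorem free_der {ε : Fin n → F → K} (hε : ∀ j, Der χ (VV a j) (ε j))
    (hε0 : ∀ j, ∀ r ∈ R, r ∈ VV a j → ε j r = 0) (ha : Function.Injective a) {U : Subgroup F}
    (hU : ∀ u ∈ U, ∃ w, a w = QuotientGroup.mk' R u) (hχR : ∀ r ∈ R, χ r = 1) :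
    ∃ D : F → K, Der χ U D ∧ (∀ r ∈ R, r ∈ U → D r = 0) ∧
      ∀ j, ∀ v : F, ∀ x : G j, QuotientGroup.mk' R v = a (CoprodI.of x) → D v = ε j v := by
  have hmk : ∀ j, ∀ x y : G j, QuotientGroup.mk' R (ot a x * ot a y) =
      QuotientGroup.mk' R (ot a (x * y)) := by
    intro j x y
    rw [map_mul, mk_ot, mk_ot, mk_ot, map_mul, map_mul]
  have hmk1 : ∀ j, QuotientGroup.mk' R (1 : F) = QuotientGroup.mk' R (ot a (1 : G j)) := by
    intro j
    rw [mk_ot, map_one, map_one, map_one]
  let f : ∀ j, G j →* TH K := fun j =>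
    { toFun := fun x => ⟨χ (ot a x), ε j (ot a x), 0, 0⟩
      map_one' := by
        rw [chi_coset hχR (hmk1 j), (hε j).coset (R_le_VV a j) (hε0 j) (VV a j).one_mem (hmk1 j),
          map_one, (hε j).one]
        rfl
      map_mul' := by
        intro x y
        rw [chi_coset hχR (hmk j x y), (hε j).coset (R_le_VV a j) (hε0 j)
          ((VV a j).mul_mem (ot_mem a x) (ot_mem a y)) (hmk j x y),
          hε j _ (ot_mem a x) _ (ot_mem a y), map_mul]
        ext
        · simp [TH.mul_u]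
        · simp only [TH.mul_p]
          ring
        · simp [TH.mul_s]
        · simp [TH.mul_q] }
  obtain ⟨P, hP⟩ : ∃ P : CoprodI G →* TH K, ∀ j, ∀ x : G j, P (CoprodI.of x) = f j x :=
    ⟨CoprodI.lift f, fun j x => CoprodI.lift_of _ _⟩
  have hχ' : R ≤ χ.ker := fun r hr => hχR r hr
  have hPu : TH.chi.comp P = (QuotientGroup.lift R χ hχ').comp a := by
    apply CoprodI.ext_hom
    intro j
    ext x
    simp only [MonoidHom.comp_apply]
    rw [hP, ← mk_ot]
    rfl
  have hPu' : ∀ w : CoprodI G, ∀ g : F, a w = QuotientGroup.mk' R g → (P w).u = χ g := by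
    intro w g hw
    have h1 := DFunLike.congr_fun hPu w
    rw [MonoidHom.comp_apply, MonoidHom.comp_apply, hw] at h1
    exact h1
  have hinv : ∀ w, Function.invFun a (a w) = w := Function.leftInverse_invFun ha
  refine ⟨fun g => (P (Function.invFun a (QuotientGroup.mk' R g))).p, ?_, ?_, ?_⟩
  · intro g hg k hk
    obtain ⟨w, hw⟩ := hU g hg
    obtain ⟨w', hw'⟩ := hU k hk
    simp only
    rw [map_mul, ← hw, ← hw', ← map_mul, hinv, hinv, hinv, map_mul, TH.mul_p, hPu' w g hw]
    ring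
  · intro r hr _
    simp only
    rw [mk_eq_one.2 hr, ← map_one a, hinv, map_one]
    rfl
  · intro j v x hv
    simp only
    rw [hv, hinv, hP]
    change ε j (ot a x) = ε j v
    rw [← mk_ot] at hv
    exact ((hε j).coset (R_le_VV a j) (hε0 j) (ot_mem a x) hv.symm).symm

end free

section count

variable {K : Type*} [Field K] {χ : F →* Kˣ} {U : Subgroup F} {N k m : ℕ} {u : Fin N → F}
  (hU : U = Subgroup.closure (Set.range u)) {ψ : Fin k → F → K} {p : Fin k → F}
  (hpR : ∀ i, p i ∈ R) (hpU : ∀ i, p i ∈ U) (hne : ∀ i, ψ i (p i) ≠ 0)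
  (h0 : ∀ i j, i ≠ j → ψ i (p j) = 0)

include hU hpR hpU hne h0

/-- **third count** -/
theorem count3 (hext : ∀ i, Ext χ U (ψ i)) {D : Fin m → F → K} (hD : ∀ j, Der χ U (D j))
    (hD0 : ∀ j, ∀ r ∈ R, r ∈ U → D j r = 0) {v : Fin m → F} (hv : ∀ j, v j ∈ U)
    (hvne : ∀ j, D j (v j) ≠ 0) (hv0 : ∀ i j, i ≠ j → D i (v j) = 0) : k + m ≤ N := by
  by_contra hN
  push Not at hN
  choose δ hδ hδ' using hext
  let A : ((Fin k → K) × (Fin m → K)) →ₗ[K] (Fin N → K) :=
    { toFun := fun x l => ∑ i, x.1 i * δ i (u l) + ∑ j, x.2 j * D j (u l)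
      map_add' := by
        intro x y
        funext l
        simp only [Prod.fst_add, Prod.snd_add, Pi.add_apply, add_mul, Finset.sum_add_distrib]
        ring
      map_smul' := by
        intro a x
        funext l
        simp only [Prod.smul_fst, Prod.smul_snd, Pi.smul_apply, smul_eq_mul, mul_add,
          Finset.mul_sum, mul_assoc, RingHom.id_apply] }
  have hA : LinearMap.ker A ≠ ⊥ := by
    apply LinearMap.ker_ne_bot_of_finrank_lt
    rw [Module.finrank_prod, Module.finrank_fin_fun, Module.finrank_fin_fun,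
      Module.finrank_fin_fun]
    exact hN
  obtain ⟨x, hx, hx0⟩ := Submodule.exists_mem_ne_zero_of_ne_bot hA
  have hDD : Der χ U (fun g => ∑ i, x.1 i * δ i g + ∑ j, x.2 j * D j g) :=
    (Der.sum _ fun i => (hδ i).smul (x.1 i)).add (Der.sum _ fun j => (hD j).smul (x.2 j))
  have hDD0 : ∀ g ∈ U, ∑ i, x.1 i * δ i g + ∑ j, x.2 j * D j g = 0 := by
    intro g hg
    exact hDD.zero hU (fun l => congrFun (LinearMap.mem_ker.1 hx) l) hg
  have hc : ∀ j, x.1 j = 0 := by
    intro j
    have h1 := hDD0 (p j) (hpU j)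
    rw [Finset.sum_eq_zero (s := Finset.univ) (f := fun i => x.2 i * D i (p j))
      (fun i _ => by rw [hD0 i _ (hpR j) (hpU j), mul_zero]), add_zero,
      Finset.sum_eq_single j] at h1
    · rw [hδ' j _ (hpR j) (hpU j)] at h1
      exact (mul_eq_zero.1 h1).resolve_right (hne j)
    · intro i _ hij
      rw [hδ' i _ (hpR j) (hpU j), h0 i j hij, mul_zero]
    · intro h
      exact absurd (Finset.mem_univ _) h
  have hc2 : ∀ j, x.2 j = 0 := by
    intro j
    have h1 := hDD0 (v j) (hv j)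
    rw [Finset.sum_eq_zero (s := Finset.univ) (f := fun i => x.1 i * δ i (v j))
      (fun i _ => by rw [hc i, zero_mul]), zero_add,
      Finset.sum_eq_single j] at h1
    · exact (mul_eq_zero.1 h1).resolve_right (hvne j)
    · intro i _ hij
      rw [hv0 i j hij, mul_zero]
    · intro h
      exact absurd (Finset.mem_univ _) h
  exact hx0 (Prod.ext (funext hc) (funext hc2))

end count

end RG58
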