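import Pool.Agent.Lib.RG58.Kurosh

/-! Relators in a subgroup and free factors of its image (helper58). -/

set_option autoImplicit false

namespace RG58

open FreeGroup (of)
open Monoid

theorem range_E (E : Finset F) : Set.range (fun l : Fin E.card => (E.equivFin.symm l : F)) = E := by
  ext e
  constructor
  · rintro ⟨l, rfl⟩
    exact (E.equivFin.symm l).2
  · intro he
    refine ⟨E.equivFin ⟨e, he⟩, ?_⟩
    simp

/-- the common part of the two cases -/
theorem core {r : Fin 3 → F} (hr : Gen r) {T : Finset (Fin 3)} {E : Finset F}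
    (h : ∀ i ∈ T, ∃ g s : F, s ∈ Q6 ∧ g * (r i * s) * g⁻¹ ∈ Subgroup.closure (E : Set F))
    {n : ℕ} {G : Fin n → Type} [∀ j, Group (G j)] [∀ j, Nontrivial (G j)]
    (e : CoprodI G ≃* Subgroup.map (QuotientGroup.mk' R) (Subgroup.closure (E : Set F)))
    {K : Type*} [Field K] (h6 : (6 : K) = 0) {χ : F →* Kˣ} (hχR : ∀ r ∈ R, χ r = 1)
    {ψ : Fin 3 → F → K} (hψ : ∀ i, IsFn χ (ψ i)) (hd : ∀ i k, ψ i (r k) = if k = i then 1 else 0)
    (hext : ∀ i, Ext χ (Subgroup.closure (E : Set F)) (ψ i))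
    (hc : ∀ v ∈ Subgroup.closure (E : Set F), χ v = 1 → Ex3 v = 1 ∧ Ez2 v = 1) :
    T.card + n ≤ E.card := by
  have hU : Subgroup.closure (E : Set F) =
      Subgroup.closure (Set.range (fun l : Fin E.card => (E.equivFin.symm l : F))) := by
    rw [range_E]
  obtain ⟨U, hU'⟩ : ∃ U, U = Subgroup.closure (E : Set F) := ⟨_, rfl⟩
  rw [← hU'] at h hext hc hU e
  have h' : ∀ i : Fin T.card, ∃ g s : F,
      s ∈ Q6 ∧ g * (r (T.equivFin.symm i) * s) * g⁻¹ ∈ U := fun i => h _ (T.equivFin.symm i).2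
  choose g s hs hgs using h'
  obtain ⟨ι, hι'⟩ : ∃ ι : Fin T.card → Fin 3, ι = fun i => ((T.equivFin.symm i : T) : Fin 3) :=
    ⟨_, rfl⟩
  have hι : Function.Injective ι := by
    rw [hι']
    exact Subtype.val_injective.comp (Equiv.injective _)
  obtain ⟨p, hp⟩ : ∃ p : Fin T.card → F, p = fun i => g i * (r (ι i) * s i) * (g i)⁻¹ := ⟨_, rfl⟩
  have hpU : ∀ i, p i ∈ U := by
    intro i
    rw [hp, hι']
    exact hgs i
  have hrs : ∀ i, r (ι i) * s i ∈ R := fun i => R.mul_mem (hr.mem _) (Q6_le (hs i))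
  have hpR : ∀ i, p i ∈ R := by
    intro i
    rw [hp]
    exact (inferInstance : R.Normal).conj_mem _ (hrs i) _
  have hv : ∀ i j, ψ (ι i) (p j) = χ (g j) * (if ι j = ι i then 1 else 0) := by
    intro i j
    rw [hp]
    simp only
    rw [(hψ _).eqv _ _ (hrs j), (hψ _).add _ (hr.mem _) _ (Q6_le (hs j)),
      ((hψ _).q6 h6 (hs j)).2, add_zero, hd]
  have hne : ∀ i, ψ (ι i) (p i) ≠ 0 := by
    intro i
    rw [hv, if_pos rfl, mul_one]
    exact Units.ne_zero _
  have h0 : ∀ i j, i ≠ j → ψ (ι i) (p j) = 0 := by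
    intro i j hij
    rw [hv, if_neg (fun h' => hij (hι h').symm), mul_zero]
  -- the map of the free product
  obtain ⟨a, ha⟩ : ∃ a : CoprodI G →* F ⧸ R, ∀ w, a w = (e w : F ⧸ R) :=
    ⟨(Subgroup.subtype _).comp e.toMonoidHom, fun w => rfl⟩
  have hai : Function.Injective a := by
    intro w w' hw
    rw [ha, ha] at hw
    exact e.injective (Subtype.ext hw)
  have haU : ∀ u ∈ U, ∃ w, a w = QuotientGroup.mk' R u := by
    intro u hu
    refine ⟨e.symm ⟨_, Subgroup.mem_map_of_mem _ hu⟩, ?_⟩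
    rw [ha, MulEquiv.apply_symm_apply]
  have hback : ∀ w, ∃ u ∈ U, QuotientGroup.mk' R u = a w := by
    intro w
    rw [ha]
    exact (e w).2
  have hVU : ∀ j, ∀ v ∈ VV a j, ∃ x : G j, ∃ u ∈ U, QuotientGroup.mk' R u = a (CoprodI.of x) ∧
      QuotientGroup.mk' R u = QuotientGroup.mk' R v := by
    rintro j v ⟨x, hx⟩
    obtain ⟨u, hu, hux⟩ := hback (CoprodI.of x)
    exact ⟨x, u, hu, hux, hux.trans hx⟩
  have hder : ∀ j, ∃ δ : F → K, Der χ (VV a j) δ ∧ (∀ r ∈ R, r ∈ VV a j → δ r = 0) ∧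
      ∃ v ∈ VV a j, δ v ≠ 0 := by
    intro j
    refine exists_der hχR ?_ ?_
    · intro v hv hv1
      obtain ⟨x, u, hu, -, huv⟩ := hVU j v hv
      have e1 : χ v = χ u := chi_coset hχR huv
      have e2 : u⁻¹ * v ∈ R := by
        rw [← mk_eq_one, map_mul, map_inv, huv, inv_mul_cancel]
      have e3 := Ex3_R e2
      have e4 := Ez2_R e2
      rw [map_mul, map_inv, inv_mul_eq_one] at e3 e4
      rw [← e3, ← e4]
      exact hc u hu (by rw [← e1, hv1])
    · obtain ⟨x, hx⟩ := exists_ne (1 : G j)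
      refine ⟨ot a x, ot_mem a x, ?_⟩
      intro hR
      apply hx
      have e1 := mk_ot a x
      rw [mk_eq_one.2 hR] at e1
      have e2 : CoprodI.of x = (1 : CoprodI G) := hai (e1.symm.trans (map_one a).symm)
      exact CoprodI.of_injective j (e2.trans (map_one _).symm)
  choose δ hδ hδ0 v hv' hvne using hder
  have hu : ∀ j, ∃ u ∈ U, ∃ x : G j, QuotientGroup.mk' R u = a (CoprodI.of x) ∧ δ j u ≠ 0 := by
    intro j
    obtain ⟨x, u, hu, hux, huv⟩ := hVU j (v j) (hv' j)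
    refine ⟨u, hu, x, hux, ?_⟩
    rw [(hδ j).coset (R_le_VV a j) (hδ0 j) (hv' j) huv.symm]
    exact hvne j
  choose v' hv'U x hx hv'ne using hu
  have hD : ∀ j, ∃ D : F → K, Der χ U D ∧ (∀ r ∈ R, r ∈ U → D r = 0) ∧
      ∀ i, ∀ v : F, ∀ x : G i, QuotientGroup.mk' R v = a (CoprodI.of x) →
        D v = (if i = j then δ i v else 0) := by
    intro j
    have := free_der a (ε := fun i g => if i = j then δ i g else 0) (χ := χ) (U := U) ?_ ?_ hai
      haU hχR
    · exact this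
    · intro i g hg k hk
      by_cases hij : i = j
      · simp only [if_pos hij]
        exact hδ i g hg k hk
      · simp only [if_neg hij]
        ring
    · intro i r hr hrV
      by_cases hij : i = j
      · simp only [if_pos hij]
        exact hδ0 i r hr hrV
      · simp only [if_neg hij]
  choose D hD1 hD2 hD3 using hD
  refine count3 hU hpR hpU hne h0 (fun i => hext (ι i)) hD1 hD2 hv'U ?_ ?_
  · intro j
    rw [hD3 j j (v' j) (x j) (hx j), if_pos rfl]
    exact hv'ne j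
  · intro i j hij
    rw [hD3 i j (v' j) (x j) (hx j), if_neg (fun h => hij h.symm)]

/-- **subgroups without mixed torsion** -/
theorem thmK3 {r : Fin 3 → F} (hr : Gen r) {T : Finset (Fin 3)} {E : Finset F}
    (h : ∀ i ∈ T, ∃ g s : F, s ∈ Q6 ∧ g * (r i * s) * g⁻¹ ∈ Subgroup.closure (E : Set F))
    {n : ℕ} {G : Fin n → Type} [∀ j, Group (G j)] [∀ j, Nontrivial (G j)]
    (e : CoprodI G ≃* Subgroup.map (QuotientGroup.mk' R) (Subgroup.closure (E : Set F)))
    (hm : (∀ e ∈ E, Ex3 e = 1) ∨ (∀ e ∈ E, Ez2 e = 1)) : T.card + n ≤ E.card := by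
  have h2' : ∀ {A : Type} [Group A] (f : F →* A), (∀ e ∈ E, f e = 1) →
      ∀ v ∈ Subgroup.closure (E : Set F), f v = 1 := by
    intro A _ f hf v hv
    have hle : Subgroup.closure (E : Set F) ≤ f.ker :=
      (Subgroup.closure_le _).2 fun e he => hf e he
    exact hle hv
  rcases hm with hm | hm
  · have hx := h2' Ex3 hm
    obtain ⟨ψ, hψ, hd⟩ := dual3 hr
    refine core hr h e (by decide) (fun r hr => rho_R (one_pow 3) red_sq hr) hψ hd ?_ ?_
    · intro i
      by_cases hz : ∃ v ∈ Subgroup.closure (E : Set F), Ez2 v ≠ 1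
      · refine ext_up Ez2 (fun r hr => Ez2_R hr) (surj2 hz) ?_ (hψ i) ?_
        · rw [Fintype.card_multiplicative, ZMod.card]
          decide
        · exact ext_N (hψ i) _ fun v hv => ⟨hx v hv.1, hv.2⟩
      · push Not at hz
        exact ext_N (hψ i) _ fun v hv => ⟨hx v hv, hz v hv⟩
    · intro v hv hv1
      refine ⟨hx v hv, ?_⟩
      by_contra h7
      exact chi3_ne h7 hv1
  · have hz := h2' Ez2 hm
    obtain ⟨K, _, w, h2, hw, hw1⟩ := exists_w
    obtain ⟨ψ, hψ, hd⟩ := dual2 hr h2 w hw hw1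
    have h3 : ((Fintype.card (Multiplicative (ZMod 3)) : ℕ) : K) ≠ 0 := by
      rw [Fintype.card_multiplicative, ZMod.card]
      intro h3
      have h4 : (1 : K) = 0 := by
        have h5 : (3 : K) = 0 := by exact_mod_cast h3
        linear_combination h5 - h2
      exact one_ne_zero h4
    refine core hr h e (by linear_combination 3 * h2) (fun r hr => rho_R hw (one_pow 2) hr) hψ hd
      ?_ ?_
    · intro i
      by_cases hx : ∃ v ∈ Subgroup.closure (E : Set F), Ex3 v ≠ 1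
      · refine ext_up Ex3 (fun r hr => Ex3_R hr) (surj3 hx) h3 (hψ i) ?_
        exact ext_N (hψ i) _ fun v hv => ⟨hv.2, hz v hv.1⟩
      · push Not at hx
        exact ext_N (hψ i) _ fun v hv => ⟨hx v hv, hz v hv⟩
    · intro v hv hv1
      refine ⟨?_, hz v hv⟩
      by_contra h7
      exact chi2_ne w hw hw1 h7 hv1

/-- at most as many generators as relators -/
theorem thmK_E {r : Fin 3 → F} (hr : Gen r) {T : Finset (Fin 3)} {E : Finset F}
    (hE : E.card ≤ T.card)
    (h : ∀ i ∈ T, ∃ g s : F, s ∈ Q6 ∧ g * (r i * s) * g⁻¹ ∈ Subgroup.closure (E : Set F)) :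
    Subgroup.closure (E : Set F) ≤ R := by
  have h' : ∀ i : Fin T.card, ∃ g s : F,
      s ∈ Q6 ∧ g * (r (T.equivFin.symm i) * s) * g⁻¹ ∈ Subgroup.closure (E : Set F) :=
    fun i => h _ (T.equivFin.symm i).2
  choose g s hs hgs using h'
  obtain ⟨u, hu⟩ : ∃ u : Fin T.card → F,
      u = fun l : Fin T.card => if hl : (l : ℕ) < E.card then (E.equivFin.symm ⟨l, hl⟩ : F)
        else 1 := ⟨_, rfl⟩
  have hEu : (E : Set F) ⊆ Set.range u := by
    intro e he
    obtain ⟨k, hk⟩ : ∃ k, k = E.equivFin ⟨e, he⟩ := ⟨_, rfl⟩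
    refine ⟨⟨k, lt_of_lt_of_le k.2 hE⟩, ?_⟩
    rw [hu]
    have h1 : ((⟨k, lt_of_lt_of_le k.2 hE⟩ : Fin T.card) : ℕ) < E.card := k.2
    simp only [dif_pos h1]
    have h2 : (⟨((⟨k, lt_of_lt_of_le k.2 hE⟩ : Fin T.card) : ℕ), h1⟩ : Fin E.card) = k := rfl
    rw [h2, hk, Equiv.symm_apply_apply]
  have hcl := Subgroup.closure_mono hEu
  have hι : Function.Injective fun i : Fin T.card => ((T.equivFin.symm i : T) : Fin 3) :=
    Subtype.val_injective.comp (Equiv.injective _)
  have hall := thmK hr hι hs (fun i => hcl (hgs i))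
  refine (Subgroup.closure_le _).2 ?_
  intro e he
  obtain ⟨l, rfl⟩ := hEu he
  exact hall l

/-- **relators and free factors** -/
theorem thmK4 {r : Fin 3 → F} (hr : Gen r) {T : Finset (Fin 3)} {E : Finset F}
    (h : ∀ i ∈ T, ∃ g s : F, s ∈ Q6 ∧ g * (r i * s) * g⁻¹ ∈ Subgroup.closure (E : Set F))
    {n : ℕ} {G : Fin n → Type} [∀ j, Group (G j)] [∀ j, Nontrivial (G j)]
    (e : CoprodI G ≃* Subgroup.map (QuotientGroup.mk' R) (Subgroup.closure (E : Set F)))
    (hm : n ≤ 1 ∨ (∀ e ∈ E, Ex3 e = 1) ∨ (∀ e ∈ E, Ez2 e = 1)) : T.card + n ≤ E.card := by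
  rcases hm with hm | hm
  · by_contra hcon
    have hE : E.card ≤ T.card := by omega
    have hR := thmK_E hr hE h
    apply hcon
    exact thmK3 hr h e (Or.inl fun e he => Ex3_R (hR (Subgroup.subset_closure he)))
  · exact thmK3 hr h e hm

end RG58
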