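import Pool.Agent.Lib.RG58.TorsH

/-! Powers and commutators are not relators of a presentation with three relators (helper58). -/

set_option autoImplicit false

namespace RG58

open FreeGroup (of)

theorem rho_one {G : Type*} [Group G] : rho (1 : G) 1 1 1 = 1 := by
  apply rho_ext
  · rw [rho0, MonoidHom.one_apply]
  · rw [rho1, MonoidHom.one_apply]
  · rw [rho2, MonoidHom.one_apply]
  · rw [rho3, MonoidHom.one_apply]

theorem IsFn.p6' {K : Type*} [Field K] (h6 : (6 : K) = 0) {φ : F → K}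
    (h : IsFn (rho 1 1 1 1) φ) {s : F} (hs : s ∈ P6) : s ∈ R ∧ φ s = 0 := by
  rw [rho_one] at h
  exact h.p6 h6 hs

theorem P6_le {s : F} (hs : s ∈ P6) : s ∈ R := (fz3.1.p6' (by decide) hs).1
theorem Q6_le {s : F} (hs : s ∈ Q6) : s ∈ R := (fz3.1.q6 (by decide) hs).1

/-- value on `g ^ n * s` -/
theorem IsFn.val {K : Type*} [Field K] (h6 : (6 : K) = 0) {φ : F → K}
    (h : IsFn (rho 1 1 1 1) φ) {g s : F} {n : ℕ} (hg : g ∈ R) (hs : s ∈ P6) :
    φ (g ^ n * s) = n * φ g := by
  obtain ⟨h1, h2⟩ := h.p6' h6 hs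
  rw [h.add _ (R.pow_mem hg n) _ h1, h2, add_zero, h.pow hg]

section

variable {r : Fin 3 → F} (hr : Gen r) (i : Fin 3)

include hr

/-- **powers, second part** -/
theorem no_pow_in {g s : F} {n : ℕ} (hg : g ∈ R) (hs : s ∈ P6) (hi : r i = g ^ n * s) :
    n.Coprime 6 := by
  have h2 : (2 : ZMod 2) = 0 := by decide
  have n2 : ¬ 2 ∣ n := by
    rintro ⟨k, rfl⟩
    have e : ((2 * k : ℕ) : ZMod 2) = 0 := by push_cast; rw [h2, zero_mul]
    rcases triple2 hr i with h | h | h
    · apply h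
      rw [hi]
      refine (fx2.1.val (by decide) hg hs).trans ?_
      rw [e, zero_mul]
    · apply h
      rw [hi]
      refine ((fz h2 (1 : (ZMod 2)ˣ) (one_pow 3)).1.val (by decide) hg hs).trans ?_
      rw [e, zero_mul]
    · apply h
      rw [hi]
      refine ((fzt h2 (1 : (ZMod 2)ˣ) (one_pow 3)).1.val (by decide) hg hs).trans ?_
      rw [e, zero_mul]
  have h3 : (3 : ZMod 3) = 0 := by decide
  have n3 : ¬ 3 ∣ n := by
    rintro ⟨k, rfl⟩
    have e : ((3 * k : ℕ) : ZMod 3) = 0 := by push_cast; rw [h3, zero_mul]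
    have hD := fD_fn 1 (one_pow 2)
    rw [map_one] at hD
    rcases triple3 hr i with h | h | h
    · apply h
      rw [hi]
      refine (hD.val (by decide) hg hs).trans ?_
      rw [e, zero_mul]
    · apply h
      rw [hi]
      refine (fz3.1.val (by decide) hg hs).trans ?_
      rw [e, zero_mul]
    · apply h
      rw [hi]
      refine ((fxy (1 : (ZMod 3)ˣ) (one_pow 2)).1.val (by decide) hg hs).trans ?_
      rw [e, zero_mul]
  have h6 : (6 : ℕ) = 2 * 3 := rfl
  rw [h6]
  exact Nat.Coprime.mul_right ((Nat.prime_two.coprime_iff_not_dvd.2 n2).symm)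
    ((Nat.prime_three.coprime_iff_not_dvd.2 n3).symm)

omit hr in
theorem rho_comm {G : Type*} [CommGroup G] (a b c d : G) (g h : F) :
    rho a b c d (g * h * g⁻¹ * h⁻¹) = 1 := by
  rw [map_mul, map_mul, map_mul, map_inv, map_inv, mul_comm (rho a b c d g), mul_inv_cancel_right,
    mul_inv_cancel]

/-- **commutators** -/
theorem no_comm {g h s : F} {n : ℕ} (hs : s ∈ P6) (hi : r i = (g * h * g⁻¹ * h⁻¹) ^ n * s) :
    False := by
  obtain ⟨c, hc⟩ : ∃ c, c = g * h * g⁻¹ * h⁻¹ := ⟨_, rfl⟩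
  rw [← hc] at hi
  rcases Nat.eq_zero_or_pos n with rfl | hn
  · have h1 := no_pow_in hr i (g := 1) (n := 0) R.one_mem hs (by rw [hi, pow_zero, pow_zero])
    revert h1
    decide
  have hcn : c ^ n ∈ R := by
    have := hr.mem i
    rw [hi] at this
    exact (R.mul_mem_cancel_right (P6_le hs)).1 this
  have hcR : c ∈ R := by
    by_contra hcR
    obtain ⟨K, _, w, h2, hw, hw1⟩ := exists_w
    rcases char_ne_one w hw hw1 hn.ne' hcR hcn with h' | h'
    · apply h'
      rw [hc]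
      exact rho_comm w 1 1 1 g h
    · apply h'
      rw [hc]
      exact rho_comm 1 1 (red (-1)) 1 g h
  have h2 : (2 : ZMod 2) = 0 := by decide
  have k2 : (rzt g).p * (rzt h).s - (rzt h).p * (rzt g).s ≠ 0 := by
    intro h0
    rcases triple2 hr i with h | h | h
    · apply h
      rw [hi]
      refine (fx2.1.val (by decide) hcR hs).trans ?_
      have m : ∀ f : F, rho (⟨1, 0, 0, 1⟩ : TH (ZMod 2)) 1 1 1 f ∈ TH.corner (ZMod 2) :=
        rho_mem _ ⟨rfl, rfl, rfl⟩ (Subgroup.one_mem _) (Subgroup.one_mem _) (Subgroup.one_mem _)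
      rw [hc, map_mul, map_mul, map_mul, map_inv, map_inv, (TH.comm_q _ _ (m _).1 (m _).1).1,
        (m _).2.1, (m _).2.1]
      ring
    · apply h
      rw [hi]
      refine ((fz h2 (1 : (ZMod 2)ˣ) (one_pow 3)).1.val (by decide) hcR hs).trans ?_
      have m : ∀ f : F, rho (⟨1, 0, 0, 0⟩ : TH (ZMod 2)) 1 ⟨1, 1, 1, 0⟩ 1 f ∈
          TH.diagS (ZMod 2) :=
        rho_mem _ ⟨rfl, rfl⟩ (Subgroup.one_mem _) ⟨rfl, rfl⟩ (Subgroup.one_mem _)
      rw [hc, map_mul, map_mul, map_mul, map_inv, map_inv, (TH.comm_q _ _ (m _).1 (m _).1).1,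
        (m _).2, (m _).2]
      ring
    · apply h
      rw [hi]
      refine ((fzt h2 (1 : (ZMod 2)ˣ) (one_pow 3)).1.val (by decide) hcR hs).trans ?_
      have m : ∀ f : F, rzt f ∈ TH.uni (ZMod 2) :=
        rho_mem _ rfl (Subgroup.one_mem _) rfl rfl
      rw [hc, map_mul, map_mul, map_mul, map_inv, map_inv, (TH.comm_q _ _ (m _) (m _)).1, h0,
        mul_zero]
  have k3 : (rxy g).p * (rxy h).s - (rxy h).p * (rxy g).s ≠ 0 := by
    intro h0
    have hD := fD_fn 1 (one_pow 2)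
    rw [map_one] at hD
    rcases triple3 hr i with h | h | h
    · apply h
      rw [hi]
      refine (hD.val (by decide) hcR hs).trans ?_
      have m : ∀ f : F, rhoD 1 f ∈ TH.uni ℤ :=
        rho_mem _ rfl (Subgroup.one_mem _) rfl (Subgroup.one_mem _)
      rw [fD, hc, map_mul, map_mul, map_mul, map_inv, map_inv, (TH.comm_q _ _ (m _) (m _)).2]
      simp
    · apply h
      rw [hi]
      refine (fz3.1.val (by decide) hcR hs).trans ?_
      have m : ∀ f : F, rho (1 : TH (ZMod 3)) 1 ⟨1, 0, 0, 1⟩ 1 f ∈ TH.corner (ZMod 3) :=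
        rho_mem _ (Subgroup.one_mem _) (Subgroup.one_mem _) ⟨rfl, rfl, rfl⟩ (Subgroup.one_mem _)
      rw [hc, map_mul, map_mul, map_mul, map_inv, map_inv, (TH.comm_q _ _ (m _).1 (m _).1).1,
        (m _).2.1, (m _).2.1]
      ring
    · apply h
      rw [hi]
      refine ((fxy (1 : (ZMod 3)ˣ) (one_pow 2)).1.val (by decide) hcR hs).trans ?_
      have m : ∀ f : F, rxy f ∈ TH.uni (ZMod 3) :=
        rho_mem _ rfl rfl rfl (Subgroup.one_mem _)
      rw [hc, map_mul, map_mul, map_mul, map_inv, map_inv, (TH.comm_q _ _ (m _) (m _)).1, h0,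
        mul_zero]
  exact k3 (comm_pair (by rw [← hc]; exact hcR) k2)

end

end RG58
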