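import Pool.Agent.Lib.RG58.Fam

/-! Powers and commutators are not relators of a presentation with three relators (helper58). -/

set_option autoImplicit false

namespace RG58

open FreeGroup (of)

/-! ### the third functional in characteristic 3 -/

/-- `u = 1` and `3 ∣ p` -/
def U3 : Subgroup (TH ℤ) where
  carrier := {a | a.u = 1 ∧ (3 : ℤ) ∣ a.p}
  one_mem' := ⟨rfl, dvd_zero _⟩
  mul_mem' := by
    rintro a b ⟨h1, h2⟩ ⟨h3, h4⟩
    refine ⟨by rw [TH.mul_u, h1, h3, one_mul], ?_⟩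
    rw [TH.mul_p, h1, Units.val_one, one_mul]
    exact dvd_add h4 h2
  inv_mem' := by
    rintro a ⟨h1, h2⟩
    refine ⟨by rw [TH.inv_u, h1, inv_one], ?_⟩
    rw [TH.inv_p, dvd_neg]
    exact Dvd.dvd.mul_left h2 _

theorem U3_conj (a g : TH ℤ) (ha : a ∈ U3) :
    g * a * g⁻¹ ∈ U3 ∧ (g * a * g⁻¹).p = g.u * a.p := by
  obtain ⟨h1, h2⟩ := ha
  have h4 : (g.u : ℤ) * ((g.u⁻¹ : ℤˣ) : ℤ) = 1 := Units.mul_inv g.u
  have h5 : (g * a * g⁻¹).p = g.u * a.p := by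
    simp only [TH.mul_u, TH.mul_p, TH.inv_p, h1, mul_one]
    linear_combination (- g.p) * h4
  refine ⟨⟨?_, ?_⟩, h5⟩
  · simp only [TH.mul_u, TH.inv_u, h1, mul_one, mul_inv_cancel]
  · rw [h5]
    exact Dvd.dvd.mul_left h2 _

instance : U3.Normal := ⟨fun a ha g => (U3_conj a g ha).1⟩

/-- the representation behind the third functional -/
def rhoD (e : ℤˣ) : F →* TH ℤ := rho ⟨1, 1, 0, 0⟩ 1 ⟨e, 0, 0, 0⟩ 1

theorem rhoD_le (e : ℤˣ) (he : e ^ 2 = 1) : R ≤ U3.comap (rhoD e) := by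
  apply Subgroup.normalClosure_le_normal
  apply rel_cases
  · change rhoD e (of 0 ^ 3) ∈ U3
    rw [map_pow, rhoD, rho0, pow_succ, pow_two]
    refine ⟨?_, ?_⟩ <;> simp [TH.mul_u, TH.mul_p]
  · change rhoD e (of 2 ^ 2) ∈ U3
    rw [map_pow, rhoD, rho2, pow_two]
    refine ⟨?_, ?_⟩
    · change e * e = 1
      rw [← pow_two, he]
    · simp [TH.mul_p]
  · change rhoD e (of 0 * of 1 * (of 0)⁻¹ * (of 1)⁻¹) ∈ U3
    rw [map_mul, map_mul, map_mul, map_inv, map_inv, rhoD, rho0, rho1, mul_one, mul_inv_cancel,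
      inv_one, mul_one]
    exact U3.one_mem
  · change rhoD e (of 2 * of 3 * (of 2)⁻¹ * (of 3)⁻¹) ∈ U3
    rw [map_mul, map_mul, map_mul, map_inv, map_inv, rhoD, rho2, rho3, mul_one, mul_inv_cancel,
      inv_one, mul_one]
    exact U3.one_mem

/-- reduction of the sign -/
def red : ℤˣ →* (ZMod 3)ˣ := Units.map (Int.castRingHom (ZMod 3)).toMonoidHom

theorem red_val (e : ℤˣ) : ((red e : (ZMod 3)ˣ) : ZMod 3) = ((e : ℤ) : ZMod 3) := rfl

/-- the third functional in characteristic 3 -/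
def fD (e : ℤˣ) (g : F) : ZMod 3 := (((rhoD e g).p / 3 : ℤ) : ZMod 3)

theorem fD_fn (e : ℤˣ) (he : e ^ 2 = 1) : IsFn (rho 1 1 (red e) 1) (fD e) := by
  have hchi : ∀ g : F, rho 1 1 (red e) 1 g = red (rhoD e g).u := by
    intro g
    have : rho 1 1 (red e) 1 = (red.comp TH.chi).comp (rhoD e) := by
      ext i
      fin_cases i <;> simp [rho, rhoD, TH.chi, TH.one_u]
    rw [this]
    rfl
  constructor
  · intro r hr s hs
    obtain ⟨h1, h2⟩ := rhoD_le e he hr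
    obtain ⟨h3, h4⟩ := rhoD_le e he hs
    rw [fD, fD, fD, map_mul, TH.mul_p, h1, Units.val_one, one_mul, Int.add_ediv_of_dvd_left h4]
    push_cast
    ring
  · intro g r hr
    obtain ⟨h1, h2⟩ := rhoD_le e he hr
    rw [fD, fD, map_mul, map_mul, map_inv, (U3_conj _ _ (rhoD_le e he hr)).2,
      Int.mul_ediv_assoc _ h2, hchi, red_val]
    push_cast
    ring

theorem fD_val (e : ℤˣ) : fD e (of 0 ^ 3) = 1 ∧ fD e (of 2 ^ 2) = 0 ∧
    fD e (of 0 * of 1 * (of 0)⁻¹ * (of 1)⁻¹) = 0 ∧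
    fD e (of 2 * of 3 * (of 2)⁻¹ * (of 3)⁻¹) = 0 := by
  refine ⟨?_, ?_, ?_, ?_⟩
  · rw [fD, map_pow, rhoD, rho0, pow_succ, pow_two]
    simp [TH.mul_u, TH.mul_p]
  · rw [fD, map_pow, rhoD, rho2, pow_two]
    simp [TH.mul_p]
  · rw [fD, map_mul, map_mul, map_mul, map_inv, map_inv, rhoD, rho0, rho1, mul_one, mul_inv_cancel,
      inv_one, mul_one]
    simp [TH.one_p]
  · rw [fD, map_mul, map_mul, map_mul, map_inv, map_inv, rhoD, rho2, rho3, mul_one, mul_inv_cancel,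
      inv_one, mul_one]
    simp [TH.one_p]

/-! ### the four triples of functionals -/

section triples

variable {r : Fin 3 → F} (hr : Gen r) (i : Fin 3)

include hr

/-- characteristic 2, `x` acts by a primitive cube root of unity -/
theorem triple2w {K : Type*} [Field K] (h2 : (2 : K) = 0) (w : Kˣ) (hw : w ^ 3 = 1)
    (hw1 : w ≠ 1) : ∃ φ : F → K, IsFn (rho w 1 1 1) φ ∧ φ (r i) ≠ 0 := by
  obtain ⟨a0, a1, a2, a3, a4⟩ := fy w hw
  obtain ⟨b0, b1, b2, b3, b4⟩ := fz h2 w hw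
  obtain ⟨c0, c1, c2, c3, c4⟩ := fzt h2 w hw
  obtain ⟨φ, hφ⟩ : ∃ φ : Fin 3 → F → K, φ =
      ![fun g => (rho (⟨w, 0, 0, 0⟩ : TH K) ⟨1, 0, 0, 1⟩ 1 1 g).q,
        fun g => (rho (⟨w, 0, 0, 0⟩ : TH K) 1 ⟨1, 1, 1, 0⟩ 1 g).q,
        fun g => (rho (⟨w, 0, 0, 0⟩ : TH K) 1 ⟨1, 1, 0, 0⟩ ⟨1, 0, 1, 0⟩ g).q] := ⟨_, rfl⟩
  have hfn : ∀ j, IsFn (rho w 1 1 1) (φ j) := by
    intro j
    rw [hφ]
    fin_cases j
    · exact a0
    · exact b0
    · exact c0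
  obtain ⟨j, hj⟩ := key (by linear_combination 3 * h2) hfn (fun v hv => by
    have e1 := hv _ (Or.inr (Or.inl rfl))
    have e2 := hv _ (Or.inr (Or.inr (Or.inl rfl)))
    have e3 := hv _ (Or.inr (Or.inr (Or.inr rfl)))
    rw [Fin.sum_univ_three, hφ] at e1 e2 e3
    change _ * v 0 + _ * v 1 + _ * v 2 = 0 at e1
    change _ * v 0 + _ * v 1 + _ * v 2 = 0 at e2
    change _ * v 0 + _ * v 1 + _ * v 2 = 0 at e3
    simp only [Matrix.cons_val_zero, Matrix.cons_val_one, Matrix.cons_val] at e1 e2 e3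
    rw [a2, b2, c2] at e1
    rw [a3, b3, c3] at e2
    rw [a4, b4, c4] at e3
    have hw2 : (w : K) - 1 ≠ 0 := by
      intro h
      apply hw1
      exact Units.ext (sub_eq_zero.1 h)
    funext k
    fin_cases k
    · have : ((w : K) - 1) * v 0 = 0 := by linear_combination e2
      exact (mul_eq_zero.1 this).resolve_left hw2
    · change v 1 = 0
      linear_combination e1
    · change v 2 = 0
      linear_combination e3) hr i
  exact ⟨φ j, hfn j, hj⟩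

/-- trivial module of characteristic 2 -/
theorem triple2 : (rho (⟨1, 0, 0, 1⟩ : TH (ZMod 2)) 1 1 1 (r i)).q ≠ 0 ∨
    (rho (⟨1, 0, 0, 0⟩ : TH (ZMod 2)) 1 ⟨1, 1, 1, 0⟩ 1 (r i)).q ≠ 0 ∨
    (rho (⟨1, 0, 0, 0⟩ : TH (ZMod 2)) 1 ⟨1, 1, 0, 0⟩ ⟨1, 0, 1, 0⟩ (r i)).q ≠ 0 := by
  have h2 : (2 : ZMod 2) = 0 := by decide
  obtain ⟨a0, a1, a2, a3, a4⟩ := fx2
  obtain ⟨b0, b1, b2, b3, b4⟩ := fz h2 (1 : (ZMod 2)ˣ) (one_pow 3)
  obtain ⟨c0, c1, c2, c3, c4⟩ := fzt h2 (1 : (ZMod 2)ˣ) (one_pow 3)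
  obtain ⟨φ, hφ⟩ : ∃ φ : Fin 3 → F → ZMod 2, φ =
      ![fun g => (rho (⟨1, 0, 0, 1⟩ : TH (ZMod 2)) 1 1 1 g).q,
        fun g => (rho (⟨1, 0, 0, 0⟩ : TH (ZMod 2)) 1 ⟨1, 1, 1, 0⟩ 1 g).q,
        fun g => (rho (⟨1, 0, 0, 0⟩ : TH (ZMod 2)) 1 ⟨1, 1, 0, 0⟩ ⟨1, 0, 1, 0⟩ g).q] := ⟨_, rfl⟩
  have hfn : ∀ j, IsFn (rho 1 1 1 1) (φ j) := by
    intro j
    rw [hφ]
    fin_cases j
    · exact a0
    · exact b0
    · exact c0
  obtain ⟨j, hj⟩ := key (by decide) hfn (fun v hv => by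
    have e1 := hv _ (Or.inl rfl)
    have e2 := hv _ (Or.inr (Or.inl rfl))
    have e3 := hv _ (Or.inr (Or.inr (Or.inr rfl)))
    rw [Fin.sum_univ_three, hφ] at e1 e2 e3
    change _ * v 0 + _ * v 1 + _ * v 2 = 0 at e1
    change _ * v 0 + _ * v 1 + _ * v 2 = 0 at e2
    change _ * v 0 + _ * v 1 + _ * v 2 = 0 at e3
    simp only [Matrix.cons_val_zero, Matrix.cons_val_one, Matrix.cons_val] at e1 e2 e3
    rw [a1, b1, c1] at e1
    rw [a2, b2, c2] at e2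
    rw [a4, b4, c4] at e3
    funext k
    fin_cases k
    · change v 0 = 0
      linear_combination e1
    · change v 1 = 0
      linear_combination e2
    · change v 2 = 0
      linear_combination e3) hr i
  rw [hφ] at hj
  fin_cases j
  · exact Or.inl hj
  · exact Or.inr (Or.inl hj)
  · exact Or.inr (Or.inr hj)

/-- trivial module of characteristic 3 -/
theorem triple3 : fD 1 (r i) ≠ 0 ∨
    (rho (1 : TH (ZMod 3)) 1 ⟨1, 0, 0, 1⟩ 1 (r i)).q ≠ 0 ∨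
    (rho (⟨1, 1, 0, 0⟩ : TH (ZMod 3)) ⟨1, 0, 1, 0⟩ ⟨1, 0, 0, 0⟩ 1 (r i)).q ≠ 0 := by
  obtain ⟨a1, a2, a3, a4⟩ := fD_val 1
  have a0 := fD_fn 1 (one_pow 2)
  rw [map_one] at a0
  obtain ⟨b0, b1, b2, b3, b4⟩ := fz3
  obtain ⟨c0, c1, c2, c3, c4⟩ := fxy (1 : (ZMod 3)ˣ) (one_pow 2)
  obtain ⟨φ, hφ⟩ : ∃ φ : Fin 3 → F → ZMod 3, φ =
      ![fD 1,
        fun g => (rho (1 : TH (ZMod 3)) 1 ⟨1, 0, 0, 1⟩ 1 g).q,
        fun g => (rho (⟨1, 1, 0, 0⟩ : TH (ZMod 3)) ⟨1, 0, 1, 0⟩ ⟨1, 0, 0, 0⟩ 1 g).q] := ⟨_, rfl⟩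
  have hfn : ∀ j, IsFn (rho 1 1 1 1) (φ j) := by
    intro j
    rw [hφ]
    fin_cases j
    · exact a0
    · exact b0
    · exact c0
  obtain ⟨j, hj⟩ := key (by decide) hfn (fun v hv => by
    have e1 := hv _ (Or.inl rfl)
    have e2 := hv _ (Or.inr (Or.inl rfl))
    have e3 := hv _ (Or.inr (Or.inr (Or.inl rfl)))
    rw [Fin.sum_univ_three, hφ] at e1 e2 e3
    change _ * v 0 + _ * v 1 + _ * v 2 = 0 at e1
    change _ * v 0 + _ * v 1 + _ * v 2 = 0 at e2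
    change _ * v 0 + _ * v 1 + _ * v 2 = 0 at e3
    simp only [Matrix.cons_val_zero, Matrix.cons_val_one, Matrix.cons_val] at e1 e2 e3
    rw [a1, b1, c1] at e1
    rw [a2, b2, c2] at e2
    rw [a3, b3, c3] at e3
    have h3 : (3 : ZMod 3) = 0 := by decide
    funext k
    fin_cases k
    · change v 0 = 0
      linear_combination e1
    · change v 1 = 0
      linear_combination 2 * e2 - v 1 * h3
    · change v 2 = 0
      linear_combination e3) hr i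
  rw [hφ] at hj
  fin_cases j
  · exact Or.inl hj
  · exact Or.inr (Or.inl hj)
  · exact Or.inr (Or.inr hj)

/-- characteristic 3, `z` acts by `-1` -/
theorem triple3w : ∃ φ : F → ZMod 3, IsFn (rho 1 1 (red (-1)) 1) φ ∧ φ (r i) ≠ 0 := by
  obtain ⟨a1, a2, a3, a4⟩ := fD_val (-1)
  have he : ((-1 : ℤˣ)) ^ 2 = 1 := by decide
  have a0 := fD_fn (-1) he
  have he' : (red (-1)) ^ 2 = 1 := by rw [← map_pow, he, map_one]
  obtain ⟨b0, b1, b2, b3, b4⟩ := ft (red (-1)) he'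
  obtain ⟨c0, c1, c2, c3, c4⟩ := fxy (red (-1)) he'
  obtain ⟨φ, hφ⟩ : ∃ φ : Fin 3 → F → ZMod 3, φ =
      ![fD (-1),
        fun g => (rho (1 : TH (ZMod 3)) 1 ⟨red (-1), 0, 0, 0⟩ ⟨1, 0, 0, 1⟩ g).q,
        fun g => (rho (⟨1, 1, 0, 0⟩ : TH (ZMod 3)) ⟨1, 0, 1, 0⟩ ⟨red (-1), 0, 0, 0⟩ 1 g).q] :=
    ⟨_, rfl⟩
  have hfn : ∀ j, IsFn (rho 1 1 (red (-1)) 1) (φ j) := by
    intro j
    rw [hφ]
    fin_cases j
    · exact a0
    · exact b0
    · exact c0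
  obtain ⟨j, hj⟩ := key (by decide) hfn (fun v hv => by
    have e1 := hv _ (Or.inl rfl)
    have e2 := hv _ (Or.inr (Or.inr (Or.inr rfl)))
    have e3 := hv _ (Or.inr (Or.inr (Or.inl rfl)))
    rw [Fin.sum_univ_three, hφ] at e1 e2 e3
    change _ * v 0 + _ * v 1 + _ * v 2 = 0 at e1
    change _ * v 0 + _ * v 1 + _ * v 2 = 0 at e2
    change _ * v 0 + _ * v 1 + _ * v 2 = 0 at e3
    simp only [Matrix.cons_val_zero, Matrix.cons_val_one, Matrix.cons_val] at e1 e2 e3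
    rw [a1, b1, c1] at e1
    rw [a4, b4, c4] at e2
    rw [a3, b3, c3] at e3
    have h3 : (3 : ZMod 3) = 0 := by decide
    have h4 : ((red (-1) : (ZMod 3)ˣ) : ZMod 3) = -1 := by
      rw [red_val]
      simp
    rw [h4] at e2
    funext k
    fin_cases k
    · change v 0 = 0
      linear_combination e1
    · change v 1 = 0
      linear_combination e2 + v 1 * h3
    · change v 2 = 0
      linear_combination e3) hr i
  exact ⟨φ j, hfn j, hj⟩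

/-- powers of elements on which one of the two characters is not trivial -/
theorem no_pow_w {K : Type*} [Field K] (h2 : (2 : K) = 0) (w : Kˣ) (hw : w ^ 3 = 1)
    (hw1 : w ≠ 1) {u s : F} {n : ℕ} (hs : s ∈ Q6) (hu : r i = u ^ n * s)
    (hc : rho w 1 1 1 u ≠ 1 ∨ rho 1 1 (red (-1)) 1 u ≠ 1) : False := by
  rcases hc with hc | hc
  · obtain ⟨φ, h1, h3⟩ := triple2w hr i h2 w hw hw1
    obtain ⟨hs1, hs2⟩ := h1.q6 (by linear_combination 3 * h2) hs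
    have hR : u ^ n ∈ R := by
      have := hr.mem i
      rw [hu] at this
      exact (R.mul_mem_cancel_right hs1).1 this
    rw [hu, h1.add _ hR _ hs1, hs2, add_zero] at h3
    exact h3 (h1.pow_zero hc hR)
  · obtain ⟨φ, h1, h3⟩ := triple3w hr i
    obtain ⟨hs1, hs2⟩ := h1.q6 (by decide) hs
    have hR : u ^ n ∈ R := by
      have := hr.mem i
      rw [hu] at this
      exact (R.mul_mem_cancel_right hs1).1 this
    rw [hu, h1.add _ hR _ hs1, hs2, add_zero] at h3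
    exact h3 (h1.pow_zero hc hR)

end triples

end RG58
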