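import Pool.Agent.Lib.RG58.KuroshMain

/-! Crossed homomorphisms with values in an induced module (helper58). -/

set_option autoImplicit false

namespace RG58

open FreeGroup (of)
open Monoid

section derM

variable {K : Type*} [Field K] {I : Type} [CommGroup I]
  {χ : F →* Kˣ} {ε : F →* I} {U : Subgroup F}

/-- crossed homomorphisms with values in the functions on `I` -/
def DerM (χ : F →* Kˣ) (ε : F →* I) (U : Subgroup F) (Δ : F → I → K) : Prop :=
  ∀ g ∈ U, ∀ h ∈ U, ∀ i, Δ (g * h) i = Δ g i + χ g * Δ h (i * ε g)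

theorem DerM.one {Δ : F → I → K} (h : DerM χ ε U Δ) (i : I) : Δ 1 i = 0 := by
  have h1 := h 1 U.one_mem 1 U.one_mem i
  rw [mul_one, map_one, Units.val_one, one_mul, map_one, mul_one] at h1
  have h2 : Δ 1 i + Δ 1 i = Δ 1 i + 0 := by rw [add_zero]; exact h1.symm
  exact add_left_cancel h2

theorem DerM.smul {Δ : F → I → K} (h : DerM χ ε U Δ) (c : K) :
    DerM χ ε U (fun g i => c * Δ g i) := by
  intro g hg k hk i
  simp only
  rw [h g hg k hk]
  ring

theorem DerM.add {Δ Δ' : F → I → K} (h : DerM χ ε U Δ) (h' : DerM χ ε U Δ') :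
    DerM χ ε U (fun g i => Δ g i + Δ' g i) := by
  intro g hg k hk i
  simp only
  rw [h g hg k hk, h' g hg k hk]
  ring

theorem DerM.sum {ι : Type*} (s : Finset ι) {Δ : ι → F → I → K} (h : ∀ j, DerM χ ε U (Δ j)) :
    DerM χ ε U (fun g i => ∑ j ∈ s, Δ j g i) := by
  intro g hg k hk i
  simp only
  rw [Finset.mul_sum, ← Finset.sum_add_distrib]
  exact Finset.sum_congr rfl fun j _ => h j g hg k hk i

theorem DerM.shift {Δ : F → I → K} (h : DerM χ ε U Δ) (s : I) :
    DerM χ ε U (fun g i => Δ g (i * s) - Δ g i) := by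
  intro g hg k hk i
  simp only
  rw [h g hg k hk, h g hg k hk, mul_right_comm i s]
  ring

theorem DerM.total [Fintype I] {Δ : F → I → K} (h : DerM χ ε U Δ) : Der χ U (fun g => ∑ i, Δ g i) := by
  intro g hg k hk
  simp only
  rw [Finset.sum_congr (s₁ := Finset.univ) rfl (fun i _ => h g hg k hk i),
    Finset.sum_add_distrib, ← Finset.mul_sum]
  congr 2
  exact Equiv.sum_comp (Equiv.mulRight (ε g)) fun i => Δ k i

theorem DerM.zero {n : ℕ} {u : Fin n → F} (hU : U = Subgroup.closure (Set.range u))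
    {Δ : F → I → K} (h : DerM χ ε U Δ) (h0 : ∀ l i, Δ (u l) i = 0) {g : F} (hg : g ∈ U) (i : I) :
    Δ g i = 0 := by
  have hle : ∀ g ∈ Subgroup.closure (Set.range u), g ∈ U ∧ ∀ i, Δ g i = 0 := by
    intro g hg
    induction hg using Subgroup.closure_induction with
    | mem x hx =>
      obtain ⟨l, rfl⟩ := hx
      refine ⟨?_, h0 l⟩
      rw [hU]
      exact Subgroup.subset_closure ⟨l, rfl⟩
    | one => exact ⟨U.one_mem, h.one⟩
    | mul x y _ _ hx hy =>
      refine ⟨U.mul_mem hx.1 hy.1, fun i => ?_⟩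
      rw [h x hx.1 y hy.1, hx.2, hy.2, mul_zero, add_zero]
    | inv x _ hx =>
      refine ⟨U.inv_mem hx.1, fun i => ?_⟩
      have h1 := h x⁻¹ (U.inv_mem hx.1) x hx.1 i
      rw [inv_mul_cancel, h.one, hx.2, mul_zero, add_zero] at h1
      exact h1.symm
  rw [hU] at hg
  exact (hle g hg).2 i

/-- coinduction -/
noncomputable def coi (χ : F →* Kˣ) (ε : F →* I) (T : I → F) (δ : F → K) (g : F) (i : I) : K :=
  (((χ (T i))⁻¹ : Kˣ) : K) * δ (T i * g * (T (i * ε g))⁻¹)

theorem coi_der {T : I → F} (hTU : ∀ i, T i ∈ U) (hT : ∀ i, ε (T i) = i) {δ : F → K}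
    (hδ : Der χ (U ⊓ ε.ker) δ) : DerM χ ε U (coi χ ε T δ) := by
  intro g hg k hk i
  have hm : ∀ i, ∀ g ∈ U, T i * g * (T (i * ε g))⁻¹ ∈ U ⊓ ε.ker := by
    intro i g hg
    refine ⟨U.mul_mem (U.mul_mem (hTU _) hg) (U.inv_mem (hTU _)), ?_⟩
    change ε _ = 1
    rw [map_mul, map_mul, map_inv, hT, hT, mul_inv_cancel]
  have e1 : T i * (g * k) * (T (i * ε (g * k)))⁻¹ = (T i * g * (T (i * ε g))⁻¹) *
      (T (i * ε g) * k * (T (i * ε g * ε k))⁻¹) := by
    rw [map_mul, mul_assoc i]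
    group
  rw [coi, coi, coi, e1, hδ _ (hm i g hg) _ (hm (i * ε g) k hk), map_mul, map_mul, map_inv,
    mul_add]
  congr 1
  rw [Units.val_mul, Units.val_mul]
  have e2 : (((χ (T i))⁻¹ : Kˣ) : K) * χ (T i) = 1 := Units.inv_mul _
  linear_combination (χ g : K) * (((χ (T (i * ε g)))⁻¹ : Kˣ) : K) *
    δ (T (i * ε g) * k * (T (i * ε g * ε k))⁻¹) * e2

theorem coi_R {T : I → F} (hTU : ∀ i, T i ∈ U) {φ : F → K} (hφ : IsFn χ φ) {δ : F → K}
    (hδ : ∀ r ∈ R, r ∈ U ⊓ ε.ker → δ r = φ r) {r : F} (hr : r ∈ R) (hrU : r ∈ U) (hε : ε r = 1)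
    (i : I) : coi χ ε T δ r i = φ r := by
  rw [coi, hε, mul_one, hδ _ ((inferInstance : R.Normal).conj_mem _ hr _) ⟨U.mul_mem
    (U.mul_mem (hTU _) hrU) (U.inv_mem (hTU _)), by
      change ε _ = 1
      rw [map_mul, map_mul, map_inv, hε, mul_one, mul_inv_cancel]⟩, hφ.eqv _ _ hr, ← mul_assoc,
    Units.inv_mul, one_mul]

variable [Fintype I] {N k m : ℕ} {u : Fin N → F}
  (hU : U = Subgroup.closure (Set.range u)) {ψ : Fin k → F → K} {p : Fin k → F}
  (hpR : ∀ i, p i ∈ R) (hpU : ∀ i, p i ∈ U) (hne : ∀ i, ψ i (p i) ≠ 0)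
  (h0 : ∀ i j, i ≠ j → ψ i (p j) = 0)

include hU hpR hpU hne h0

/-- **fifth count** -/
theorem count5 {s : I} (hs : ∀ f : I → K, (∀ i, f (i * s) = f i) → ∀ i, f i = f 1)
    (hεR : ∀ r ∈ R, ε r = 1) (hsurj : ∀ i, ∃ c ∈ U, ε c = i)
    (hψ : ∀ i, IsFn χ (ψ i)) (hext : ∀ i, Ext χ (U ⊓ ε.ker) (ψ i))
    {Λ : Fin m → F → I → K} (hΛ : ∀ j, DerM χ ε U (Λ j))
    (hΛR : ∀ j, ∀ r ∈ R, r ∈ U → ∀ i, Λ j r i = 0)
    {v : Fin m → F} (hv : ∀ j, v j ∈ U)
    (hvne : ∀ j, ∑ i, Λ j (v j) i ≠ 0) (hv0 : ∀ i j, i ≠ j → ∀ i', Λ i (v j) i' = 0) :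
    k + m ≤ N := by
  by_contra hN
  push Not at hN
  choose δ hδ hδ' using hext
  choose T hTU hT using hsurj
  have hD : ∀ i, DerM χ ε U (coi χ ε T (δ i)) := fun i => coi_der hTU hT (hδ i)
  have hDR : ∀ i, ∀ r ∈ R, r ∈ U → ∀ i', coi χ ε T (δ i) r i' = ψ i r :=
    fun i r hr hrU i' => coi_R hTU (hψ i) (hδ' i) hr hrU (hεR r hr) i'
  let E0 : Submodule K (Fin N → I → K) :=
    { carrier := {v | ∃ l : F → I → K, DerM χ ε U l ∧ (∀ r ∈ R, r ∈ U → ∀ i, l r i = 0) ∧
        (∀ g ∈ U, ∑ i, l g i = 0) ∧ ∀ j i, l (u j) i = v j i}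
      add_mem' := by
        rintro a b ⟨l, h1, h3, h4, h5⟩ ⟨l', h1', h3', h4', h5'⟩
        refine ⟨fun g i => l g i + l' g i, h1.add h1', ?_, ?_, ?_⟩
        · intro r hr hrU i
          simp only
          rw [h3 r hr hrU, h3' r hr hrU, add_zero]
        · intro g hg
          simp only
          rw [Finset.sum_add_distrib, h4 g hg, h4' g hg, add_zero]
        · intro j i
          simp only
          rw [h5, h5']
          rfl
      zero_mem' := by
        refine ⟨fun g i => 0, ?_, fun _ _ _ _ => rfl, fun _ _ => by simp, fun _ _ => rfl⟩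
        intro g _ k _ i
        simp
      smul_mem' := by
        rintro a b ⟨l, h1, h3, h4, h5⟩
        refine ⟨fun g i => a * l g i, h1.smul a, ?_, ?_, ?_⟩
        · intro r hr hrU i
          simp only
          rw [h3 r hr hrU, mul_zero]
        · intro g hg
          simp only
          rw [← Finset.mul_sum, h4 g hg, mul_zero]
        · intro j i
          simp only
          rw [h5]
          rfl }
  have hmem : ∀ x : ((Fin k → K) × (Fin m → K)) × E0,
      (fun l i => (∑ j, x.1.1 j * coi χ ε T (δ j) (u l) (i * s) +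
        ∑ j, x.1.2 j * Λ j (u l) (i * s) + (x.2 : Fin N → I → K) l (i * s)) -
        (∑ j, x.1.1 j * coi χ ε T (δ j) (u l) i +
        ∑ j, x.1.2 j * Λ j (u l) i + (x.2 : Fin N → I → K) l i)) ∈ E0 := by
    intro x
    obtain ⟨l, h1, h3, h4, h5⟩ := x.2.2
    have hX : DerM χ ε U (fun g i => ∑ j, x.1.1 j * coi χ ε T (δ j) g i +
        ∑ j, x.1.2 j * Λ j g i + l g i) :=
      ((DerM.sum _ fun j => (hD j).smul (x.1.1 j)).add
        (DerM.sum _ fun j => (hΛ j).smul (x.1.2 j))).add h1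
    refine ⟨_, hX.shift s, ?_, ?_, ?_⟩
    · intro r hr hrU i
      have e1 : ∀ i', ∑ j, x.1.1 j * coi χ ε T (δ j) r i' = ∑ j, x.1.1 j * ψ j r := fun i' =>
        Finset.sum_congr rfl fun j _ => by rw [hDR j r hr hrU]
      have e2 : ∀ i', ∑ j, x.1.2 j * Λ j r i' = 0 := fun i' =>
        Finset.sum_eq_zero fun j _ => by rw [hΛR j r hr hrU, mul_zero]
      rw [e1, e1, e2, e2, h3 r hr hrU, h3 r hr hrU, sub_self]
    · intro g hg
      rw [Finset.sum_sub_distrib, sub_eq_zero]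
      exact Equiv.sum_comp (Equiv.mulRight s) fun i => ∑ j, x.1.1 j * coi χ ε T (δ j) g i +
        ∑ j, x.1.2 j * Λ j g i + l g i
    · intro j i
      simp only [h5]
  let A : (((Fin k → K) × (Fin m → K)) × E0) →ₗ[K] (Fin N → K) × E0 :=
    { toFun := fun x => (fun l => ∑ j, x.1.1 j * coi χ ε T (δ j) (u l) 1 +
          ∑ j, x.1.2 j * Λ j (u l) 1 + (x.2 : Fin N → I → K) l 1, ⟨_, hmem x⟩)
      map_add' := by
        intro x y
        ext l
        · simp only [Prod.fst_add, Prod.snd_add, Pi.add_apply, add_mul, Finset.sum_add_distrib,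
            Submodule.coe_add]
          ring
        · simp only [Prod.fst_add, Prod.snd_add, Pi.add_apply, add_mul, Finset.sum_add_distrib,
            Submodule.coe_add]
          ring
      map_smul' := by
        intro a x
        ext l
        · simp only [Prod.smul_fst, Prod.smul_snd, Pi.smul_apply, smul_eq_mul, mul_add,
            Finset.mul_sum, mul_assoc, RingHom.id_apply, Submodule.coe_smul]
        · simp only [Prod.smul_fst, Prod.smul_snd, Pi.smul_apply, smul_eq_mul, mul_add, mul_sub,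
            Finset.mul_sum, mul_assoc, RingHom.id_apply, Submodule.coe_smul] }
  have hA : LinearMap.ker A ≠ ⊥ := by
    apply LinearMap.ker_ne_bot_of_finrank_lt
    rw [Module.finrank_prod, Module.finrank_prod, Module.finrank_prod, Module.finrank_fin_fun,
      Module.finrank_fin_fun, Module.finrank_fin_fun]
    omega
  obtain ⟨x, hx, hx0⟩ := Submodule.exists_mem_ne_zero_of_ne_bot hA
  have hx1 := congrArg Prod.fst (LinearMap.mem_ker.1 hx)
  have hx2 := congrArg Subtype.val (congrArg Prod.snd (LinearMap.mem_ker.1 hx))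
  obtain ⟨l, h1, h3, h4, h5⟩ := x.2.2
  obtain ⟨X, hXd⟩ : ∃ X : F → I → K, X = fun g i => ∑ j, x.1.1 j * coi χ ε T (δ j) g i +
      ∑ j, x.1.2 j * Λ j g i + l g i := ⟨_, rfl⟩
  have hX : DerM χ ε U X := by
    rw [hXd]
    exact ((DerM.sum _ fun j => (hD j).smul (x.1.1 j)).add
      (DerM.sum _ fun j => (hΛ j).smul (x.1.2 j))).add h1
  have hXs : ∀ g ∈ U, ∀ i, X g (i * s) = X g i := by
    intro g hg i
    have h6 := (hX.shift s).zero hU (fun j i => by
      have h7 := congrFun (congrFun hx2 j) i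
      rw [hXd]
      simp only [h5]
      exact h7) hg i
    exact sub_eq_zero.1 h6
  have hXc : ∀ g ∈ U, ∀ i, X g i = X g 1 := fun g hg => hs (X g) (hXs g hg)
  have hX1 : Der χ U (fun g => X g 1) := by
    intro g hg h hh
    simp only
    rw [hX g hg h hh, hXc h hh]
  have hX0 : ∀ g ∈ U, ∀ i, X g i = 0 := by
    intro g hg i
    rw [hXc g hg]
    refine hX1.zero hU (fun j => ?_) hg
    have h7 := congrFun hx1 j
    rw [hXd]
    simp only [h5]
    exact h7
  have hc1 : ∀ j, x.1.1 j = 0 := by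
    intro j
    have h6 := hX0 (p j) (hpU j) 1
    rw [hXd] at h6
    simp only at h6
    rw [h3 _ (hpR j) (hpU j), add_zero,
      Finset.sum_eq_zero (s := Finset.univ) (f := fun i => x.1.2 i * Λ i (p j) 1)
      (fun i _ => by rw [hΛR i _ (hpR j) (hpU j), mul_zero]), add_zero,
      Finset.sum_eq_single j] at h6
    · rw [hDR j _ (hpR j) (hpU j)] at h6
      exact (mul_eq_zero.1 h6).resolve_right (hne j)
    · intro i _ hij
      rw [hDR i _ (hpR j) (hpU j), h0 i j hij, mul_zero]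
    · intro h
      exact absurd (Finset.mem_univ _) h
  have hX2 : ∀ g ∈ U, ∀ i, ∑ j, x.1.2 j * Λ j g i + l g i = 0 := by
    intro g hg i
    have h6 := hX0 g hg i
    rw [hXd] at h6
    simp only at h6
    rw [Finset.sum_eq_zero (s := Finset.univ) (f := fun j => x.1.1 j * coi χ ε T (δ j) g i)
      (fun i _ => by rw [hc1 i, zero_mul]), zero_add] at h6
    exact h6
  have hc2 : ∀ j, x.1.2 j = 0 := by
    intro j
    have h6 : ∑ i, (∑ j', x.1.2 j' * Λ j' (v j) i + l (v j) i) = 0 :=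
      Finset.sum_eq_zero fun i _ => hX2 (v j) (hv j) i
    rw [Finset.sum_add_distrib, h4 _ (hv j), add_zero] at h6
    have h7 : ∀ i ∈ Finset.univ, ∑ j', x.1.2 j' * Λ j' (v j) i = x.1.2 j * Λ j (v j) i := by
      intro i _
      rw [Finset.sum_eq_single j]
      · intro j' _ hj'
        rw [hv0 j' j hj', mul_zero]
      · intro h
        exact absurd (Finset.mem_univ _) h
    rw [Finset.sum_congr rfl h7, ← Finset.mul_sum] at h6
    exact (mul_eq_zero.1 h6).resolve_right (hvne j)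
  have hc3 : x.2 = 0 := by
    apply Subtype.ext
    funext j i
    have hju : u j ∈ U := by
      rw [hU]
      exact Subgroup.subset_closure ⟨j, rfl⟩
    have h6 := hX2 (u j) hju i
    rw [Finset.sum_eq_zero (s := Finset.univ) (f := fun j' => x.1.2 j' * Λ j' (u j) i)
      (fun i _ => by rw [hc2 i, zero_mul]), zero_add, h5] at h6
    exact h6
  exact hx0 (Prod.ext (Prod.ext (funext hc1) (funext hc2)) hc3)

end derM

end RG58
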