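import Pool.Agent.Lib.RG58.ModM

/-! Relators in a subgroup and free factors of its image, symmetric form (helper58). -/

set_option autoImplicit false

namespace RG58

open FreeGroup (of)
open Monoid

/-- affine maps of the induced module -/
@[ext] structure AM (K I : Type*) [Field K] [CommGroup I] where
  u : Kˣ
  a : I
  m : I → K

namespace AM

variable {K I : Type*} [Field K] [CommGroup I]

instance : Mul (AM K I) := ⟨fun x y => ⟨x.u * y.u, x.a * y.a, fun i => x.m i + x.u * y.m (i * x.a)⟩⟩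
instance : One (AM K I) := ⟨⟨1, 1, fun _ => 0⟩⟩
instance : Inv (AM K I) := ⟨fun x => ⟨x.u⁻¹, x.a⁻¹, fun i => - ((x.u⁻¹ : Kˣ) * x.m (i * x.a⁻¹))⟩⟩

theorem mul_u (x y : AM K I) : (x * y).u = x.u * y.u := rfl
theorem mul_a (x y : AM K I) : (x * y).a = x.a * y.a := rfl
theorem mul_m (x y : AM K I) (i : I) : (x * y).m i = x.m i + x.u * y.m (i * x.a) := rfl
theorem one_u : (1 : AM K I).u = 1 := rfl
theorem one_a : (1 : AM K I).a = 1 := rfl
theorem one_m (i : I) : (1 : AM K I).m i = 0 := rfl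
theorem inv_u (x : AM K I) : (x⁻¹).u = x.u⁻¹ := rfl
theorem inv_a (x : AM K I) : (x⁻¹).a = x.a⁻¹ := rfl
theorem inv_m (x : AM K I) (i : I) : (x⁻¹).m i = - ((x.u⁻¹ : Kˣ) * x.m (i * x.a⁻¹)) := rfl

instance : Group (AM K I) := Group.ofLeftAxioms
  (by
    intro x y z
    ext i
    · simp only [mul_u, mul_assoc]
    · simp only [mul_a, mul_assoc]
    · simp only [mul_m, mul_u, mul_a, Units.val_mul, mul_assoc]
      ring)
  (by
    intro x
    ext i
    · simp only [mul_u, one_u, one_mul]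
    · simp only [mul_a, one_a, one_mul]
    · simp only [mul_m, one_u, one_a, one_m, Units.val_one, mul_one]
      ring)
  (by
    intro x
    ext i
    · simp only [mul_u, inv_u, one_u, inv_mul_cancel]
    · simp only [mul_a, inv_a, one_a, inv_mul_cancel]
    · simp only [mul_m, inv_u, inv_a, inv_m, one_m]
      ring)

/-- first entry -/
def hu (K I : Type*) [Field K] [CommGroup I] : AM K I →* Kˣ where
  toFun x := x.u
  map_one' := rfl
  map_mul' _ _ := rfl

/-- second entry -/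
def ha (K I : Type*) [Field K] [CommGroup I] : AM K I →* I where
  toFun x := x.a
  map_one' := rfl
  map_mul' _ _ := rfl

end AM

section free

variable {K : Type*} [Field K] {I : Type} [CommGroup I] {χ : F →* Kˣ} {ε : F →* I}
  (hχR : ∀ r ∈ R, χ r = 1) (hεR : ∀ r ∈ R, ε r = 1)

/-- the diagonal representation -/
def tM (χ : F →* Kˣ) (ε : F →* I) : F →* AM K I where
  toFun g := ⟨χ g, ε g, fun _ => 0⟩
  map_one' := by
    rw [map_one, map_one]
    rfl
  map_mul' g h := by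
    ext i
    · simp [AM.mul_u]
    · simp [AM.mul_a]
    · simp [AM.mul_m]

include hχR hεR in
theorem tM_R {r : F} (hr : r ∈ R) : tM χ ε r = 1 := by
  change (⟨χ r, ε r, fun _ => 0⟩ : AM K I) = 1
  rw [hχR r hr, hεR r hr]
  rfl

variable {n : ℕ} {G : Fin n → Type} [∀ j, Group (G j)] (a : CoprodI G →* F ⧸ R)

/-- compatible representations of a factor -/
def FitM (χ : F →* Kˣ) (ε : F →* I) (j : Fin n) (f : G j →* AM K I) : Prop :=
  ∀ y : G j, ∀ g : F, QuotientGroup.mk' R g = a (CoprodI.of y) → (f y).u = χ g ∧ (f y).a = ε g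

/-- the trivial compatible representation -/
def fM (j : Fin n) : G j →* AM K I :=
  (QuotientGroup.lift R (tM χ ε) (fun _ hr => tM_R hχR hεR hr)).comp
    (a.comp (CoprodI.of (M := G) (i := j)))

theorem fM_apply {j : Fin n} {y : G j} {g : F} (h : QuotientGroup.mk' R g = a (CoprodI.of y)) :
    fM hχR hεR a j y = ⟨χ g, ε g, fun _ => 0⟩ := by
  rw [fM, MonoidHom.comp_apply, MonoidHom.comp_apply, ← h]
  rfl

include hχR hεR in
/-- gluing -/
theorem free_M (ha : Function.Injective a) {U : Subgroup F}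
    (hU : ∀ u ∈ U, ∃ w, a w = QuotientGroup.mk' R u) {j : Fin n} {f : G j →* AM K I}
    (hf : FitM a χ ε j f) :
    ∃ Λ : F → I → K, DerM χ ε U Λ ∧ (∀ r ∈ R, r ∈ U → ∀ i, Λ r i = 0) ∧
      (∀ v : F, ∀ x : G j, QuotientGroup.mk' R v = a (CoprodI.of x) → Λ v = (f x).m) ∧
      ∀ i, i ≠ j → ∀ v : F, ∀ x : G i, QuotientGroup.mk' R v = a (CoprodI.of x) →
        ∀ i', Λ v i' = 0 := by
  obtain ⟨f', hf'⟩ : ∃ f' : ∀ i, G i →* AM K I,
      f' = Function.update (fun i => fM hχR hεR a i) j f := ⟨_, rfl⟩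
  have hj : f' j = f := by rw [hf', Function.update_self]
  have hi : ∀ i, i ≠ j → f' i = fM hχR hεR a i := by
    intro i hij
    rw [hf', Function.update_of_ne hij]
  have hfit : ∀ i, FitM a χ ε i (f' i) := by
    intro i
    by_cases hij : i = j
    · subst hij
      rw [hj]
      exact hf
    · rw [hi i hij]
      intro y g h
      rw [fM_apply hχR hεR a h]
      exact ⟨rfl, rfl⟩
  obtain ⟨P, hP⟩ : ∃ P : CoprodI G →* AM K I, ∀ i, ∀ x : G i, P (CoprodI.of x) = f' i x :=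
    ⟨CoprodI.lift f', fun i x => CoprodI.lift_of _ _⟩
  have hχ' : R ≤ χ.ker := fun r hr => hχR r hr
  have hε' : R ≤ ε.ker := fun r hr => hεR r hr
  have hPu : (AM.hu K I).comp P = (QuotientGroup.lift R χ hχ').comp a := by
    apply CoprodI.ext_hom
    intro i
    ext x
    simp only [MonoidHom.comp_apply]
    rw [hP, ← mk_ot]
    exact congrArg Units.val (hfit i x _ (mk_ot a x)).1
  have hPa : (AM.ha K I).comp P = (QuotientGroup.lift R ε hε').comp a := by
    apply CoprodI.ext_hom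
    intro i
    ext x
    simp only [MonoidHom.comp_apply]
    rw [hP, ← mk_ot]
    exact (hfit i x _ (mk_ot a x)).2
  have hPu' : ∀ w : CoprodI G, ∀ g : F, a w = QuotientGroup.mk' R g → (P w).u = χ g := by
    intro w g hw
    have h1 := DFunLike.congr_fun hPu w
    rw [MonoidHom.comp_apply, MonoidHom.comp_apply, hw] at h1
    exact h1
  have hPa' : ∀ w : CoprodI G, ∀ g : F, a w = QuotientGroup.mk' R g → (P w).a = ε g := by
    intro w g hw
    have h1 := DFunLike.congr_fun hPa w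
    rw [MonoidHom.comp_apply, MonoidHom.comp_apply, hw] at h1
    exact h1
  have hinv : ∀ w, Function.invFun a (a w) = w := Function.leftInverse_invFun ha
  refine ⟨fun g => (P (Function.invFun a (QuotientGroup.mk' R g))).m, ?_, ?_, ?_, ?_⟩
  · intro g hg k hk i
    obtain ⟨w, hw⟩ := hU g hg
    obtain ⟨w', hw'⟩ := hU k hk
    simp only
    rw [map_mul, ← hw, ← hw', ← map_mul, hinv, hinv, hinv, map_mul, AM.mul_m, hPu' w g hw,
      hPa' w g hw]
  · intro r hr _ i
    simp only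
    rw [mk_eq_one.2 hr, ← map_one a, hinv, map_one]
    rfl
  · intro v x hv
    simp only
    rw [hv, hinv, hP, hj]
  · intro i hij v x hv i'
    simp only
    rw [hv, hinv, hP, hi i hij, fM_apply hχR hεR a hv]

variable [Fintype I]

/-- the indicator function of `1` -/
noncomputable def dl (K I : Type*) [Field K] [CommGroup I] (i : I) : K := by
  classical exact if i = 1 then 1 else 0

theorem dl_sum : ∑ i, dl K I i = 1 := by
  classical
  simp [dl]

theorem dl_sum' (b : I) : ∑ i, dl K I (i * b) = 1 := by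
  rw [← dl_sum (K := K) (I := I)]
  exact Equiv.sum_comp (Equiv.mulRight b) fun i => dl K I i

include hχR hεR in
theorem goodM1 {j : Fin n} {y : G j} {g : F} (h : QuotientGroup.mk' R g = a (CoprodI.of y))
    (hg : χ g ≠ 1) : ∃ f : G j →* AM K I, FitM a χ ε j f ∧ ∃ y, ∑ i, (f y).m i ≠ 0 := by
  obtain ⟨c, hc⟩ : ∃ c : AM K I, c = ⟨1, 1, dl K I⟩ := ⟨_, rfl⟩
  refine ⟨(MulAut.conj c).toMonoidHom.comp (fM hχR hεR a j), ?_, y, ?_⟩
  · intro y g h
    rw [MonoidHom.comp_apply, fM_apply hχR hεR a h, hc]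
    change ((⟨1, 1, dl K I⟩ : AM K I) * ⟨χ g, ε g, fun _ => 0⟩ *
        (⟨1, 1, dl K I⟩ : AM K I)⁻¹).u = χ g ∧
      ((⟨1, 1, dl K I⟩ : AM K I) * ⟨χ g, ε g, fun _ => 0⟩ *
        (⟨1, 1, dl K I⟩ : AM K I)⁻¹).a = ε g
    constructor
    · simp [AM.mul_u, AM.inv_u]
    · simp [AM.mul_a, AM.inv_a]
  · rw [MonoidHom.comp_apply, fM_apply hχR hεR a h, hc]
    change ∑ i, ((⟨1, 1, dl K I⟩ : AM K I) * ⟨χ g, ε g, fun _ => 0⟩ *
      (⟨1, 1, dl K I⟩ : AM K I)⁻¹).m i ≠ 0
    have e : ∀ i, ((⟨1, 1, dl K I⟩ : AM K I) * ⟨χ g, ε g, fun _ => 0⟩ *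
        (⟨1, 1, dl K I⟩ : AM K I)⁻¹).m i = dl K I i - χ g * dl K I (i * ε g) := by
      intro i
      simp [AM.mul_u, AM.mul_a, AM.mul_m, AM.inv_m]
      ring
    rw [Finset.sum_congr rfl fun i _ => e i, Finset.sum_sub_distrib, ← Finset.mul_sum, dl_sum,
      dl_sum', mul_one]
    intro h7
    exact hg (Units.ext (sub_eq_zero.1 h7).symm)

include hχR in
theorem goodM2 (ha : Function.Injective a) {j : Fin n} [Nontrivial (G j)]
    (h : ∀ v ∈ VV a j, ε v = 1 ∧ (χ v = 1 → Ex3 v = 1 ∧ Ez2 v = 1)) :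
    ∃ f : G j →* AM K I, FitM a χ ε j f ∧ ∃ y, ∑ i, (f y).m i ≠ 0 := by
  obtain ⟨δ, hδ, hδ0, v, hv, hv0⟩ := exists_der (K := K) hχR (V := VV a j)
    (fun v hv hv1 => (h v hv).2 hv1) (by
      obtain ⟨x, hx⟩ := exists_ne (1 : G j)
      refine ⟨ot a x, ot_mem a x, ?_⟩
      intro hR
      apply hx
      have e1 := mk_ot a x
      rw [mk_eq_one.2 hR] at e1
      have e2 : CoprodI.of x = (1 : CoprodI G) := ha (e1.symm.trans (map_one a).symm)
      exact CoprodI.of_injective j (e2.trans (map_one _).symm))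
  have hmk : ∀ x y : G j, QuotientGroup.mk' R (ot a x * ot a y) =
      QuotientGroup.mk' R (ot a (x * y)) := by
    intro x y
    rw [map_mul, mk_ot, mk_ot, mk_ot, map_mul, map_mul]
  have hmk1 : QuotientGroup.mk' R (1 : F) = QuotientGroup.mk' R (ot a (1 : G j)) := by
    rw [mk_ot, map_one, map_one, map_one]
  let f : G j →* AM K I :=
    { toFun := fun x => ⟨χ (ot a x), 1, fun i => δ (ot a x) * dl K I i⟩
      map_one' := by
        rw [chi_coset hχR hmk1, hδ.coset (R_le_VV a j) hδ0 (VV a j).one_mem hmk1,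
          map_one, hδ.one]
        ext i
        · rfl
        · rfl
        · exact zero_mul _
      map_mul' := by
        intro x y
        rw [chi_coset hχR (hmk x y), hδ.coset (R_le_VV a j) hδ0
          ((VV a j).mul_mem (ot_mem a x) (ot_mem a y)) (hmk x y),
          hδ _ (ot_mem a x) _ (ot_mem a y), map_mul]
        ext i
        · simp [AM.mul_u]
        · simp [AM.mul_a]
        · simp only [AM.mul_m, mul_one]
          ring }
  refine ⟨f, ?_, ?_⟩
  · intro y g hg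
    have hgV : g ∈ VV a j := ⟨y, hg.symm⟩
    have e1 : χ g = χ (ot a y) := chi_coset hχR (by rw [mk_ot, hg])
    exact ⟨e1.symm, (h g hgV).1.symm⟩
  · obtain ⟨y, hy⟩ := hv
    refine ⟨y, ?_⟩
    change ∑ i, δ (ot a y) * dl K I i ≠ 0
    rw [← Finset.mul_sum, dl_sum, mul_one]
    have e1 : QuotientGroup.mk' R v = QuotientGroup.mk' R (ot a y) := by
      rw [mk_ot]
      exact hy.symm
    rw [hδ.coset (R_le_VV a j) hδ0 ⟨y, hy⟩ e1]
    exact hv0

include hχR hεR in
theorem goodM3 {j : Fin n} [Nontrivial (G j)] [IsFreeGroup (G j)] :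
    ∃ f : G j →* AM K I, FitM a χ ε j f ∧ ∃ y, ∑ i, (f y).m i ≠ 0 := by
  have hne : Nonempty (IsFreeGroup.Generators (G j)) := by
    by_contra hcon
    rw [not_nonempty_iff] at hcon
    obtain ⟨x, hx⟩ := exists_ne (1 : G j)
    apply hx
    have h1 : MonoidHom.id (G j) = 1 := by
      apply IsFreeGroup.ext_hom
      intro x
      exact hcon.elim x
    exact DFunLike.congr_fun h1 x
  obtain ⟨x0⟩ := hne
  obtain ⟨f, hf⟩ : ∃ f : G j →* AM K I, ∀ x : IsFreeGroup.Generators (G j),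
      f (IsFreeGroup.of x) = ⟨χ (ot a (IsFreeGroup.of x : G j)),
        ε (ot a (IsFreeGroup.of x : G j)), dl K I⟩ :=
    ⟨IsFreeGroup.lift fun x => ⟨χ (ot a (IsFreeGroup.of x : G j)),
        ε (ot a (IsFreeGroup.of x : G j)), dl K I⟩, fun x => IsFreeGroup.lift_of _ _⟩
  have hχ' : R ≤ χ.ker := fun r hr => hχR r hr
  have hε' : R ≤ ε.ker := fun r hr => hεR r hr
  have hu : (AM.hu K I).comp f =
      (QuotientGroup.lift R χ hχ').comp (a.comp (CoprodI.of (M := G) (i := j))) := by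
    apply IsFreeGroup.ext_hom
    intro x
    rw [MonoidHom.comp_apply, hf, MonoidHom.comp_apply, MonoidHom.comp_apply, ← mk_ot]
    rfl
  have hs : (AM.ha K I).comp f =
      (QuotientGroup.lift R ε hε').comp (a.comp (CoprodI.of (M := G) (i := j))) := by
    apply IsFreeGroup.ext_hom
    intro x
    rw [MonoidHom.comp_apply, hf, MonoidHom.comp_apply, MonoidHom.comp_apply, ← mk_ot]
    rfl
  refine ⟨f, ?_, IsFreeGroup.of x0, ?_⟩
  · intro y g hg
    have e1 := DFunLike.congr_fun hu y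
    have e2 := DFunLike.congr_fun hs y
    rw [MonoidHom.comp_apply, MonoidHom.comp_apply, MonoidHom.comp_apply, ← hg] at e1 e2
    exact ⟨e1, e2⟩
  · rw [hf]
    change ∑ i, dl K I i ≠ 0
    rw [dl_sum]
    exact one_ne_zero

end free

theorem ext_even {K : Type*} [Field K] (h2 : (2 : K) = 0) {χ : F →* Kˣ} {φ : F → K}
    (hφ : IsFn χ φ) {V : Subgroup F} (hV : ∀ v ∈ V, Ez2 v = 1) : Ext χ V φ := by
  have h3 : ((Fintype.card (Multiplicative (ZMod 3)) : ℕ) : K) ≠ 0 := by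
    rw [Fintype.card_multiplicative, ZMod.card]
    intro h3
    have h4 : (1 : K) = 0 := by
      have h5 : (3 : K) = 0 := by exact_mod_cast h3
      linear_combination h5 - h2
    exact one_ne_zero h4
  by_cases hx : ∃ v ∈ V, Ex3 v ≠ 1
  · refine ext_up Ex3 (fun r hr => Ex3_R hr) (surj3 hx) h3 hφ ?_
    exact ext_N hφ _ fun v hv => ⟨hv.2, hV v hv.1⟩
  · push Not at hx
    exact ext_N hφ _ fun v hv => ⟨hx v hv, hV v hv⟩

theorem ext_odd {φ : F → ZMod 3} {χ : F →* (ZMod 3)ˣ} (hφ : IsFn χ φ) {V : Subgroup F}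
    (hV : ∀ v ∈ V, Ex3 v = 1) : Ext χ V φ := by
  by_cases hx : ∃ v ∈ V, Ez2 v ≠ 1
  · refine ext_up Ez2 (fun r hr => Ez2_R hr) (surj2 hx) ?_ hφ ?_
    · rw [Fintype.card_multiplicative, ZMod.card]
      decide
    · exact ext_N hφ _ fun v hv => ⟨hV v hv.1, hv.2⟩
  · push Not at hx
    exact ext_N hφ _ fun v hv => ⟨hV v hv, hx v hv⟩

/-- **the common part** -/
theorem coreM {r : Fin 3 → F} (hr : Gen r) {T : Finset (Fin 3)} {E : Finset F}
    (h : ∀ i ∈ T, ∃ g s : F, s ∈ Q6 ∧ g * (r i * s) * g⁻¹ ∈ Subgroup.closure (E : Set F))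
    {n : ℕ} {G : Fin n → Type} [∀ j, Group (G j)] [∀ j, Nontrivial (G j)]
    (e : CoprodI G ≃* Subgroup.map (QuotientGroup.mk' R) (Subgroup.closure (E : Set F)))
    {K : Type*} [Field K] (h6 : (6 : K) = 0) {χ : F →* Kˣ} (hχR : ∀ r ∈ R, χ r = 1)
    {ψ : Fin 3 → F → K} (hψ : ∀ i, IsFn χ (ψ i)) (hd : ∀ i k, ψ i (r k) = if k = i then 1 else 0)
    {I : Type} [CommGroup I] [Fintype I] {ε : F →* I} (hεR : ∀ r ∈ R, ε r = 1)
    {σ : I} (hσ : ∀ f : I → K, (∀ i, f (i * σ) = f i) → ∀ i, f i = f 1)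
    (hsurj : ∀ V : Subgroup F, (∃ v ∈ V, ε v ≠ 1) → ∀ i, ∃ c ∈ V, ε c = i)
    (hext : ∀ V : Subgroup F, (∀ v ∈ V, ε v = 1) → ∀ i, Ext χ V (ψ i))
    (hFN : ∀ v, χ v = 1 → ε v = 1 → Ex3 v = 1 ∧ Ez2 v = 1)
    (hgood : ∀ j, (∃ g : F, ∃ y : G j, QuotientGroup.mk' R g = e (CoprodI.of y) ∧ χ g ≠ 1) ∨
      (∀ g : F, ∀ y : G j, QuotientGroup.mk' R g = e (CoprodI.of y) → ε g = 1) ∨
      IsFreeGroup (G j)) : T.card + n ≤ E.card := by
  have hU : Subgroup.closure (E : Set F) =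
      Subgroup.closure (Set.range (fun l : Fin E.card => (E.equivFin.symm l : F))) := by
    rw [range_E]
  obtain ⟨U, hU'⟩ : ∃ U, U = Subgroup.closure (E : Set F) := ⟨_, rfl⟩
  -- the map of the free product
  obtain ⟨a, ha⟩ : ∃ a : CoprodI G →* F ⧸ R, ∀ w, a w = (e w : F ⧸ R) :=
    ⟨(Subgroup.subtype _).comp e.toMonoidHom, fun w => rfl⟩
  have hai : Function.Injective a := by
    intro w w' hw
    rw [ha, ha] at hw
    exact e.injective (Subtype.ext hw)
  have haU : ∀ u ∈ U, ∃ w, a w = QuotientGroup.mk' R u := by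
    intro u hu
    rw [hU'] at hu
    refine ⟨e.symm ⟨_, Subgroup.mem_map_of_mem _ hu⟩, ?_⟩
    rw [ha, MulEquiv.apply_symm_apply]
  have hback : ∀ w, ∃ u ∈ U, QuotientGroup.mk' R u = a w := by
    intro w
    rw [ha, hU']
    exact (e w).2
  simp only [← ha] at hgood
  rw [← hU'] at h hU
  have h' : ∀ i : Fin T.card, ∃ g s : F,
      s ∈ Q6 ∧ g * (r (T.equivFin.symm i) * s) * g⁻¹ ∈ U := fun i => h _ (T.equivFin.symm i).2
  choose g s hs hgs using h'
  obtain ⟨ι, hι'⟩ : ∃ ι : Fin T.card → Fin 3, ι = fun i => ((T.equivFin.symm i : T) : Fin 3) :=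
    ⟨_, rfl⟩
  have hι : Function.Injective ι := by
    rw [hι']
    exact Subtype.val_injective.comp (Equiv.injective _)
  obtain ⟨p, hp⟩ : ∃ p : Fin T.card → F, p = fun i => g i * (r (ι i) * s i) * (g i)⁻¹ := ⟨_, rfl⟩
  have hpU : ∀ i, p i ∈ U := by
    intro i
    rw [hp, hι']
    exact hgs i
  have hrs : ∀ i, r (ι i) * s i ∈ R := fun i => R.mul_mem (hr.mem _) (Q6_le (hs i))
  have hpR : ∀ i, p i ∈ R := by
    intro i
    rw [hp]
    exact (inferInstance : R.Normal).conj_mem _ (hrs i) _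
  have hv : ∀ i j, ψ (ι i) (p j) = χ (g j) * (if ι j = ι i then 1 else 0) := by
    intro i j
    rw [hp]
    simp only
    rw [(hψ _).eqv _ _ (hrs j), (hψ _).add _ (hr.mem _) _ (Q6_le (hs j)),
      ((hψ _).q6 h6 (hs j)).2, add_zero, hd]
  have hne : ∀ i, ψ (ι i) (p i) ≠ 0 := by
    intro i
    rw [hv, if_pos rfl, mul_one]
    exact Units.ne_zero _
  have h0 : ∀ i j, i ≠ j → ψ (ι i) (p j) = 0 := by
    intro i j hij
    rw [hv, if_neg (fun h' => hij (hι h').symm), mul_zero]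
  have hgd : ∀ j, ∃ f : G j →* AM K I, FitM a χ ε j f ∧ ∃ y, ∑ i, (f y).m i ≠ 0 := by
    intro j
    rcases hgood j with ⟨g, y, hgy, hg⟩ | hev | hfr
    · exact goodM1 hχR hεR a hgy hg
    · refine goodM2 hχR a hai ?_
      rintro v ⟨y, hy⟩
      exact ⟨hev v y hy.symm, fun hv1 => hFN v hv1 (hev v y hy.symm)⟩
    · exact goodM3 hχR hεR a
  choose f hf y hy using hgd
  choose v' hv'U hv' using fun j => hback (CoprodI.of (y j))
  have hD := fun j => free_M hχR hεR a hai haU (hf j)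
  choose Λ hD1 hD2 hD3 hD4 using hD
  have hvne : ∀ j, ∑ i, Λ j (v' j) i ≠ 0 := by
    intro j
    rw [hD3 j (v' j) (y j) (hv' j)]
    exact hy j
  have hv0 : ∀ i j, i ≠ j → ∀ i', Λ i (v' j) i' = 0 := by
    intro i j hij
    exact hD4 i j hij.symm (v' j) (y j) (hv' j)
  by_cases hz : ∃ v ∈ U, ε v ≠ 1
  · exact count5 hU hpR hpU hne h0 hσ hεR (hsurj U hz) (fun i => hψ (ι i))
      (fun i => hext (U ⊓ ε.ker) (fun v hv => hv.2) (ι i)) hD1 hD2 hv'U hvne hv0
  · push Not at hz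
    refine count3 hU hpR hpU hne h0 (fun i => hext _ hz (ι i)) (D := fun j g => ∑ i, Λ j g i)
      (fun j => (hD1 j).total) ?_ hv'U hvne ?_
    · intro j r hr hrU
      exact Finset.sum_eq_zero fun i _ => hD2 j r hr hrU i
    · intro i j hij
      exact Finset.sum_eq_zero fun i' _ => hv0 i j hij i'

theorem cyc3 {K : Type*} (f : Multiplicative (ZMod 3) → K)
    (h : ∀ i, f (i * Multiplicative.ofAdd 1) = f i) (i : Multiplicative (ZMod 3)) : f i = f 1 := by
  have h1 : ∀ i : Multiplicative (ZMod 3), i = 1 ∨ i = 1 * Multiplicative.ofAdd 1 ∨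
      i = 1 * Multiplicative.ofAdd 1 * Multiplicative.ofAdd 1 := by decide
  rcases h1 i with rfl | rfl | rfl
  · rfl
  · exact h 1
  · rw [h, h]

theorem cyc2 {K : Type*} (f : Multiplicative (ZMod 2) → K)
    (h : ∀ i, f (i * Multiplicative.ofAdd 1) = f i) (i : Multiplicative (ZMod 2)) : f i = f 1 := by
  have h1 : ∀ i : Multiplicative (ZMod 2), i = 1 ∨ i = 1 * Multiplicative.ofAdd 1 := by decide
  rcases h1 i with rfl | rfl
  · rfl
  · exact h 1

/-- **relators and free factors, symmetric form** -/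
theorem thmK6 {r : Fin 3 → F} (hr : Gen r) {T : Finset (Fin 3)} {E : Finset F}
    (h : ∀ i ∈ T, ∃ g s : F, s ∈ Q6 ∧ g * (r i * s) * g⁻¹ ∈ Subgroup.closure (E : Set F))
    {n : ℕ} {G : Fin n → Type} [∀ j, Group (G j)] [∀ j, Nontrivial (G j)]
    (e : CoprodI G ≃* Subgroup.map (QuotientGroup.mk' R) (Subgroup.closure (E : Set F)))
    (hm : n ≤ 1 ∨
      (∀ j, (∃ g : F, ∃ y : G j, QuotientGroup.mk' R g = e (CoprodI.of y) ∧ Ex3 g ≠ 1) ∨
        (∀ g : F, ∀ y : G j, QuotientGroup.mk' R g = e (CoprodI.of y) → Ez2 g = 1) ∨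
        IsFreeGroup (G j)) ∨
      (∀ j, (∃ g : F, ∃ y : G j, QuotientGroup.mk' R g = e (CoprodI.of y) ∧ Ez2 g ≠ 1) ∨
        (∀ g : F, ∀ y : G j, QuotientGroup.mk' R g = e (CoprodI.of y) → Ex3 g = 1) ∨
        IsFreeGroup (G j))) : T.card + n ≤ E.card := by
  rcases hm with hm | hm | hm
  · exact thmK4 hr h e (Or.inl hm)
  · obtain ⟨K, _, w, h2, hw, hw1⟩ := exists_w
    obtain ⟨ψ, hψ, hd⟩ := dual2 hr h2 w hw hw1
    refine coreM hr h e (by linear_combination 3 * h2) (fun r hr => rho_R hw (one_pow 2) hr) hψ hd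
      (fun r hr => Ez2_R hr) (σ := Multiplicative.ofAdd 1) (fun f hf => cyc2 f hf)
      (fun V hV => surj2 hV) (fun V hV i => ext_even h2 (hψ i) hV) ?_ ?_
    · intro v hv1 hv2
      refine ⟨?_, hv2⟩
      by_contra h7
      exact chi2_ne w hw hw1 h7 hv1
    · intro j
      rcases hm j with ⟨g, y, hgy, hg⟩ | hm | hm
      · exact Or.inl ⟨g, y, hgy, chi2_ne w hw hw1 hg⟩
      · exact Or.inr (Or.inl hm)
      · exact Or.inr (Or.inr hm)
  · obtain ⟨ψ, hψ, hd⟩ := dual3 hr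
    refine coreM hr h e (by decide) (fun r hr => rho_R (one_pow 3) red_sq hr) hψ hd
      (fun r hr => Ex3_R hr) (σ := Multiplicative.ofAdd 1) (fun f hf => cyc3 f hf)
      (fun V hV => surj3 hV) (fun V hV i => ext_odd (hψ i) hV) ?_ ?_
    · intro v hv1 hv2
      refine ⟨hv2, ?_⟩
      by_contra h7
      exact chi3_ne h7 hv1
    · intro j
      rcases hm j with ⟨g, y, hgy, hg⟩ | hm | hm
      · exact Or.inl ⟨g, y, hgy, chi3_ne hg⟩
      · exact Or.inr (Or.inl hm)
      · exact Or.inr (Or.inr hm)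

end RG58
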