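import Pool.Agent.Lib.RG58.Tors

/-! Square roots in free products (helper58). -/

set_option autoImplicit false

namespace RG58

open Monoid

section general

variable {ι : Type*} {M : ι → Type*} [∀ i, Group (M i)]

/-- reduced lists of letters -/
def Red (l : List (Σ i, M i)) : Prop :=
  (∀ x ∈ l, x.2 ≠ 1) ∧ l.IsChain (fun a b => a.1 ≠ b.1)

theorem Red.append {l l' : List (Σ i, M i)} (h : Red l) (h' : Red l')
    (hh : ∀ a ∈ l.getLast?, ∀ b ∈ l'.head?, a.1 ≠ b.1) : Red (l ++ l') := by
  refine ⟨?_, h.2.append h'.2 hh⟩
  intro x hx
  rcases List.mem_append.1 hx with hx | hx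
  · exact h.1 x hx
  · exact h'.1 x hx

theorem Red.left {l l' : List (Σ i, M i)} (h : Red (l ++ l')) : Red l :=
  ⟨fun x hx => h.1 x (List.mem_append_left _ hx), (List.isChain_append.1 h.2).1⟩

theorem Red.right {l l' : List (Σ i, M i)} (h : Red (l ++ l')) : Red l' :=
  ⟨fun x hx => h.1 x (List.mem_append_right _ hx), (List.isChain_append.1 h.2).2.1⟩

theorem Red.mid {l l' : List (Σ i, M i)} (h : Red (l ++ l')) :
    ∀ a ∈ l.getLast?, ∀ b ∈ l'.head?, a.1 ≠ b.1 := (List.isChain_append.1 h.2).2.2

theorem Red.cons {x : Σ i, M i} {l : List (Σ i, M i)} :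
    Red (x :: l) ↔ x.2 ≠ 1 ∧ Red l ∧ ∀ b ∈ l.head?, x.1 ≠ b.1 := by
  constructor
  · intro h
    refine ⟨h.1 x List.mem_cons_self, ⟨fun y hy => h.1 y (List.mem_cons_of_mem _ hy),
      (List.isChain_cons.1 h.2).2⟩, (List.isChain_cons.1 h.2).1⟩
  · rintro ⟨h1, h2, h3⟩
    refine ⟨?_, List.isChain_cons.2 ⟨h3, h2.2⟩⟩
    intro y hy
    rcases List.mem_cons.1 hy with rfl | hy
    · exact h1
    · exact h2.1 y hy

theorem Red.single {x : Σ i, M i} (h : x.2 ≠ 1) : Red [x] :=
  Red.cons.2 ⟨h, ⟨fun y hy => absurd hy List.not_mem_nil, List.isChain_nil⟩, by simp⟩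

theorem Red.unique [DecidableEq ι] [∀ i, DecidableEq (M i)] {l l' : List (Σ i, M i)}
    (h : Red l) (h' : Red l') (hh : pl l = pl l') : l = l' := by
  let w : CoprodI.Word M := ⟨l, h.1, h.2⟩
  let w' : CoprodI.Word M := ⟨l', h'.1, h'.2⟩
  have h3 : w.prod = w'.prod := hh
  have h4 : w = w' := (CoprodI.Word.equiv (M := M)).symm.injective h3
  exact congrArg CoprodI.Word.toList h4

theorem exists_red [DecidableEq ι] [∀ i, DecidableEq (M i)] (g : CoprodI M) :
    ∃ l, Red l ∧ pl l = g :=
  ⟨(CoprodI.Word.equiv g).toList, ⟨(CoprodI.Word.equiv g).ne_one, (CoprodI.Word.equiv g).chain_ne⟩,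
    (CoprodI.Word.equiv (M := M)).symm_apply_apply g⟩

/-- the shape of the reduced form of a square -/
def Good (l : List (Σ i, M i)) : Prop :=
  pl l * pl l = 1 ∨ ∃ u, Red u ∧ pl u = pl l * pl l ∧ l.length ≤ u.length ∧
    u.head?.map Sigma.fst = l.head?.map Sigma.fst ∧
    u.getLast?.map Sigma.fst = l.getLast?.map Sigma.fst

theorem sq_good (n : ℕ) : ∀ l : List (Σ i, M i), l.length ≤ n → Red l → l ≠ [] → Good l := by
  induction n using Nat.strong_induction_on with
  | _ n ih =>
  intro l hl hr h0
  cases l with
  | nil => exact absurd rfl h0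
  | cons x l' =>
    rcases List.eq_nil_or_concat l' with rfl | ⟨l0, y, rfl⟩
    · by_cases hx : x.2 * x.2 = 1
      · left
        rw [pl_cons, pl_nil, mul_one, ← map_mul, hx, map_one]
      · right
        refine ⟨[⟨x.1, x.2 * x.2⟩], Red.single hx, ?_, le_refl _, rfl, rfl⟩
        rw [pl_cons, pl_cons, pl_nil, mul_one, mul_one, map_mul]
    · rw [List.concat_eq_append] at hr hl h0 ⊢
      by_cases hxy : y.1 = x.1
      · obtain ⟨i, m⟩ := x
        obtain ⟨j, m'⟩ := y
        change j = i at hxy
        subst hxy
        have hr' : Red l0 := (Red.cons.1 hr).2.1.left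
        have hx1 : m ≠ 1 := (Red.cons.1 hr).1
        have hy1 : m' ≠ 1 := hr.1 ⟨j, m'⟩ (by simp)
        have hl0 : l0 ≠ [] := by
          rintro rfl
          have := (Red.cons.1 hr).2.2 ⟨j, m'⟩ (by simp)
          exact this rfl
        have hlast : ∀ a ∈ l0.getLast?, a.1 ≠ j := by
          intro a ha
          exact (Red.cons.1 hr).2.1.mid a ha ⟨j, m'⟩ (by simp)
        have hhead : ∀ a ∈ l0.head?, j ≠ a.1 := by
          intro a ha
          apply (Red.cons.1 hr).2.2
          rw [List.head?_append_of_ne_nil _ hl0]
          exact ha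
        have hpl : pl (⟨j, m⟩ :: (l0 ++ [⟨j, m'⟩])) =
            CoprodI.of m * pl l0 * CoprodI.of m' := by
          rw [pl_cons, pl_append, pl_cons, pl_nil, mul_one, mul_assoc]
        by_cases hm : m' * m = 1
        · have hof : (CoprodI.of m' : CoprodI M) * CoprodI.of m = 1 := by
            rw [← map_mul, hm, map_one]
          have hsq : pl (⟨j, m⟩ :: (l0 ++ [⟨j, m'⟩])) * pl (⟨j, m⟩ :: (l0 ++ [⟨j, m'⟩])) =
              CoprodI.of m * (pl l0 * pl l0) * CoprodI.of m' := by
            rw [hpl]
            calc _ = CoprodI.of m * pl l0 * (CoprodI.of m' * CoprodI.of m) * pl l0 *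
                CoprodI.of m' := by group
              _ = _ := by rw [hof]; group
          rcases ih (n - 1) (by simp at hl; omega) l0 (by simp at hl; omega) hr' hl0 with h | h
          · left
            rw [hsq, h, mul_one]
            rw [← map_mul, mul_eq_one_comm.1 hm, map_one]
          · obtain ⟨u, h1, h2, h3, h4, h5⟩ := h
            right
            have hu : u ≠ [] := by
              rintro rfl
              have := List.length_pos_iff.2 hl0
              simp at h3
              exact hl0 h3
            refine ⟨⟨j, m⟩ :: (u ++ [⟨j, m'⟩]), ?_, ?_, ?_, rfl, ?_⟩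
            · rw [Red.cons]
              refine ⟨hx1, h1.append (Red.single hy1) ?_, ?_⟩
              · intro a ha b hb
                have hb' : b = ⟨j, m'⟩ := by simpa using hb.symm
                rw [hb']
                have : a.1 ∈ u.getLast?.map Sigma.fst := by
                  rw [Option.mem_def.1 ha]; rfl
                rw [h5, Option.mem_def, Option.map_eq_some_iff] at this
                obtain ⟨c, hc, hc'⟩ := this
                rw [← hc']
                exact hlast c hc
              · intro b hb
                rw [List.head?_append_of_ne_nil _ hu] at hb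
                have : b.1 ∈ u.head?.map Sigma.fst := by
                  rw [Option.mem_def.1 hb]; rfl
                rw [h4, Option.mem_def, Option.map_eq_some_iff] at this
                obtain ⟨c, hc, hc'⟩ := this
                rw [← hc']
                exact hhead c hc
            · rw [hsq, pl_cons, pl_append, pl_cons, pl_nil, mul_one, h2]
              simp only [mul_assoc]
            · simp
              exact h3
            · rw [← List.cons_append, ← List.cons_append, List.getLast?_append,
                List.getLast?_append]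
              rfl
        · right
          refine ⟨(⟨j, m⟩ :: l0) ++ (⟨j, m' * m⟩ :: (l0 ++ [⟨j, m'⟩])), ?_, ?_, ?_, rfl, ?_⟩
          · apply Red.append
            · exact Red.left (l' := [⟨j, m'⟩]) hr
            · rw [Red.cons]
              exact ⟨hm, (Red.cons.1 hr).2.1, (Red.cons.1 hr).2.2⟩
            · intro a ha b hb
              have hb' : b = ⟨j, m' * m⟩ := by simpa using hb.symm
              rw [hb']
              have ha' : a ∈ l0.getLast? := by
                rw [List.getLast?_cons_of_ne_nil hl0] at ha
                exact ha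
              exact hlast a ha'
          · rw [hpl, pl_append, pl_cons, pl_cons, pl_append, pl_cons, pl_nil, mul_one, map_mul]
            group
          · simp
          · rw [← List.cons_append, ← List.cons_append, ← List.append_assoc, List.getLast?_append,
              List.getLast?_append]
            have e : (⟨j, m⟩ :: l0 ++ [⟨j, m'⟩] : List (Σ i, M i)).getLast? = some ⟨j, m'⟩ := by
              rw [List.getLast?_append]
              rfl
            rw [e]
            rfl
      · right
        have hlast : (x :: (l0 ++ [y])).getLast? = some y := by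
          rw [← List.cons_append, List.getLast?_append]
          rfl
        refine ⟨(x :: (l0 ++ [y])) ++ (x :: (l0 ++ [y])), ?_, ?_, ?_, rfl, ?_⟩
        · apply Red.append hr hr
          intro a ha b hb
          rw [hlast] at ha
          have ha' : a = y := by simpa using ha.symm
          have hb' : b = x := by simpa using hb.symm
          rw [ha', hb']
          exact hxy
        · rw [pl_append]
        · simp
        · rw [List.getLast?_append, hlast]
          rfl

/-- **square roots in free products** are unique, outside the conjugates of the factors -/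
theorem sq_root [DecidableEq ι] [∀ i, DecidableEq (M i)] (α δ : CoprodI M) (h : α * α = δ * δ)
    (h1 : α * α ≠ 1) : α = δ ∨ ∃ (c : CoprodI M) (i : ι) (m m' : M i),
      α = c * CoprodI.of m * c⁻¹ ∧ δ = c * CoprodI.of m' * c⁻¹ := by
  classical
  have hex : ∃ k, ∃ (c : CoprodI M) (l : List (Σ i, M i)), c⁻¹ * α * c = pl l ∧ l.length = k := by
    obtain ⟨l, hl⟩ := exists_pl α
    exact ⟨l.length, 1, l, by rw [hl]; group, rfl⟩
  obtain ⟨c, l, hc, hk⟩ := Nat.find_spec hex
  have hmin : ∀ (c' : CoprodI M) (l' : List (Σ i, M i)), c'⁻¹ * α * c' = pl l' →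
      l.length ≤ l'.length := by
    intro c' l' h
    rw [hk]
    exact Nat.find_min' hex ⟨c', l', h, rfl⟩
  have hred : Red l := red_of_min l [] (by
    intro l' hl'
    exact hmin c l' (by rw [hc, hl']; rfl))
  have hgc : α = c * pl l * c⁻¹ := by rw [← hc]; group
  obtain ⟨v, hv, hvp⟩ := exists_red (c⁻¹ * δ * c)
  have hdc : δ = c * pl v * c⁻¹ := by rw [hvp]; group
  have hsq : pl v * pl v = pl l * pl l := by
    rw [hvp, ← hc]
    calc _ = c⁻¹ * (δ * δ) * c := by group
      _ = c⁻¹ * (α * α) * c := by rw [h]
      _ = _ := by group
  have hl1 : pl l * pl l ≠ 1 := by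
    intro h2
    apply h1
    rw [hgc]
    calc _ = c * (pl l * pl l) * c⁻¹ := by group
      _ = _ := by rw [h2]; group
  have hv0 : v ≠ [] := by
    rintro rfl
    rw [pl_nil, mul_one] at hsq
    exact hl1 hsq.symm
  rcases sq_good v.length v (le_refl _) hv hv0 with h2 | ⟨u, hu1, hu2, hu3, hu4, hu5⟩
  · rw [hsq] at h2
    exact absurd h2 hl1
  rw [hsq] at hu2
  cases l with
  | nil => exact absurd (by rw [pl_nil, mul_one]) hl1
  | cons x l0 =>
    rcases List.eq_nil_or_concat l0 with rfl | ⟨l1, y, rfl⟩
    · right
      have hx : x.2 * x.2 ≠ 1 := by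
        intro h3
        apply hl1
        rw [pl_cons, pl_nil, mul_one, ← map_mul, h3, map_one]
      have hu : u = [⟨x.1, x.2 * x.2⟩] := by
        apply hu1.unique (Red.single hx)
        rw [hu2, pl_cons, pl_cons, pl_nil, mul_one, mul_one, map_mul]
      rw [hu] at hu3 hu4
      cases v with
      | nil => exact absurd rfl hv0
      | cons w v' =>
        have hv' : v' = [] := by
          simpa using hu3
        subst hv'
        obtain ⟨i, m⟩ := x
        obtain ⟨j, m'⟩ := w
        have : i = j := by simpa using hu4
        subst this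
        refine ⟨c, i, m, m', ?_, ?_⟩
        · rw [hgc, pl_cons, pl_nil, mul_one]
        · rw [hdc, pl_cons, pl_nil, mul_one]
    · left
      have hxy : y.1 ≠ x.1 := by
        intro hxy
        obtain ⟨i, m⟩ := x
        obtain ⟨j, m'⟩ := y
        change j = i at hxy
        subst hxy
        have h3 := hmin (c * (CoprodI.of m')⁻¹) (⟨j, m' * m⟩ :: l1) (by
          rw [mul_inv_rev, inv_inv]
          have : CoprodI.of m' * c⁻¹ * α * (c * (CoprodI.of m')⁻¹) =
              CoprodI.of m' * (c⁻¹ * α * c) * (CoprodI.of m')⁻¹ := by group
          rw [this, hc, pl_cons, List.concat_eq_append, pl_append, pl_cons, pl_nil, pl_cons, map_mul]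
          group)
        simp at h3
      obtain ⟨l, hl⟩ : ∃ l, l = x :: l1.concat y := ⟨_, rfl⟩
      rw [← hl] at hred hgc hc hsq hu2 hl1
      have hlast : l.getLast? = some y := by
        rw [hl, List.concat_eq_append, ← List.cons_append, List.getLast?_append]
        rfl
      have hhead : l.head? = some x := by rw [hl]; rfl
      have hll : Red (l ++ l) := by
        apply hred.append hred
        intro a ha b hb
        rw [hlast] at ha
        rw [hhead] at hb
        have ha' : a = y := by simpa using ha.symm
        have hb' : b = x := by simpa using hb.symm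
        rw [ha', hb']
        exact hxy
      have hul : u = l ++ l := by
        apply hu1.unique hll
        rw [hu2, pl_append]
      have hl0 : l ≠ [] := by rw [hl]; simp
      have hvv : Red (v ++ v) := by
        apply hv.append hv
        intro a ha b hb
        have e1 : b.1 ∈ v.head?.map Sigma.fst := by
          rw [Option.mem_def.1 hb]; rfl
        rw [← hu4, hul, List.head?_append_of_ne_nil _ hl0, hhead] at e1
        have e2 : a.1 ∈ v.getLast?.map Sigma.fst := by
          rw [Option.mem_def.1 ha]; rfl
        rw [← hu5, hul, List.getLast?_append, hlast] at e2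
        have e3 : x.1 = b.1 := by simpa using e1
        have e4 : y.1 = a.1 := by simpa using e2
        rw [← e3, ← e4]
        exact hxy
      have hvl : v ++ v = l ++ l := by
        apply hvv.unique hll
        rw [pl_append, pl_append, hsq]
      have hlen : v.length = l.length := by
        have := congrArg List.length hvl
        simp at this
        omega
      have : v = l := (List.append_inj hvl hlen).1
      rw [hgc, hdc, this]

end general

end RG58
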