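import Pool.Agent.Lib.RG58.SqMain

/-! Products of two squares are not relators of a presentation with three relators, conclusion
(helper58). -/

set_option autoImplicit false

namespace RG58

open FreeGroup (of)
open Monoid

/-- the parity of the exponent sum of `z` -/
def Ez2 : F →* Multiplicative (ZMod 2) := rho 1 1 (Multiplicative.ofAdd 1) 1

/-- embedding of the additive group -/
def emb : Multiplicative (ZMod 2) →* TH (ZMod 2) where
  toFun m := ⟨1, Multiplicative.toAdd m, 0, 0⟩
  map_one' := rfl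
  map_mul' m n := by
    ext
    · simp [TH.mul_u]
    · simp only [toAdd_mul, TH.mul_p, Units.val_one]; ring
    · simp [TH.mul_s]
    · simp [TH.mul_q]

theorem rzt_p (g : F) : (rzt g).p = Multiplicative.toAdd (Ez2 g) := by
  have : TH.pr.comp rzt = emb.comp Ez2 := by
    apply rho_ext
    · simp only [MonoidHom.comp_apply, rzt, Ez2, rho0, map_one]
      rfl
    · simp only [MonoidHom.comp_apply, rzt, Ez2, rho1, map_one]
    · simp only [MonoidHom.comp_apply, rzt, Ez2, rho2]
      rfl
    · simp only [MonoidHom.comp_apply, rzt, Ez2, rho3, map_one]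
      rfl
  exact congrArg TH.p (DFunLike.congr_fun this g)

theorem rz1_p (g : F) : (rho (⟨1, 0, 0, 0⟩ : TH (ZMod 2)) 1 ⟨1, 1, 1, 0⟩ 1 g).p =
    Multiplicative.toAdd (Ez2 g) := by
  have : TH.pr.comp (rho (⟨1, 0, 0, 0⟩ : TH (ZMod 2)) 1 ⟨1, 1, 1, 0⟩ 1) = emb.comp Ez2 := by
    apply rho_ext
    · simp only [MonoidHom.comp_apply, Ez2, rho0, map_one]
      rfl
    · simp only [MonoidHom.comp_apply, Ez2, rho1, map_one]
    · simp only [MonoidHom.comp_apply, Ez2, rho2]
      rfl
    · simp only [MonoidHom.comp_apply, Ez2, rho3, map_one]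
  exact congrArg TH.p (DFunLike.congr_fun this g)

theorem rzt_s {g : F} (hg : Et g = 1) : (rzt g).s = 0 := by
  have : TH.ps.comp rzt = rho 1 1 1 (⟨1, 1, 0, 0⟩ : TH (ZMod 2)) := by
    apply rho_ext
    · simp only [MonoidHom.comp_apply, rzt, rho0]
      rfl
    · simp only [MonoidHom.comp_apply, rzt, rho1, map_one]
    · simp only [MonoidHom.comp_apply, rzt, rho2]
      rfl
    · simp only [MonoidHom.comp_apply, rzt, rho3]
      rfl
  have h2 := DFunLike.congr_fun this g
  rw [rho_t, hg, toAdd_one, zpow_zero] at h2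
  exact congrArg TH.p h2

/-- squares of unipotent matrices in characteristic two -/
theorem sq_two {a b : TH (ZMod 2)} (ha : a.u = 1) (hb : b.u = 1) :
    (a * a * (b * b)).q = a.p * a.s + b.p * b.s := by
  have h2 : (2 : ZMod 2) = 0 := by decide
  simp only [TH.mul_u, TH.mul_p, TH.mul_s, TH.mul_q, Units.val_mul, ha, hb, Units.val_one]
  linear_combination (a.q + b.q + 2 * a.p * b.s) * h2

/-- **the parities of the exponent sums of `z` are different** -/
theorem sq_z {r : Fin 3 → F} (hr : Gen r) (i : Fin 3) {a b s : F} (hs : s ∈ Q6)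
    (hi : r i = a * a * (b * b) * s) (ha : Et a = 1) (hb : Et b = 1) : Ez2 a ≠ Ez2 b := by
  intro hab
  have hR : a * a * (b * b) ∈ R := by
    have := hr.mem i
    rw [hi] at this
    exact (R.mul_mem_cancel_right (Q6_le hs)).1 this
  have h2 : (2 : ZMod 2) = 0 := by decide
  rcases triple2 hr i with h | h | h
  · apply h
    have hfn := fx2.1
    have m : ∀ f : F, rho (⟨1, 0, 0, 1⟩ : TH (ZMod 2)) 1 1 1 f ∈ TH.corner (ZMod 2) :=
      rho_mem _ ⟨rfl, rfl, rfl⟩ (Subgroup.one_mem _) (Subgroup.one_mem _) (Subgroup.one_mem _)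
    have hval : (rho (⟨1, 0, 0, 1⟩ : TH (ZMod 2)) 1 1 1 (a * a * (b * b))).q = 0 := by
      rw [map_mul, map_mul, map_mul, sq_two (m a).1 (m b).1, (m a).2.1, (m b).2.1]
      ring
    rw [hi]
    refine (hfn.add _ hR _ (Q6_le hs)).trans ?_
    rw [(hfn.q6 (by decide) hs).2, add_zero]
    exact hval
  · apply h
    have hfn := (fz h2 (1 : (ZMod 2)ˣ) (one_pow 3)).1
    have m : ∀ f : F, rho (⟨1, 0, 0, 0⟩ : TH (ZMod 2)) 1 ⟨1, 1, 1, 0⟩ 1 f ∈
        TH.diagS (ZMod 2) :=
      rho_mem _ ⟨rfl, rfl⟩ (Subgroup.one_mem _) ⟨rfl, rfl⟩ (Subgroup.one_mem _)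
    have hval : (rho (⟨1, 0, 0, 0⟩ : TH (ZMod 2)) 1 ⟨1, 1, 1, 0⟩ 1 (a * a * (b * b))).q = 0 := by
      rw [map_mul, map_mul, map_mul, sq_two (m a).1 (m b).1, ← (m a).2, ← (m b).2, rz1_p, rz1_p,
        hab]
      linear_combination (Multiplicative.toAdd (Ez2 b)) ^ 2 * h2
    rw [hi]
    refine (hfn.add _ hR _ (Q6_le hs)).trans ?_
    rw [(hfn.q6 (by decide) hs).2, add_zero]
    exact hval
  · apply h
    have hfn := (fzt h2 (1 : (ZMod 2)ˣ) (one_pow 3)).1
    have m : ∀ f : F, rzt f ∈ TH.uni (ZMod 2) := rho_mem _ rfl (Subgroup.one_mem _) rfl rfl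
    have hval : (rzt (a * a * (b * b))).q = 0 := by
      rw [map_mul, map_mul, map_mul, sq_two (m a) (m b), rzt_s ha, rzt_s hb]
      ring
    rw [hi]
    refine (hfn.add _ hR _ (Q6_le hs)).trans ?_
    rw [(hfn.q6 (by decide) hs).2, add_zero]
    exact hval

theorem mul_two {m : Multiplicative (ZMod 2)} : m * m = 1 := by
  revert m
  decide

/-- an element outside `R` with square in `R` has odd exponent sum of `z` -/
theorem odd_of_sq {g : F} (hg : g ∉ R) (hg2 : g * g ∈ R) : Ez2 g ≠ 1 := by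
  intro hz
  obtain ⟨K, _, w, h2, hw, hw1⟩ := exists_w
  rcases char_ne_one w hw hw1 (n := 2) (by norm_num) hg (by rw [pow_two]; exact hg2) with h | h
  · apply h
    have h4 : rho w 1 1 1 (g * g) = 1 := rho_R hw (one_pow 2) hg2
    have h5 : rho w 1 1 1 g ^ 3 = 1 := by
      have h6 : ∀ g : F, rho w 1 1 1 g ∈ (powMonoidHom 3 : Kˣ →* Kˣ).ker :=
        rho_mem _ hw (Subgroup.one_mem _) (Subgroup.one_mem _) (Subgroup.one_mem _)
      exact h6 g
    rw [map_mul] at h4
    rw [pow_succ, pow_two, h4, one_mul] at h5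
    exact h5
  · apply h
    have h6 : rho 1 1 (red (-1)) 1 = (zm 2 (red (-1)) red_sq).comp Ez2 := by
      apply rho_ext
      · rw [MonoidHom.comp_apply, Ez2, rho0, rho0, map_one]
      · rw [MonoidHom.comp_apply, Ez2, rho1, rho1, map_one]
      · rw [MonoidHom.comp_apply, Ez2, rho2, rho2]
        exact (pow_one _).symm
      · rw [MonoidHom.comp_apply, Ez2, rho3, rho3, map_one]
    rw [h6, MonoidHom.comp_apply, hz, map_one]

theorem Ez2_Th : (bk (1 : Multiplicative (ZMod 2)) 1 (Multiplicative.ofAdd 1) 1 (one_pow 3)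
    (by rw [pow_two]; exact mul_two) (Commute.one_right _) (Commute.one_right _)).comp Th = Ez2 :=
  bk_Th _ _ _ _ _ _ _ _

theorem Et_Th : (bk (1 : Multiplicative ℤ) 1 1 (Multiplicative.ofAdd 1) (one_pow 3) (one_pow 2)
    (Commute.one_right _) (Commute.one_left _)).comp Th = Et :=
  bk_Th _ _ _ _ _ _ _ _

/-- **products of two squares** -/
theorem no_sq {r : Fin 3 → F} (hr : Gen r) (i : Fin 3) {a b s : F} (hs : s ∈ Q6)
    (hi : r i = a * a * (b * b) * s) (ha : a ∉ R) (hb : b ∉ R) : False := by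
  have hR : a * a * (b * b) ∈ R := by
    have := hr.mem i
    rw [hi] at this
    exact (R.mul_mem_cancel_right (Q6_le hs)).1 this
  have ta : Et a = 1 := sq_t hr i hs hi
  have tb : Et b = 1 := by
    have h1 : Et (a * a * (b * b)) = 1 := rho_R (one_pow 3) (one_pow 2) hR
    rw [map_mul, map_mul, map_mul, ta, one_mul, one_mul] at h1
    have h2 := congrArg Multiplicative.toAdd h1
    apply Multiplicative.toAdd.injective
    rw [toAdd_mul, toAdd_one] at h2
    rw [toAdd_one]
    omega
  have hz : Ez2 a ≠ Ez2 b := sq_z hr i hs hi ta tb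
  have two : ∀ m n : Multiplicative (ZMod 2), m ≠ 1 → n ≠ 1 → m = n := by decide
  have hT : Th a * Th a * (Th b * Th b) = 1 := by
    rw [← map_mul, ← map_mul, ← map_mul]
    exact Th_R hR
  by_cases h1 : Th a * Th a = 1
  · have h2 : Th b * Th b = 1 := by rw [h1, one_mul] at hT; exact hT
    have h3 : a * a ∈ R := Th_ker (by rw [map_mul]; exact h1)
    have h4 : b * b ∈ R := Th_ker (by rw [map_mul]; exact h2)
    exact hz (two _ _ (odd_of_sq ha h3) (odd_of_sq hb h4))
  · have h2 : Th a * Th a = (Th b)⁻¹ * (Th b)⁻¹ := by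
      rw [← mul_inv_rev]
      exact eq_inv_of_mul_eq_one_left hT
    rcases sq_root (Th a) (Th b)⁻¹ h2 h1 with h3 | ⟨c, i, m, m', h3, h4⟩
    · have h5 : a * b ∈ R := Th_ker (by rw [map_mul, h3, inv_mul_cancel])
      have h6 : Ez2 (a * b) = 1 :=
        rho_R (one_pow 3) (by rw [pow_two]; exact mul_two) h5
      rw [map_mul] at h6
      apply hz
      have two' : ∀ m n : Multiplicative (ZMod 2), m * n = 1 → m = n := by decide
      exact two' _ _ h6
    · cases i with
      | false =>
        have e : ∀ g : F, ∀ m : MM false, Th g = c * CoprodI.of m * c⁻¹ → Ez2 g = 1 := by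
          intro g m hg
          rw [← Ez2_Th, MonoidHom.comp_apply, hg, map_mul, map_mul, map_inv, mul_comm,
            inv_mul_cancel_left, bk_of]
          change (1 : Multiplicative (ZMod 2)) ^ (_ : ℕ) * (1 : Multiplicative (ZMod 2)) ^ (_ : ℤ) = 1
          rw [one_pow, one_zpow, one_mul]
        have e1 := e a m h3
        have e2 := e b⁻¹ m' (by rw [map_inv]; exact h4)
        rw [map_inv, inv_eq_one] at e2
        exact hz (e1.trans e2.symm)
      | true =>
        obtain ⟨p, q⟩ := m
        have e : Et a = q := by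
          rw [← Et_Th, MonoidHom.comp_apply, h3, map_mul, map_mul, map_inv, mul_comm,
            inv_mul_cancel_left, bk_of]
          change (1 : Multiplicative ℤ) ^ (_ : ℕ) *
            (Multiplicative.ofAdd (1 : ℤ)) ^ (Multiplicative.toAdd q) = q
          rw [one_pow, one_mul]
          apply Multiplicative.toAdd.injective
          rw [toAdd_zpow, toAdd_ofAdd]
          simp
        rw [ta] at e
        subst e
        apply h1
        have h5 : ((p, 1) * (p, 1) : MM true) = 1 := by
          ext1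
          · exact mul_two
          · rfl
        obtain ⟨m1, hm1⟩ : ∃ m1 : MM true, m1 = (p, 1) := ⟨_, rfl⟩
        rw [← hm1] at h3 h5
        have h6 : (CoprodI.of m1 : CoprodI MM) * CoprodI.of m1 = 1 := by
          rw [← map_mul, h5, map_one]
        rw [h3]
        calc _ = c * ((CoprodI.of m1 : CoprodI MM) * CoprodI.of m1) * c⁻¹ := by group
          _ = 1 := by rw [h6]; group

end RG58
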