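import Pool.Agent.Lib.RG58.Last

/-! Functionals at the characters `t ↦ θ` in characteristic 3 (helper58). -/

set_option autoImplicit false

namespace RG58

open FreeGroup (of)

/-- the exponent sum of `t` -/
def Et : F →* Multiplicative ℤ := rho 1 1 1 (Multiplicative.ofAdd 1)

theorem rho_t {G : Type*} [Group G] (c : G) (g : F) :
    rho 1 1 1 c g = c ^ (Multiplicative.toAdd (Et g)) := by
  have : rho 1 1 1 c = (zpowersHom G c).comp Et := by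
    apply rho_ext
    · simp [Et, rho0]
    · simp [Et, rho1]
    · simp [Et, rho2]
    · simp [Et, rho3]
  rw [this]
  rfl

/-- commutative targets: the kernel contains `R` as soon as the two powers vanish -/
theorem rho_R {G : Type*} [CommGroup G] {a b c d : G} (ha : a ^ 3 = 1) (hc : c ^ 2 = 1) {g : F}
    (hg : g ∈ R) : rho a b c d g = 1 := by
  have hle : R ≤ (rho a b c d).ker := by
    apply Subgroup.normalClosure_le_normal
    apply rel_cases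
    · change rho a b c d (of 0 ^ 3) = 1
      rw [map_pow, rho0, ha]
    · change rho a b c d (of 2 ^ 2) = 1
      rw [map_pow, rho2, hc]
    · exact rho_comm a b c d (of 0) (of 1)
    · exact rho_comm a b c d (of 2) (of 3)
  exact hle hg

namespace TH

variable {K : Type*} [CommRing K]

/-- product of two squares, character `-1` on both -/
theorem sq_sq {a b : TH K} (ha : a.u = -1) (hb : b.u = -1) :
    (a * a * (b * b)).p = 0 ∧ (a * a * (b * b)).s = 2 * (a.s + b.s) ∧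
      (a * a * (b * b)).q = a.p * a.s + b.p * b.s := by
  have ha' : (a.u : K) = -1 := by rw [ha, Units.val_neg, Units.val_one]
  have hb' : (b.u : K) = -1 := by rw [hb, Units.val_neg, Units.val_one]
  refine ⟨?_, ?_, ?_⟩
  · simp only [mul_u, mul_p, Units.val_mul, ha', hb']
    ring
  · simp only [mul_s]
    ring
  · simp only [mul_u, mul_p, mul_s, mul_q, Units.val_mul, ha', hb']
    ring

/-- the matrices with `p = 0` -/
def pz (K : Type*) [CommRing K] : Subgroup (TH K) where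
  carrier := {a | a.p = 0}
  one_mem' := rfl
  mul_mem' := by
    intro a b h1 h2
    change a.u * b.p + a.p = 0
    rw [show a.p = 0 from h1, show b.p = 0 from h2]
    ring
  inv_mem' := by
    intro a h1
    change - ((a.u⁻¹ : Kˣ) * a.p) = 0
    rw [show a.p = 0 from h1]
    ring

end TH

/-! ### division by three -/

section fA

variable {O : Type*} [CommRing O]

/-- `u = 1` and `p ∈ 3 O` -/
def V3 (O : Type*) [CommRing O] : Subgroup (TH O) where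
  carrier := {a | a.u = 1 ∧ ∃ c, a.p = 3 * c}
  one_mem' := ⟨rfl, 0, by rw [mul_zero]; rfl⟩
  mul_mem' := by
    rintro a b ⟨h1, c, h2⟩ ⟨h3, d, h4⟩
    refine ⟨by rw [TH.mul_u, h1, h3, one_mul], c + d, ?_⟩
    rw [TH.mul_p, h1, h2, h4, Units.val_one]
    ring
  inv_mem' := by
    rintro a ⟨h1, c, h2⟩
    refine ⟨by rw [TH.inv_u, h1, inv_one], -c, ?_⟩
    rw [TH.inv_p, h1, h2, inv_one, Units.val_one]
    ring

theorem V3_conj (a g : TH O) (ha : a.u = 1) : (g * a * g⁻¹).u = 1 ∧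
    (g * a * g⁻¹).p = g.u * a.p := by
  have h4 : (g.u : O) * ((g.u⁻¹ : Oˣ) : O) = 1 := Units.mul_inv g.u
  refine ⟨?_, ?_⟩
  · simp only [TH.mul_u, TH.inv_u, ha, mul_one, mul_inv_cancel]
  · simp only [TH.mul_u, TH.mul_p, TH.inv_p, ha, mul_one]
    linear_combination (- g.p) * h4

instance : (V3 O).Normal := by
  constructor
  rintro a ⟨h1, c, h2⟩ g
  obtain ⟨h3, h4⟩ := V3_conj a g h1
  refine ⟨h3, g.u * c, ?_⟩
  rw [h4, h2]
  ring

/-- `∂/∂x` with values in `O` -/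
def rA (τ : Oˣ) : F →* TH O := rho ⟨1, 1, 0, 0⟩ 1 1 ⟨τ, 0, 0, 0⟩

theorem rA_le (τ : Oˣ) : R ≤ (V3 O).comap (rA τ) := by
  apply Subgroup.normalClosure_le_normal
  apply rel_cases
  · change rA τ (of 0 ^ 3) ∈ V3 O
    rw [map_pow, rA, rho0, pow_succ, pow_two]
    refine ⟨by simp [TH.mul_u], 1, ?_⟩
    simp only [TH.mul_u, TH.mul_p, Units.val_one]
    norm_num
  · change rA τ (of 2 ^ 2) ∈ V3 O
    rw [map_pow, rA, rho2, one_pow]
    exact (V3 O).one_mem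
  · change rA τ (of 0 * of 1 * (of 0)⁻¹ * (of 1)⁻¹) ∈ V3 O
    rw [map_mul, map_mul, map_mul, map_inv, map_inv, rA, rho0, rho1, mul_one, mul_inv_cancel,
      inv_one, mul_one]
    exact (V3 O).one_mem
  · change rA τ (of 2 * of 3 * (of 2)⁻¹ * (of 3)⁻¹) ∈ V3 O
    rw [map_mul, map_mul, map_mul, map_inv, map_inv, rA, rho2, rho3, one_mul, inv_one, mul_one,
      mul_inv_cancel]
    exact (V3 O).one_mem

variable {K : Type*} [Field K] (f : O →+* K) (h3 : ∀ c d : O, 3 * c = 3 * d → c = d) (τ : Oˣ)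

open Classical in
/-- `∂/∂x` divided by three -/
noncomputable def fA (f : O →+* K) (τ : Oˣ) (g : F) : K :=
  if h : ∃ c, (rA τ g).p = 3 * c then f h.choose else 0

include h3

theorem fA_eq {g : F} {c : O} (h : (rA τ g).p = 3 * c) : fA f τ g = f c := by
  have hex : ∃ c, (rA τ g).p = 3 * c := ⟨c, h⟩
  rw [fA, dif_pos hex]
  congr 1
  apply h3
  rw [← hex.choose_spec, h]

theorem fA_fn : IsFn (rho 1 1 1 (Units.map f.toMonoidHom τ)) (fA f τ) := by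
  have hchi : ∀ g : F, rho 1 1 1 (Units.map f.toMonoidHom τ) g =
      Units.map f.toMonoidHom (rA τ g).u := by
    intro g
    have : rho 1 1 1 (Units.map f.toMonoidHom τ) =
        ((Units.map f.toMonoidHom).comp TH.chi).comp (rA τ) := by
      apply rho_ext
      · simp only [MonoidHom.comp_apply, rA, rho0]
        exact (map_one _).symm
      · simp only [MonoidHom.comp_apply, rA, rho1, map_one]
      · simp only [MonoidHom.comp_apply, rA, rho2, map_one]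
      · simp only [MonoidHom.comp_apply, rA, rho3]
        rfl
    rw [this]
    rfl
  constructor
  · intro r hr s hs
    obtain ⟨h1, c, h2⟩ := rA_le τ hr
    obtain ⟨h4, d, h5⟩ := rA_le τ hs
    rw [fA_eq f h3 τ h2, fA_eq f h3 τ h5, ← map_add]
    apply fA_eq f h3 τ
    rw [map_mul, TH.mul_p, h1, h2, h5, Units.val_one]
    ring
  · intro g r hr
    obtain ⟨h1, c, h2⟩ := rA_le τ hr
    rw [fA_eq f h3 τ h2, hchi]
    change fA f τ (g * r * g⁻¹) = f ((rA τ g).u : O) * f c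
    rw [← map_mul]
    apply fA_eq f h3 τ
    rw [map_mul, map_mul, map_inv, (V3_conj _ _ h1).2, h2]
    ring

theorem fA_val : fA f τ (of 0 ^ 3) = 1 ∧ fA f τ (of 2 ^ 2) = 0 ∧
    fA f τ (of 0 * of 1 * (of 0)⁻¹ * (of 1)⁻¹) = 0 := by
  refine ⟨?_, ?_, ?_⟩
  · rw [fA_eq f h3 τ (c := 1), map_one]
    rw [map_pow, rA, rho0, pow_succ, pow_two]
    simp only [TH.mul_u, TH.mul_p, Units.val_one]
    norm_num
  · rw [fA_eq f h3 τ (c := 0), map_zero]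
    rw [map_pow, rA, rho2, one_pow, mul_zero]
    rfl
  · rw [fA_eq f h3 τ (c := 0), map_zero]
    rw [map_mul, map_mul, map_mul, map_inv, map_inv, rA, rho0, rho1, mul_one, mul_inv_cancel,
      inv_one, mul_one, mul_zero]
    rfl

end fA

section theta

variable {K : Type*} [Field K] (h3 : (3 : K) = 0) (θ : Kˣ)

theorem fB : IsFn (rho 1 1 1 θ)
      (fun g => (rho (1 : TH K) 1 ⟨1, 0, 0, 1⟩ ⟨θ, 0, 0, 0⟩ g).q) ∧
    (rho (1 : TH K) 1 ⟨1, 0, 0, 1⟩ ⟨θ, 0, 0, 0⟩ (of 0 ^ 3)).q = 0 ∧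
    (rho (1 : TH K) 1 ⟨1, 0, 0, 1⟩ ⟨θ, 0, 0, 0⟩ (of 2 ^ 2)).q = 2 ∧
    (rho (1 : TH K) 1 ⟨1, 0, 0, 1⟩ ⟨θ, 0, 0, 0⟩ (of 0 * of 1 * (of 0)⁻¹ * (of 1)⁻¹)).q = 0 ∧
    (rho (1 : TH K) 1 ⟨1, 0, 0, 1⟩ ⟨θ, 0, 0, 0⟩ (of 2 * of 3 * (of 2)⁻¹ * (of 3)⁻¹)).q =
      1 - θ := by
  have h := fn_of (K := K) (a := 1) (b := 1) (c := ⟨1, 0, 0, 1⟩) (d := ⟨θ, 0, 0, 0⟩)
    (q0 := 0) (q1 := 2) (q2 := 0) (q3 := 1 - θ) ?_ ?_ ?_ ?_
  · rwa [chi_rho] at h
  · rw [one_pow]; rfl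
  · rw [pow_two]
    ext <;> simp [TH.mul_u, TH.mul_p, TH.mul_s, TH.mul_q, cn]
    norm_num
  · rw [one_mul, inv_one, mul_one, mul_one]; rfl
  · ext <;> simp [TH.mul_u, TH.mul_p, TH.mul_s, TH.mul_q, TH.inv_u, TH.inv_p, TH.inv_s, TH.inv_q,
      cn]
    ring

include h3 in
theorem fC : IsFn (rho 1 1 1 θ)
      (fun g => (rho (⟨1, 1, 0, 0⟩ : TH K) ⟨1, 0, 1, 0⟩ 1 ⟨θ, 0, 0, 0⟩ g).q) ∧
    (rho (⟨1, 1, 0, 0⟩ : TH K) ⟨1, 0, 1, 0⟩ 1 ⟨θ, 0, 0, 0⟩ (of 0 ^ 3)).q = 0 ∧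
    (rho (⟨1, 1, 0, 0⟩ : TH K) ⟨1, 0, 1, 0⟩ 1 ⟨θ, 0, 0, 0⟩ (of 2 ^ 2)).q = 0 ∧
    (rho (⟨1, 1, 0, 0⟩ : TH K) ⟨1, 0, 1, 0⟩ 1 ⟨θ, 0, 0, 0⟩
      (of 0 * of 1 * (of 0)⁻¹ * (of 1)⁻¹)).q = 1 ∧
    (rho (⟨1, 1, 0, 0⟩ : TH K) ⟨1, 0, 1, 0⟩ 1 ⟨θ, 0, 0, 0⟩
      (of 2 * of 3 * (of 2)⁻¹ * (of 3)⁻¹)).q = 0 := by
  have h := fn_of (K := K) (a := ⟨1, 1, 0, 0⟩) (b := ⟨1, 0, 1, 0⟩) (c := 1) (d := ⟨θ, 0, 0, 0⟩)
    (q0 := 0) (q1 := 0) (q2 := 1) (q3 := 0) ?_ ?_ ?_ ?_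
  · rwa [chi_rho] at h
  · rw [pow_succ, pow_two]
    ext <;> simp [TH.mul_u, TH.mul_p, TH.mul_s, TH.mul_q, cn]
    linear_combination h3
  · rw [one_pow]; rfl
  · ext <;> simp [TH.mul_u, TH.mul_p, TH.mul_s, TH.mul_q, TH.inv_u, TH.inv_p, TH.inv_s, TH.inv_q,
      cn]
  · rw [one_mul, inv_one, mul_one, mul_inv_cancel]
    rfl

include h3 in
theorem fC_corner {g : F} (hg : g ∈ R) :
    rho (⟨1, 1, 0, 0⟩ : TH K) ⟨1, 0, 1, 0⟩ 1 ⟨θ, 0, 0, 0⟩ g ∈ TH.corner K := by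
  have hle : R ≤ (TH.corner K).comap
      (rho (⟨1, 1, 0, 0⟩ : TH K) ⟨1, 0, 1, 0⟩ 1 ⟨θ, 0, 0, 0⟩) := by
    apply Subgroup.normalClosure_le_normal
    apply rel_cases
    · change rho (⟨1, 1, 0, 0⟩ : TH K) ⟨1, 0, 1, 0⟩ 1 ⟨θ, 0, 0, 0⟩ (of 0 ^ 3) ∈ TH.corner K
      rw [map_pow, rho0, pow_succ, pow_two]
      refine ⟨?_, ?_, ?_⟩
      · simp [TH.mul_u]
      · simp [TH.mul_p, TH.mul_u]
        linear_combination h3
      · simp [TH.mul_s]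
    · change rho (⟨1, 1, 0, 0⟩ : TH K) ⟨1, 0, 1, 0⟩ 1 ⟨θ, 0, 0, 0⟩ (of 2 ^ 2) ∈ TH.corner K
      rw [map_pow, rho2, one_pow]
      exact Subgroup.one_mem _
    · change rho (⟨1, 1, 0, 0⟩ : TH K) ⟨1, 0, 1, 0⟩ 1 ⟨θ, 0, 0, 0⟩
        (of 0 * of 1 * (of 0)⁻¹ * (of 1)⁻¹) ∈ TH.corner K
      rw [map_mul, map_mul, map_mul, map_inv, map_inv, rho0, rho1]
      refine ⟨?_, ?_, ?_⟩ <;> simp [TH.mul_u, TH.mul_p, TH.mul_s, TH.inv_u, TH.inv_p, TH.inv_s]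
    · change rho (⟨1, 1, 0, 0⟩ : TH K) ⟨1, 0, 1, 0⟩ 1 ⟨θ, 0, 0, 0⟩
        (of 2 * of 3 * (of 2)⁻¹ * (of 3)⁻¹) ∈ TH.corner K
      rw [map_mul, map_mul, map_mul, map_inv, map_inv, rho2, rho3, one_mul, inv_one, mul_one,
        mul_inv_cancel]
      exact Subgroup.one_mem _
  exact hle hg

end theta

end RG58
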