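import Pool.Agent.Lib.RG58.SqLin
import Pool.Agent.Lib.RG58.Roots

/-! Products of two squares are not relators of a presentation with three relators (helper58). -/

set_option autoImplicit false

namespace RG58

open FreeGroup (of)
open Monoid

/-! ### Laurent polynomials over the field with three elements -/

/-- Laurent polynomials over `F_3` -/
abbrev L3 := LaurentPolynomial (ZMod 3)

open LaurentPolynomial in
/-- the variable -/
noncomputable def Tt : L3ˣ := ⟨T 1, T (-1), by rw [← T_add]; simp, by rw [← T_add]; simp⟩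

open LaurentPolynomial in
theorem Tt_zpow (n : ℤ) : ((Tt ^ n : L3ˣ) : L3) = T n := by
  induction n using Int.induction_on with
  | zero => simp
  | succ n ih => rw [zpow_add, Units.val_mul, ih, zpow_one, T_add]; rfl
  | pred n ih => rw [sub_eq_add_neg, zpow_add, Units.val_mul, ih, T_add, zpow_neg_one]; rfl

open LaurentPolynomial in
theorem Tt_inj {n : ℤ} (h : Tt ^ n = 1) : n = 0 := by
  have h1 := congrArg (Units.val) h
  rw [Tt_zpow, Units.val_one] at h1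
  have h2 := congrArg LaurentPolynomial.degree h1
  rw [show (1 : L3) = T 0 from (T_zero).symm, degree_T, degree_T] at h2
  exact_mod_cast h2

theorem three_L3 : (3 : L3) = 0 := by
  have h : ((3 : ZMod 3) : ZMod 3) = 0 := by decide
  have h1 : (3 : L3) = LaurentPolynomial.C (3 : ZMod 3) := by
    rw [map_ofNat]
  rw [h1, h, map_zero]

/-- derivation in the `x`-direction -/
noncomputable def rx : F →* TH L3 := rho ⟨1, 1, 0, 0⟩ 1 1 ⟨Tt, 0, 0, 0⟩

theorem rx_u (g : F) : (rx g).u = Tt ^ (Multiplicative.toAdd (Et g)) := by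
  have : TH.chi.comp rx = rho 1 1 1 Tt := by
    apply rho_ext
    · simp [rx, rho0, TH.chi]
    · simp [rx, rho1, TH.chi, TH.one_u]
    · simp [rx, rho2, TH.chi, TH.one_u]
    · simp [rx, rho3, TH.chi]
  rw [← rho_t, ← this]
  rfl

theorem rx_R {r : F} (hr : r ∈ R) : (rx r).u = 1 ∧ (rx r).p = 0 := by
  have hle : R ≤ (TH.up L3).comap rx := by
    apply Subgroup.normalClosure_le_normal
    apply rel_cases
    · change rx (of 0 ^ 3) ∈ TH.up L3
      rw [map_pow, rx, rho0, pow_succ, pow_two]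
      refine ⟨by simp [TH.mul_u], ?_⟩
      simp only [TH.mul_u, TH.mul_p, mul_one, Units.val_one]
      linear_combination three_L3
    · change rx (of 2 ^ 2) ∈ TH.up L3
      rw [map_pow, rx, rho2, one_pow]
      exact (TH.up L3).one_mem
    · change rx (of 0 * of 1 * (of 0)⁻¹ * (of 1)⁻¹) ∈ TH.up L3
      rw [map_mul, map_mul, map_mul, map_inv, map_inv, rx, rho0, rho1, mul_one, mul_inv_cancel,
        inv_one, mul_one]
      exact (TH.up L3).one_mem
    · change rx (of 2 * of 3 * (of 2)⁻¹ * (of 3)⁻¹) ∈ TH.up L3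
      rw [map_mul, map_mul, map_mul, map_inv, map_inv, rx, rho2, rho3, one_mul, inv_one, mul_one,
        mul_inv_cancel]
      exact (TH.up L3).one_mem
  exact hle hr

/-- two squares: the relation between the derivations -/
theorem rx_sq {a b : F} (hab : a * a * (b * b) ∈ R) (hb : Et b = (Et a)⁻¹) (ha : Et a ≠ 1) :
    (rx a).p + (rx a).u * (rx b).p = 0 := by
  obtain ⟨h1, h2⟩ := rx_R hab
  have hu : (rx b).u = ((rx a).u)⁻¹ := by rw [rx_u, rx_u, hb, toAdd_inv, zpow_neg]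
  have h4 : ((rx a).u : L3) * (((rx a).u)⁻¹ : L3ˣ) = 1 := Units.mul_inv _
  have h5 : (1 + ((rx a).u : L3)) * ((rx a).p + (rx a).u * (rx b).p) = 0 := by
    rw [map_mul, map_mul, map_mul, TH.mul_p, TH.mul_u, TH.mul_p, TH.mul_p, hu, Units.val_mul] at h2
    linear_combination h2 - (rx a).u * (rx b).p * h4
  rcases mul_eq_zero.1 h5 with h6 | h6
  · exfalso
    apply ha
    have h7 : (rx a).u * (rx a).u = 1 := by
      ext1
      rw [Units.val_mul, Units.val_one]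
      have h8 : ((rx a).u : L3) = -1 := by linear_combination h6
      rw [h8]
      ring
    rw [rx_u, ← zpow_add] at h7
    have h9 := Tt_inj h7
    have h10 : Multiplicative.toAdd (Et a) = 0 := by omega
    exact Multiplicative.toAdd.injective h10
  · exact h6

/-! ### the ring with a root of minus one -/

theorem exists_ring (j : ℤ) (hj : j ≠ 0) : ∃ (O : Type) (_ : CommRing O)
    (_ : O →+* AlgebraicClosure (ZMod 3)) (τ : Oˣ), (∀ c d : O, 3 * c = 3 * d → c = d) ∧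
      τ ^ j = -1 := by
  let K := AlgebraicClosure (ZMod 3)
  let n := j.natAbs
  have hn : 0 < n := Int.natAbs_pos.2 hj
  obtain ⟨t, ht⟩ := IsAlgClosed.exists_pow_nat_eq (-1 : K) hn
  have hmon : (Polynomial.X ^ n + Polynomial.C 1 : Polynomial ℤ).Monic :=
    Polynomial.monic_X_pow_add_C 1 hn.ne'
  let O := AdjoinRoot (Polynomial.X ^ n + Polynomial.C 1 : Polynomial ℤ)
  let f : O →+* K := AdjoinRoot.lift (Int.castRingHom K) t (by
    rw [Polynomial.eval₂_add, Polynomial.eval₂_X_pow, Polynomial.eval₂_C, ht]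
    simp)
  have hroot : (AdjoinRoot.root (Polynomial.X ^ n + Polynomial.C 1 : Polynomial ℤ)) ^ n = -1 := by
    have h := AdjoinRoot.eval₂_root (Polynomial.X ^ n + Polynomial.C 1 : Polynomial ℤ)
    rw [Polynomial.eval₂_add, Polynomial.eval₂_X_pow, Polynomial.eval₂_C, map_one] at h
    exact eq_neg_of_add_eq_zero_left h
  have hunit : IsUnit (AdjoinRoot.root (Polynomial.X ^ n + Polynomial.C 1 : Polynomial ℤ)) := by
    rw [← isUnit_pow_iff hn.ne', hroot]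
    exact isUnit_one.neg
  obtain ⟨τ, hτ⟩ := hunit
  have hτn : τ ^ n = -1 := by
    ext1
    rw [Units.val_pow_eq_pow_val, hτ, hroot, Units.val_neg, Units.val_one]
  refine ⟨O, inferInstance, f, τ, ?_, ?_⟩
  · intro c d hcd
    have hfree : Module.Free ℤ O := Module.Free.of_basis (AdjoinRoot.powerBasis' hmon).basis
    have h1 : (3 : ℤ) • c = (3 : ℤ) • d := by
      rw [zsmul_eq_mul, zsmul_eq_mul]
      exact_mod_cast hcd
    exact smul_right_injective O (by norm_num : (3 : ℤ) ≠ 0) h1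
  · rcases Int.natAbs_eq j with h | h
    · rw [h, zpow_natCast]
      exact hτn
    · rw [h, zpow_neg, zpow_natCast]
      change (τ ^ n)⁻¹ = -1
      rw [hτn, inv_neg, inv_one]

/-! ### the triple of functionals at `t ↦ θ` -/

/-- the coefficient field -/
abbrev K3 := AlgebraicClosure (ZMod 3)

theorem three_K3 : (3 : K3) = 0 := by
  have h1 : (3 : K3) = algebraMap (ZMod 3) K3 3 := by rw [map_ofNat]
  rw [h1, show (3 : ZMod 3) = 0 by decide, map_zero]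

theorem tripleT {r : Fin 3 → F} (hr : Gen r) (i : Fin 3) {O : Type*} [CommRing O] (f : O →+* K3)
    (h3 : ∀ c d : O, 3 * c = 3 * d → c = d) (τ : Oˣ) :
    fA f τ (r i) ≠ 0 ∨
    (rho (1 : TH K3) 1 ⟨1, 0, 0, 1⟩ ⟨Units.map f.toMonoidHom τ, 0, 0, 0⟩ (r i)).q ≠ 0 ∨
    (rho (⟨1, 1, 0, 0⟩ : TH K3) ⟨1, 0, 1, 0⟩ 1 ⟨Units.map f.toMonoidHom τ, 0, 0, 0⟩ (r i)).q ≠ 0 := by
  obtain ⟨θ, hθ⟩ : ∃ θ, θ = Units.map f.toMonoidHom τ := ⟨_, rfl⟩
  have a0 := fA_fn f h3 τ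
  obtain ⟨a1, a2, a3⟩ := fA_val f h3 τ
  rw [← hθ] at a0 ⊢
  obtain ⟨b0, b1, b2, b3, b4⟩ := fB θ
  obtain ⟨c0, c1, c2, c3, c4⟩ := fC three_K3 θ
  obtain ⟨φ, hφ⟩ : ∃ φ : Fin 3 → F → K3, φ =
      ![fA f τ,
        fun g => (rho (1 : TH K3) 1 ⟨1, 0, 0, 1⟩ ⟨θ, 0, 0, 0⟩ g).q,
        fun g => (rho (⟨1, 1, 0, 0⟩ : TH K3) ⟨1, 0, 1, 0⟩ 1 ⟨θ, 0, 0, 0⟩ g).q] := ⟨_, rfl⟩
  have hfn : ∀ j, IsFn (rho 1 1 1 θ) (φ j) := by
    intro j
    rw [hφ]
    fin_cases j
    · exact a0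
    · exact b0
    · exact c0
  obtain ⟨j, hj⟩ := key (by linear_combination 2 * three_K3) hfn (fun v hv => by
    have e1 := hv _ (Or.inl rfl)
    have e2 := hv _ (Or.inr (Or.inl rfl))
    have e3 := hv _ (Or.inr (Or.inr (Or.inl rfl)))
    rw [Fin.sum_univ_three, hφ] at e1 e2 e3
    change _ * v 0 + _ * v 1 + _ * v 2 = 0 at e1
    change _ * v 0 + _ * v 1 + _ * v 2 = 0 at e2
    change _ * v 0 + _ * v 1 + _ * v 2 = 0 at e3
    simp only [Matrix.cons_val_zero, Matrix.cons_val_one, Matrix.cons_val] at e1 e2 e3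
    rw [a1, b1, c1] at e1
    rw [a2, b2, c2] at e2
    rw [a3, b3, c3] at e3
    funext k
    fin_cases k
    · change v 0 = 0
      linear_combination e1
    · change v 1 = 0
      linear_combination 2 * e2 - v 1 * three_K3
    · change v 2 = 0
      linear_combination e3) hr i
  rw [hφ] at hj
  fin_cases j
  · exact Or.inl hj
  · exact Or.inr (Or.inl hj)
  · exact Or.inr (Or.inr hj)

/-- evaluation of Laurent polynomials -/
noncomputable def ev3 (θ : K3ˣ) : L3 →+* K3 := LaurentPolynomial.eval₂ (algebraMap (ZMod 3) K3) θ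

theorem ev3_Tt (θ : K3ˣ) : Units.map (ev3 θ).toMonoidHom Tt = θ := by
  ext1
  have h1 : ev3 θ (LaurentPolynomial.T 1) = ((θ ^ (1 : ℤ) : K3ˣ) : K3) :=
    LaurentPolynomial.eval₂_T _ _ _
  change ev3 θ (LaurentPolynomial.T 1) = θ
  rw [h1, zpow_one]

theorem ev3_rx (θ : K3ˣ) (g : F) : ev3 θ (rx g).p =
    (rho (⟨1, 1, 0, 0⟩ : TH K3) ⟨1, 0, 1, 0⟩ 1 ⟨θ, 0, 0, 0⟩ g).p := by
  have : (TH.mp (ev3 θ)).comp rx =
      TH.pr.comp (rho (⟨1, 1, 0, 0⟩ : TH K3) ⟨1, 0, 1, 0⟩ 1 ⟨θ, 0, 0, 0⟩) := by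
    apply rho_ext
    · simp only [MonoidHom.comp_apply, rx, rho0]
      simp [TH.mp, TH.pr]
    · simp only [MonoidHom.comp_apply, rx, rho1, map_one]
      rfl
    · simp only [MonoidHom.comp_apply, rx, rho2, map_one]
    · simp only [MonoidHom.comp_apply, rx, rho3]
      simp only [TH.mp, MonoidHom.coe_mk, OneHom.coe_mk, ev3_Tt, map_zero]
      rfl
  have h2 := DFunLike.congr_fun this g
  exact congrArg TH.p h2

/-- **the exponent sums of `t` vanish** -/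
theorem sq_t {r : Fin 3 → F} (hr : Gen r) (i : Fin 3) {a b s : F} (hs : s ∈ Q6)
    (hi : r i = a * a * (b * b) * s) : Et a = 1 := by
  by_contra ha
  have hR : a * a * (b * b) ∈ R := by
    have := hr.mem i
    rw [hi] at this
    exact (R.mul_mem_cancel_right (Q6_le hs)).1 this
  have hb : Et b = (Et a)⁻¹ := by
    have h1 : Et (a * a * (b * b)) = 1 := rho_R (one_pow 3) (one_pow 2) hR
    rw [map_mul, map_mul, map_mul] at h1
    have h2 := congrArg Multiplicative.toAdd h1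
    apply Multiplicative.toAdd.injective
    rw [toAdd_inv]
    rw [toAdd_mul, toAdd_mul, toAdd_mul, toAdd_one] at h2
    omega
  obtain ⟨j, hj⟩ : ∃ j, j = Multiplicative.toAdd (Et a) := ⟨_, rfl⟩
  have hj0 : j ≠ 0 := by
    rintro rfl
    exact ha (Multiplicative.toAdd.injective hj.symm)
  obtain ⟨O, _, f, τ, h3, hτ⟩ := exists_ring j hj0
  obtain ⟨θ, hθ⟩ : ∃ θ, θ = Units.map f.toMonoidHom τ := ⟨_, rfl⟩
  have hθj : θ ^ j = -1 := by
    rw [hθ, ← map_zpow, hτ]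
    ext1
    change f ((-1 : Oˣ) : O) = ((-1 : K3ˣ) : K3)
    rw [Units.val_neg, Units.val_one, map_neg, map_one, Units.val_neg, Units.val_one]
  have hτb : τ ^ (-j) = -1 := by rw [zpow_neg, hτ, inv_neg, inv_one]
  have hθb : θ ^ (-j) = -1 := by rw [zpow_neg, hθj, inv_neg, inv_one]
  have hjb : Multiplicative.toAdd (Et b) = -j := by rw [hb, toAdd_inv, hj]
  have h6 : (6 : K3) = 0 := by linear_combination 2 * three_K3
  have uA : ∀ g : F, (rA τ g).u = τ ^ (Multiplicative.toAdd (Et g)) := by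
    intro g
    have : TH.chi.comp (rA τ) = rho 1 1 1 τ := by
      apply rho_ext
      · simp [rA, rho0, TH.chi]
      · simp [rA, rho1, TH.chi, TH.one_u]
      · simp [rA, rho2, TH.chi, TH.one_u]
      · simp [rA, rho3, TH.chi]
    rw [← rho_t, ← this]
    rfl
  rcases tripleT hr i f h3 τ with h | h | h
  · apply h
    have hfn := fA_fn f h3 τ
    rw [hi, hfn.add _ hR _ (Q6_le hs), (hfn.q6 h6 hs).2, add_zero]
    have h7 : (rA τ (a * a * (b * b))).p = 3 * 0 := by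
      rw [map_mul, map_mul, map_mul, mul_zero]
      exact (TH.sq_sq (by rw [uA, ← hj, hτ]) (by rw [uA, hjb, hτb])).1
    rw [fA_eq f h3 τ h7, map_zero]
  · apply h
    rw [← hθ]
    have hfn := (fB θ).1
    have uB : ∀ g : F, (rho (1 : TH K3) 1 ⟨1, 0, 0, 1⟩ ⟨θ, 0, 0, 0⟩ g).u =
        θ ^ (Multiplicative.toAdd (Et g)) := by
      intro g
      have := DFunLike.congr_fun (chi_rho (1 : TH K3) 1 ⟨1, 0, 0, 1⟩ ⟨θ, 0, 0, 0⟩) g
      rw [← rho_t]
      exact this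
    have pB : ∀ g : F, rho (1 : TH K3) 1 ⟨1, 0, 0, 1⟩ ⟨θ, 0, 0, 0⟩ g ∈ TH.pz K3 :=
      rho_mem _ (Subgroup.one_mem _) (Subgroup.one_mem _) rfl rfl
    have hval : (rho (1 : TH K3) 1 ⟨1, 0, 0, 1⟩ ⟨θ, 0, 0, 0⟩ (a * a * (b * b))).q = 0 := by
      rw [map_mul, map_mul, map_mul,
        (TH.sq_sq (by rw [uB, ← hj, hθj]) (by rw [uB, hjb, hθb])).2.2,
        show (rho (1 : TH K3) 1 ⟨1, 0, 0, 1⟩ ⟨θ, 0, 0, 0⟩ a).p = 0 from pB a,
        show (rho (1 : TH K3) 1 ⟨1, 0, 0, 1⟩ ⟨θ, 0, 0, 0⟩ b).p = 0 from pB b]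
      ring
    rw [hi]
    refine (hfn.add _ hR _ (Q6_le hs)).trans ?_
    rw [(hfn.q6 h6 hs).2, add_zero]
    exact hval
  · apply h
    rw [← hθ]
    have hfn := (fC three_K3 θ).1
    have uC : ∀ g : F, (rho (⟨1, 1, 0, 0⟩ : TH K3) ⟨1, 0, 1, 0⟩ 1 ⟨θ, 0, 0, 0⟩ g).u =
        θ ^ (Multiplicative.toAdd (Et g)) := by
      intro g
      have := DFunLike.congr_fun (chi_rho (⟨1, 1, 0, 0⟩ : TH K3) ⟨1, 0, 1, 0⟩ 1 ⟨θ, 0, 0, 0⟩) g
      rw [← rho_t]
      exact this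
    have hsq := TH.sq_sq (a := rho (⟨1, 1, 0, 0⟩ : TH K3) ⟨1, 0, 1, 0⟩ 1 ⟨θ, 0, 0, 0⟩ a)
      (b := rho (⟨1, 1, 0, 0⟩ : TH K3) ⟨1, 0, 1, 0⟩ 1 ⟨θ, 0, 0, 0⟩ b)
      (by rw [uC, ← hj, hθj]) (by rw [uC, hjb, hθb])
    have hcor := (fC_corner three_K3 θ hR).2.2
    rw [map_mul, map_mul, map_mul, hsq.2.1] at hcor
    have hp := rx_sq hR hb ha
    have hp2 := congrArg (ev3 θ) hp
    rw [map_add, map_mul, map_zero, ev3_rx, ev3_rx] at hp2
    have hu : ev3 θ ((rx a).u : L3) = -1 := by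
      have h8 : Units.map (ev3 θ).toMonoidHom (rx a).u = -1 := by
        rw [rx_u, map_zpow, ev3_Tt, ← hj, hθj]
      have h9 := congrArg Units.val h8
      rw [Units.val_neg, Units.val_one] at h9
      exact h9
    rw [hu] at hp2
    have hval : (rho (⟨1, 1, 0, 0⟩ : TH K3) ⟨1, 0, 1, 0⟩ 1 ⟨θ, 0, 0, 0⟩ (a * a * (b * b))).q
        = 0 := by
      rw [map_mul, map_mul, map_mul, hsq.2.2]
      linear_combination
        (rho (⟨1, 1, 0, 0⟩ : TH K3) ⟨1, 0, 1, 0⟩ 1 ⟨θ, 0, 0, 0⟩ a).s * hp2 -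
        (rho (⟨1, 1, 0, 0⟩ : TH K3) ⟨1, 0, 1, 0⟩ 1 ⟨θ, 0, 0, 0⟩ b).p * hcor +
        (rho (⟨1, 1, 0, 0⟩ : TH K3) ⟨1, 0, 1, 0⟩ 1 ⟨θ, 0, 0, 0⟩ b).p *
        ((rho (⟨1, 1, 0, 0⟩ : TH K3) ⟨1, 0, 1, 0⟩ 1 ⟨θ, 0, 0, 0⟩ a).s +
        (rho (⟨1, 1, 0, 0⟩ : TH K3) ⟨1, 0, 1, 0⟩ 1 ⟨θ, 0, 0, 0⟩ b).s) * three_K3
    rw [hi]
    refine (hfn.add _ hR _ (Q6_le hs)).trans ?_
    rw [(hfn.q6 h6 hs).2, add_zero]
    exact hval

end RG58
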