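import Pool.Agent.Lib.RG58.Func

/-! Elements of finite order in free products, and in `F / R` (helper58). -/

set_option autoImplicit false

namespace RG58

open Monoid

section general

variable {ι : Type*} {M : ι → Type*} [∀ i, Group (M i)]

/-- product of a list of letters -/
def pl (l : List (Σ i, M i)) : CoprodI M := (l.map fun p => CoprodI.of p.2).prod

theorem pl_append (l l' : List (Σ i, M i)) : pl (l ++ l') = pl l * pl l' := by
  rw [pl, List.map_append, List.prod_append]
  rfl

theorem pl_cons (x : Σ i, M i) (l : List (Σ i, M i)) : pl (x :: l) = CoprodI.of x.2 * pl l := by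
  rw [pl, List.map_cons, List.prod_cons]
  rfl

theorem pl_nil : pl ([] : List (Σ i, M i)) = 1 := rfl

/-- shortest lists are reduced -/
theorem red_of_min (l : List (Σ i, M i)) : ∀ l1 : List (Σ i, M i),
    (∀ l' : List (Σ i, M i), pl l' = pl (l1 ++ l) → (l1 ++ l).length ≤ l'.length) →
    (∀ x ∈ l, x.2 ≠ 1) ∧ l.IsChain (fun a b => a.1 ≠ b.1) := by
  induction l with
  | nil =>
    intro l1 _
    exact ⟨fun x hx => absurd hx List.not_mem_nil, List.isChain_nil⟩
  | cons x l2 ih =>
    intro l1 hmin
    obtain ⟨h1, h2⟩ := ih (l1 ++ [x]) (by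
      intro l' hl'
      have := hmin l' (by rw [hl']; simp)
      simpa using this)
    have hx : x.2 ≠ 1 := by
      intro hx
      have h3 := hmin (l1 ++ l2) (by
        rw [pl_append, pl_append, pl_cons, hx, map_one, one_mul])
      simp at h3
    refine ⟨?_, ?_⟩
    · intro y hy
      rcases List.mem_cons.1 hy with rfl | hy
      · exact hx
      · exact h1 y hy
    · cases l2 with
      | nil => exact List.isChain_singleton _
      | cons y l3 =>
        rw [List.isChain_cons_cons]
        refine ⟨?_, h2⟩
        intro hxy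
        obtain ⟨i, m⟩ := x
        obtain ⟨j, m'⟩ := y
        change i = j at hxy
        subst hxy
        have h3 := hmin (l1 ++ ⟨i, m * m'⟩ :: l3) (by
          rw [pl_append, pl_append, pl_cons, pl_cons, pl_cons, map_mul, mul_assoc])
        simp at h3

/-- reduced non-empty lists are not trivial -/
theorem pl_ne_one [DecidableEq ι] [∀ i, DecidableEq (M i)] {l : List (Σ i, M i)} (h0 : l ≠ [])
    (h1 : ∀ x ∈ l, x.2 ≠ 1) (h2 : l.IsChain (fun a b => a.1 ≠ b.1)) : pl l ≠ 1 := by
  intro h
  let w : CoprodI.Word M := ⟨l, h1, h2⟩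
  have h3 : w.prod = (CoprodI.Word.empty : CoprodI.Word M).prod := by
    rw [CoprodI.Word.prod_empty]
    exact h
  have h4 : w = CoprodI.Word.empty := (CoprodI.Word.equiv (M := M)).symm.injective h3
  apply h0
  exact congrArg CoprodI.Word.toList h4

theorem exists_pl [DecidableEq ι] [∀ i, DecidableEq (M i)] (g : CoprodI M) : ∃ l, pl l = g :=
  ⟨(CoprodI.Word.equiv g).toList, (CoprodI.Word.equiv (M := M)).symm_apply_apply g⟩

/-- **elements of finite order of a free product are conjugate into a factor** -/
theorem torsion_conj [DecidableEq ι] [∀ i, DecidableEq (M i)] (g : CoprodI M) {n : ℕ} (hn : n ≠ 0)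
    (hg : g ^ n = 1) : g = 1 ∨ ∃ (c : CoprodI M) (i : ι) (m : M i), g = c * CoprodI.of m * c⁻¹ := by
  classical
  have hex : ∃ k, ∃ (c : CoprodI M) (l : List (Σ i, M i)), c⁻¹ * g * c = pl l ∧ l.length = k := by
    obtain ⟨l, hl⟩ := exists_pl g
    exact ⟨l.length, 1, l, by rw [hl]; group, rfl⟩
  obtain ⟨c, l, hc, hk⟩ := Nat.find_spec hex
  have hmin : ∀ (c' : CoprodI M) (l' : List (Σ i, M i)), c'⁻¹ * g * c' = pl l' →
      l.length ≤ l'.length := by
    intro c' l' h
    rw [hk]
    exact Nat.find_min' hex ⟨c', l', h, rfl⟩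
  obtain ⟨hr1, hr2⟩ := red_of_min l [] (by
    intro l' hl'
    exact hmin c l' (by rw [hc, hl']; rfl))
  have hgc : g = c * pl l * c⁻¹ := by rw [← hc]; group
  cases l with
  | nil =>
    left
    rw [hgc, pl_nil]
    group
  | cons x l0 =>
    rcases List.eq_nil_or_concat l0 with rfl | ⟨l1, y, rfl⟩
    · right
      refine ⟨c, x.1, x.2, ?_⟩
      rw [hgc, pl_cons, pl_nil, mul_one]
    · exfalso
      have hxy : y.1 ≠ x.1 := by
        intro hxy
        obtain ⟨i, m⟩ := x
        obtain ⟨j, m'⟩ := y
        change j = i at hxy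
        subst hxy
        have h3 := hmin (c * (CoprodI.of m')⁻¹) (⟨j, m' * m⟩ :: l1) (by
          rw [mul_inv_rev, inv_inv]
          have : CoprodI.of m' * c⁻¹ * g * (c * (CoprodI.of m')⁻¹) =
              CoprodI.of m' * (c⁻¹ * g * c) * (CoprodI.of m')⁻¹ := by group
          rw [this, hc, pl_cons, List.concat_eq_append, pl_append, pl_cons, pl_nil, pl_cons, map_mul]
          group)
        simp at h3
      obtain ⟨l, hl⟩ : ∃ l, l = x :: l1.concat y := ⟨_, rfl⟩
      rw [← hl] at hr1 hr2 hgc hc
      have hlast : ∀ a ∈ l.getLast?, a = y := by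
        intro a ha
        rw [hl, List.concat_eq_append, ← List.cons_append, List.getLast?_append] at ha
        simpa using ha.symm
      have hpow : ∀ k : ℕ, ∃ l' : List (Σ i, M i), l'.IsChain (fun a b => a.1 ≠ b.1) ∧
          (∀ z ∈ l', z.2 ≠ 1) ∧ pl l' = pl l ^ (k + 1) ∧ l'.head? = some x := by
        intro k
        induction k with
        | zero =>
          refine ⟨l, hr2, hr1, (pow_one _).symm, ?_⟩
          rw [hl]
          rfl
        | succ k ih =>
          obtain ⟨l', h1, h2, h3, h4⟩ := ih
          refine ⟨l ++ l', ?_, ?_, ?_, ?_⟩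
          · apply List.IsChain.append hr2 h1
            intro a ha b hb
            rw [hlast a ha]
            rw [h4] at hb
            have : b = x := by simpa using hb.symm
            rw [this]
            exact hxy
          · intro z hz
            rcases List.mem_append.1 hz with hz | hz
            · exact hr1 z hz
            · exact h2 z hz
          · rw [pl_append, h3, pow_succ' _ (k + 1)]
          · rw [hl]
            rfl
      obtain ⟨k, rfl⟩ := Nat.exists_eq_succ_of_ne_zero hn
      obtain ⟨l', h1, h2, h3, h4⟩ := hpow k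
      have h5 : pl l' = 1 := by
        rw [h3, ← hc, Nat.succ_eq_add_one] at *
        have : (c⁻¹ * g * c) ^ (k + 1) = c⁻¹ * g ^ (k + 1) * c := by
          have := conj_pow (a := c⁻¹) (b := g) (i := k + 1)
          rwa [inv_inv] at this
        rw [this, hg]
        group
      refine pl_ne_one ?_ h2 h1 h5
      rintro rfl
      simp at h4

end general

end RG58
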