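import Pool.Agent.Lib.RG58.Comm
import Pool.Agent.Lib.RG58.Tors

/-! Elements of `F` that have finite order modulo `R` (helper58). -/

set_option autoImplicit false

namespace RG58

open FreeGroup (of)
open Monoid

section general

variable {G : Type*} [Group G]

/-- the homomorphism from `ℤ/k` given by an element of order dividing `k` -/
def zm (k : ℕ) [NeZero k] (a : G) (ha : a ^ k = 1) : Multiplicative (ZMod k) →* G where
  toFun m := a ^ (Multiplicative.toAdd m).val
  map_one' := by
    change a ^ (0 : ZMod k).val = 1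
    rw [ZMod.val_zero, pow_zero]
  map_mul' m n := by
    change a ^ (Multiplicative.toAdd m + Multiplicative.toAdd n : ZMod k).val = _
    rw [ZMod.val_add, ← pow_eq_pow_mod _ ha, pow_add]

/-- the homomorphism from `ℤ/k × ℤ` -/
def zmz (k : ℕ) [NeZero k] (a b : G) (ha : a ^ k = 1) (hab : Commute a b) :
    Multiplicative (ZMod k) × Multiplicative ℤ →* G :=
  MonoidHom.noncommCoprod (zm k a ha) (zpowersHom G b)
    (fun _ _ => (hab.pow_left _).zpow_right _)

theorem zmz_apply (k : ℕ) [NeZero k] (a b : G) (ha : a ^ k = 1) (hab : Commute a b)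
    (m : Multiplicative (ZMod k)) (n : Multiplicative ℤ) :
    zmz k a b ha hab (m, n) = a ^ (Multiplicative.toAdd m).val * b ^ (Multiplicative.toAdd n) := rfl

end general

/-- the orders of the two finite factors -/
abbrev kk : Bool → ℕ := fun b => cond b 2 3

/-- the two factors -/
abbrev MM (b : Bool) : Type := Multiplicative (ZMod (kk b)) × Multiplicative ℤ

instance (b : Bool) : DecidableEq (MM b) := by
  cases b
  · exact inferInstanceAs (DecidableEq (ZMod 3 × ℤ))
  · exact inferInstanceAs (DecidableEq (ZMod 2 × ℤ))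

/-- first generator of a factor -/
def g1 (b : Bool) : MM b := (Multiplicative.ofAdd 1, 1)
/-- second generator of a factor -/
def g2 (b : Bool) : MM b := (1, Multiplicative.ofAdd 1)

/-- the map to the free product -/
def Th : F →* CoprodI MM :=
  rho (CoprodI.of (g1 false)) (CoprodI.of (g2 false)) (CoprodI.of (g1 true)) (CoprodI.of (g2 true))

theorem g1_pow (b : Bool) : g1 b ^ kk b = 1 := by
  cases b <;> rfl

theorem g_comm (b : Bool) : Commute (g1 b) (g2 b) := by
  rw [Commute, SemiconjBy, mul_comm]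

theorem comm_one {G : Type*} [Group G] {a b : G} (h : Commute a b) : a * b * a⁻¹ * b⁻¹ = 1 := by
  rw [h.eq]
  group

theorem Th_R {r : F} (hr : r ∈ R) : Th r = 1 := by
  have hle : R ≤ Th.ker := by
    apply Subgroup.normalClosure_le_normal
    apply rel_cases
    · change Th (of 0 ^ 3) = 1
      rw [map_pow, Th, rho0, ← map_pow]
      have := g1_pow false
      rw [show (3 : ℕ) = kk false from rfl, this, map_one]
    · change Th (of 2 ^ 2) = 1
      rw [map_pow, Th, rho2, ← map_pow]
      have := g1_pow true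
      rw [show (2 : ℕ) = kk true from rfl, this, map_one]
    · change Th (of 0 * of 1 * (of 0)⁻¹ * (of 1)⁻¹) = 1
      rw [map_mul, map_mul, map_mul, map_inv, map_inv, Th, rho0, rho1]
      exact comm_one ((g_comm false).map _)
    · change Th (of 2 * of 3 * (of 2)⁻¹ * (of 3)⁻¹) = 1
      rw [map_mul, map_mul, map_mul, map_inv, map_inv, Th, rho2, rho3]
      exact comm_one ((g_comm true).map _)
  exact hle hr

section back

variable {G : Type*} [Group G] (a b c d : G) (ha : a ^ 3 = 1) (hc : c ^ 2 = 1)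
  (hab : Commute a b) (hcd : Commute c d)

/-- the map back on the factors -/
def bkf : (i : Bool) → MM i →* G
  | false => zmz 3 a b ha hab
  | true => zmz 2 c d hc hcd

/-- the map back -/
def bk : CoprodI MM →* G := CoprodI.lift (bkf a b c d ha hc hab hcd)

theorem bk_of {i : Bool} (m : MM i) :
    bk a b c d ha hc hab hcd (CoprodI.of m) = bkf a b c d ha hc hab hcd i m := by
  rw [bk, CoprodI.lift_of]

theorem bk_Th : (bk a b c d ha hc hab hcd).comp Th = rho a b c d := by
  apply rho_ext
  · rw [MonoidHom.comp_apply, Th, rho0, rho0, bk_of]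
    change a ^ 1 * b ^ (0 : ℤ) = a
    simp
  · rw [MonoidHom.comp_apply, Th, rho1, rho1, bk_of]
    change a ^ 0 * b ^ (1 : ℤ) = b
    simp
  · rw [MonoidHom.comp_apply, Th, rho2, rho2, bk_of]
    change c ^ 1 * d ^ (0 : ℤ) = c
    simp
  · rw [MonoidHom.comp_apply, Th, rho3, rho3, bk_of]
    change c ^ 0 * d ^ (1 : ℤ) = d
    simp

end back

theorem mk_eq_one {g : F} : (QuotientGroup.mk' R g = 1) ↔ g ∈ R := by
  rw [QuotientGroup.mk'_apply, QuotientGroup.eq_one_iff]

theorem Th_ker {g : F} (hg : Th g = 1) : g ∈ R := by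
  have e0 : (QuotientGroup.mk' R (of 0)) ^ 3 = 1 := by
    rw [← map_pow, mk_eq_one]
    exact Subgroup.subset_normalClosure (Or.inl rfl)
  have e2 : (QuotientGroup.mk' R (of 2)) ^ 2 = 1 := by
    rw [← map_pow, mk_eq_one]
    exact Subgroup.subset_normalClosure (Or.inr (Or.inl rfl))
  have e01 : Commute (QuotientGroup.mk' R (of 0)) (QuotientGroup.mk' R (of 1)) := by
    have h1 : QuotientGroup.mk' R (of 0 * of 1 * (of 0)⁻¹ * (of 1)⁻¹) = 1 := by
      rw [mk_eq_one]
      exact Subgroup.subset_normalClosure (Or.inr (Or.inr (Or.inl rfl)))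
    rw [map_mul, map_mul, map_mul, map_inv, map_inv, mul_inv_eq_one, mul_inv_eq_iff_eq_mul] at h1
    exact h1
  have e23 : Commute (QuotientGroup.mk' R (of 2)) (QuotientGroup.mk' R (of 3)) := by
    have h1 : QuotientGroup.mk' R (of 2 * of 3 * (of 2)⁻¹ * (of 3)⁻¹) = 1 := by
      rw [mk_eq_one]
      exact Subgroup.subset_normalClosure (Or.inr (Or.inr (Or.inr rfl)))
    rw [map_mul, map_mul, map_mul, map_inv, map_inv, mul_inv_eq_one, mul_inv_eq_iff_eq_mul] at h1
    exact h1
  have h := bk_Th _ _ _ _ e0 e2 e01 e23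
  have h1 : rho (QuotientGroup.mk' R (of 0)) (QuotientGroup.mk' R (of 1))
      (QuotientGroup.mk' R (of 2)) (QuotientGroup.mk' R (of 3)) = QuotientGroup.mk' R := by
    apply rho_ext
    · rw [rho0]
    · rw [rho1]
    · rw [rho2]
    · rw [rho3]
  rw [h1] at h
  rw [← mk_eq_one, ← h, MonoidHom.comp_apply, hg, map_one]

theorem red_ne : red (-1) ≠ 1 := by
  intro h
  have h1 := congrArg Units.val h
  rw [red_val] at h1
  revert h1
  decide

theorem red_sq : red (-1) ^ 2 = 1 := by
  rw [← map_pow]
  have : ((-1 : ℤˣ)) ^ 2 = 1 := by decide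
  rw [this, map_one]

/-- an element outside `R` with a power in `R` is seen by one of the two characters -/
theorem char_ne_one {K : Type*} [Field K] (w : Kˣ) (hw : w ^ 3 = 1) (hw1 : w ≠ 1) {g : F} {n : ℕ}
    (hn : n ≠ 0) (hg : g ∉ R) (hgn : g ^ n ∈ R) :
    rho w 1 1 1 g ≠ 1 ∨ rho 1 1 (red (-1)) 1 g ≠ 1 := by
  have h1 : Th g ^ n = 1 := by rw [← map_pow]; exact Th_R hgn
  have hg1 : Th g ≠ 1 := fun h => hg (Th_ker h)
  rcases torsion_conj (Th g) hn h1 with h | ⟨c, i, m, hm⟩
  · exact absurd h hg1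
  have hmn : m ^ n = 1 := by
    have h2 : CoprodI.of m = c⁻¹ * Th g * c := by rw [hm]; group
    have h3 : (CoprodI.of m : CoprodI MM) ^ n = 1 := by
      rw [h2]
      have := conj_pow (a := c⁻¹) (b := Th g) (i := n)
      rw [inv_inv] at this
      rw [this, h1]
      group
    rw [← map_pow] at h3
    exact CoprodI.of_injective i (h3.trans (map_one _).symm)
  have hm1 : m ≠ 1 := by
    rintro rfl
    apply hg1
    rw [hm, map_one]
    group
  obtain ⟨p, q⟩ := m
  have hq : q = 1 := by
    have h2 : q ^ n = 1 := congrArg Prod.snd hmn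
    have h3 : n * Multiplicative.toAdd q = 0 := by
      have := congrArg Multiplicative.toAdd h2
      simpa using this
    have h4 : Multiplicative.toAdd q = 0 := by
      rcases mul_eq_zero.1 h3 with h5 | h5
      · exact absurd (by exact_mod_cast h5) hn
      · exact h5
    exact h4
  subst hq
  have hp : p ≠ 1 := by
    rintro rfl
    exact hm1 rfl
  cases i with
  | false =>
    left
    have h := bk_Th w 1 1 1 hw (one_pow 2) (Commute.one_right _) (Commute.one_right _)
    rw [← h, MonoidHom.comp_apply, hm, map_mul, map_mul, map_inv, mul_comm, inv_mul_cancel_left,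
      bk_of]
    change w ^ (ZMod.val (Multiplicative.toAdd p : ZMod 3)) * 1 ^ (0 : ℤ) ≠ 1
    rw [one_zpow, mul_one]
    obtain ⟨v, hv⟩ : ∃ v : ZMod 3, v = Multiplicative.toAdd p := ⟨_, rfl⟩
    have hv0 : v ≠ 0 := by
      rintro rfl
      exact hp hv.symm
    rw [← hv]
    fin_cases v
    · exact absurd rfl hv0
    · change w ^ 1 ≠ 1
      rwa [pow_one]
    · change w ^ 2 ≠ 1
      intro h2
      rw [pow_succ, h2, one_mul] at hw
      exact hw1 hw
  | true =>
    right
    have h := bk_Th 1 1 (red (-1)) 1 (one_pow 3) red_sq (Commute.one_right _) (Commute.one_right _)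
    rw [← h, MonoidHom.comp_apply, hm, map_mul, map_mul, map_inv, mul_comm, inv_mul_cancel_left,
      bk_of]
    change (red (-1)) ^ (ZMod.val (Multiplicative.toAdd p : ZMod 2)) * 1 ^ (0 : ℤ) ≠ 1
    rw [one_zpow, mul_one]
    obtain ⟨v, hv⟩ : ∃ v : ZMod 2, v = Multiplicative.toAdd p := ⟨_, rfl⟩
    have hv0 : v ≠ 0 := by
      rintro rfl
      exact hp hv.symm
    rw [← hv]
    fin_cases v
    · exact absurd rfl hv0
    · change (red (-1)) ^ 1 ≠ 1
      rw [pow_one]
      exact red_ne

/-- a field of characteristic two with a primitive cube root of unity -/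
theorem exists_w : ∃ (K : Type) (_ : Field K) (w : Kˣ), (2 : K) = 0 ∧ w ^ 3 = 1 ∧ w ≠ 1 := by
  let K := AlgebraicClosure (ZMod 2)
  have h2 : (2 : K) = 0 := by
    have h1 : (2 : K) = algebraMap (ZMod 2) K 2 := by rw [map_ofNat]
    rw [h1, show (2 : ZMod 2) = 0 by decide, map_zero]
  have hd : (Polynomial.X ^ 2 + Polynomial.X + 1 : Polynomial K).degree = 2 := by
    compute_degree!
  obtain ⟨x, hx⟩ := IsAlgClosed.exists_root (Polynomial.X ^ 2 + Polynomial.X + 1 : Polynomial K)
    (by rw [hd]; norm_num)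
  have hx' : x ^ 2 + x + 1 = 0 := by simpa using hx
  have hx3 : x ^ 3 = 1 := by linear_combination (x - 1) * hx'
  have hx0 : x ≠ 0 := by
    rintro rfl
    simp at hx'
  refine ⟨K, inferInstance, Units.mk0 x hx0, h2, ?_, ?_⟩
  · ext
    simpa using hx3
  · intro h
    have h1 := congrArg Units.val h
    rw [Units.val_mk0, Units.val_one] at h1
    rw [h1] at hx'
    have h3 : (1 : K) = 0 := by linear_combination hx' - h2
    exact one_ne_zero h3

/-- **powers, first part** -/
theorem no_pow_out {r : Fin 3 → F} (hr : Gen r) (i : Fin 3)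
    {g s : F} {n : ℕ} (hn : n ≠ 0) (hg : g ∉ R) (hs : s ∈ Q6) (hi : r i = g ^ n * s) : False := by
  obtain ⟨K, _, w, h2, hw, hw1⟩ := exists_w
  refine no_pow_w hr i h2 w hw hw1 hs hi (char_ne_one w hw hw1 hn hg ?_)
  have := hr.mem i
  rw [hi] at this
  exact (R.mul_mem_cancel_right (fz3.1.q6 (by decide) hs).1).1 this

end RG58
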